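import Pool.Agent.N879.QM.Stm
import Pool.Agent.H307R2.LU

/-!
Project QM (helper879), parts AFS and CTS: finite sums and continuity of `L` (helper227).
-/

set_option autoImplicit false

namespace Pool.Agent.N879.QM

open Complex Filter Topology MeasureTheory Set

theorem Is_ch {s : ℤ} {q : ℕ} (h : Is s q) : Rp s (ch s q) := by
  rw [ch, dif_pos h]
  exact h.2.choose_spec

theorem LL_eq {q : ℕ} [NeZero q] (s : ℤ) (z : ℂ) : LL s q z = (ch s q).LFunction z := by
  unfold LL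
  rw [dif_pos (NeZero.ne q)]

theorem t_AFS : S_AFS := by
  refine ⟨2, by norm_num, ?_⟩
  intro s q Z α h hZ
  have : NeZero q := ⟨by have := h.1; omega⟩
  have hχ : ch s q ≠ 1 := (Is_ch h).2.2.1
  have hre : (pt α).re = 1 / 2 := by
    unfold pt
    simp
  have hs : 0 < (pt α).re := by rw [hre]; norm_num
  have h1 := H307R2.LFunction_eq hχ hZ hs
  have h2 := H307R2.TM_norm_le hZ (H307R2.Ech_norm_le hχ Z) hs
  rw [hre] at h2
  rw [LL_eq, h1]
  have e : (∑ n ∈ Finset.Icc 1 Z, (ch s q) (n : ZMod q) * (n : ℂ) ^ (-pt α)) = PN s q Z α := rfl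
  rw [e, add_sub_cancel_left, norm_mul]
  have h3 : ‖pt α‖ ≤ 1 + |α| := by
    unfold pt
    refine (norm_add_le _ _).trans ?_
    rw [norm_mul, Complex.norm_I, one_mul, Complex.norm_real, Real.norm_eq_abs]
    have : ‖(1 / 2 : ℂ)‖ = 1 / 2 := by simp
    rw [this]
    linarith
  have hZ0 : (0 : ℝ) < Z := by exact_mod_cast hZ
  have h4 : (Z : ℝ) ^ (-(1 / 2) : ℝ) = 1 / √Z := by
    rw [Real.rpow_neg hZ0.le, ← Real.sqrt_eq_rpow]
    exact (one_div _).symm
  rw [h4] at h2
  calc ‖pt α‖ * ‖H307R2.TM Z (H307R2.Ech (ch s q) Z) (pt α)‖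
      ≤ (1 + |α|) * (q * (1 / √Z / (1 / 2))) := by gcongr
    _ = 2 * q * (1 + |α|) / √Z := by ring

theorem t_CTS : S_CTS := by
  intro s q h
  have : NeZero q := ⟨by have := h.1; omega⟩
  have hχ : ch s q ≠ 1 := (Is_ch h).2.2.1
  have e : (fun α : ℝ => LL s q (pt α)) = fun α : ℝ => (ch s q).LFunction (pt α) := by
    funext α
    rw [LL_eq]
  rw [e]
  refine (DirichletCharacter.differentiable_LFunction hχ).continuous.comp ?_
  unfold pt
  fun_prop

end Pool.Agent.N879.QM
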