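import Pool.Agent.N879.QM.Stm

set_option autoImplicit false

/-!
QM/BLK: mean values of long pieces through sums over short blocks.
-/

namespace Pool.Agent.N879.QM

open Complex Filter Topology MeasureTheory Set
open scoped BigOperators

noncomputable section

/-- the body of `S_MVG` -/
def BlkMV (C : ℝ) : Prop := ∀ (m : ℕ) (l : Fin m → ℝ) (b : Fin m → ℂ) (A δ : ℝ), 0 < A → 0 < δ →
  (∀ i j, i ≠ j → δ ≤ |l i - l j|) →
  ∫ α in (-A)..A, ‖∑ i, b i * Complex.exp (-(I * (α * l i : ℝ)))‖ ^ 2 ≤ C * (A + 1 / δ) * ∑ i, ‖b i‖ ^ 2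

lemma blk_mvg {C : ℝ} (hC : BlkMV C) (S : Finset ℕ) (l : ℕ → ℝ) (b : ℕ → ℂ) (A δ : ℝ) (hA : 0 < A)
    (hδ : 0 < δ) (hl : ∀ x ∈ S, ∀ y ∈ S, x ≠ y → δ ≤ |l x - l y|) :
    ∫ α in (-A)..A, ‖∑ x ∈ S, b x * Complex.exp (-(I * (α * l x : ℝ)))‖ ^ 2 ≤
      C * (A + 1 / δ) * ∑ x ∈ S, ‖b x‖ ^ 2 := by
  have h := hC S.card (fun i => l (S.equivFin.symm i)) (fun i => b (S.equivFin.symm i)) A δ hA hδ ?_
  · have e1 : ∀ f : ℕ → ℂ, ∑ i : Fin S.card, f (S.equivFin.symm i) = ∑ x ∈ S, f x := by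
      intro f
      rw [Equiv.sum_comp S.equivFin.symm (fun x : S => f x), Finset.sum_coe_sort]
    have e2 : ∀ f : ℕ → ℝ, ∑ i : Fin S.card, f (S.equivFin.symm i) = ∑ x ∈ S, f x := by
      intro f
      rw [Equiv.sum_comp S.equivFin.symm (fun x : S => f x), Finset.sum_coe_sort]
    rw [e2 (fun x => ‖b x‖ ^ 2)] at h
    have e3 : ∀ α : ℝ, (∑ i : Fin S.card, b (S.equivFin.symm i) *
        Complex.exp (-(I * (α * l (S.equivFin.symm i) : ℝ)))) =
        ∑ x ∈ S, b x * Complex.exp (-(I * (α * l x : ℝ))) := fun α =>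
      e1 (fun x => b x * Complex.exp (-(I * (α * l x : ℝ))))
    simp only [e3] at h
    exact h
  · intro i j hij
    refine hl _ (S.equivFin.symm i).2 _ (S.equivFin.symm j).2 fun he => hij ?_
    exact S.equivFin.symm.injective (Subtype.ext he)

lemma blk_sep {K : ℕ} {u v : ℝ} (hu : 0 < u) (huv : u + 1 ≤ v) (hv : v ≤ 4 * K) :
    1 / (4 * K : ℝ) ≤ Real.log v - Real.log u := by
  have hv0 : 0 < v := by linarith
  have h := Real.one_sub_inv_le_log_of_pos (div_pos hv0 hu)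
  rw [Real.log_div hv0.ne' hu.ne', inv_div] at h
  refine le_trans ?_ h
  have : 1 - u / v = (v - u) / v := by field_simp
  rw [this]
  calc 1 / (4 * K : ℝ) ≤ 1 / v := one_div_le_one_div_of_le hv0 hv
    _ ≤ (v - u) / v := by gcongr; linarith

lemma blk_W {C : ℝ} (hC0 : 0 < C) (hC : BlkMV C) (S : Finset ℕ) (K : ℕ) (hK : 1 ≤ K) (s : ℝ)
    (hS : ∀ x ∈ S, (K : ℝ) ≤ x + s ∧ x + s ≤ 4 * K) (w : ℕ → ℝ) (W : ℝ)
    (hw : ∀ x ∈ S, w x ^ 2 ≤ W) (b : ℕ → ℂ) (A : ℝ) (hA : 0 < A) :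
    ∫ α in (-A)..A, ‖∑ x ∈ S, b x * ((w x : ℝ) : ℂ) *
      Complex.exp (-(I * (α * Real.log (x + s) : ℝ)))‖ ^ 2 ≤
        C * (A + 4 * K) * (W * ∑ x ∈ S, ‖b x‖ ^ 2) := by
  have hK' : (1 : ℝ) ≤ K := by exact_mod_cast hK
  have h := blk_mvg hC S (fun x => Real.log (x + s)) (fun x => b x * ((w x : ℝ) : ℂ)) A
    (1 / (4 * K)) hA (by positivity) ?_
  · refine h.trans ?_
    rw [one_div_one_div]
    refine mul_le_mul_of_nonneg_left ?_ (by positivity)
    rw [Finset.mul_sum]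
    refine Finset.sum_le_sum fun x hx => ?_
    rw [norm_mul, mul_pow, Complex.norm_real, Real.norm_eq_abs, sq_abs, mul_comm]
    exact mul_le_mul_of_nonneg_right (hw x hx) (by positivity)
  · intro x hx y hy hxy
    rcases lt_or_gt_of_ne hxy with h1 | h1
    · have h2 : (x : ℝ) + 1 ≤ y := by exact_mod_cast h1
      have h3 := blk_sep (K := K) (u := x + s) (v := y + s) (by linarith [(hS x hx).1])
        (by linarith) (hS y hy).2
      rw [abs_sub_comm]
      exact h3.trans (le_abs_self _)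
    · have h2 : (y : ℝ) + 1 ≤ x := by exact_mod_cast h1
      have h3 := blk_sep (K := K) (u := y + s) (v := x + s) (by linarith [(hS y hy).1])
        (by linarith) (hS x hx).2
      exact h3.trans (le_abs_self _)

lemma blk_cpow (r : ℝ) {y : ℝ} (hy : 0 < y) (α : ℝ) :
    (y : ℂ) ^ (-(r : ℂ) - I * α) =
      ((y ^ (-r) : ℝ) : ℂ) * Complex.exp (-(I * (α * Real.log y : ℝ))) := by
  have hy' : (y : ℂ) ≠ 0 := by exact_mod_cast hy.ne'
  rw [Complex.cpow_def_of_ne_zero hy', ← Complex.ofReal_log hy.le, Real.rpow_def_of_pos hy,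
    Complex.ofReal_exp, ← Complex.exp_add]
  congr 1
  push_cast
  ring

lemma blk_cs {g : ℝ → ℂ} (hg : Continuous g) :
    ‖∫ u in (0 : ℝ)..1, g u‖ ^ 2 ≤ ∫ u in (0 : ℝ)..1, ‖g u‖ ^ 2 := by
  set c := ∫ u in (0 : ℝ)..1, ‖g u‖ with hc
  have h1 : ‖∫ u in (0 : ℝ)..1, g u‖ ≤ c :=
    intervalIntegral.norm_integral_le_integral_norm zero_le_one
  have hgn : Continuous fun u => ‖g u‖ := hg.norm
  have h2 : 0 ≤ ∫ u in (0 : ℝ)..1, (‖g u‖ - c) ^ 2 :=
    intervalIntegral.integral_nonneg zero_le_one fun u _ => sq_nonneg _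
  have h3 : ∫ u in (0 : ℝ)..1, (‖g u‖ - c) ^ 2 = (∫ u in (0 : ℝ)..1, ‖g u‖ ^ 2) - c ^ 2 := by
    have e : ∀ u, (‖g u‖ - c) ^ 2 = (‖g u‖ ^ 2 - (2 * c) * ‖g u‖) + c ^ 2 := fun u => by ring
    simp only [e]
    rw [intervalIntegral.integral_add, intervalIntegral.integral_sub,
      intervalIntegral.integral_const_mul, ← hc]
    · simp
      ring
    · exact (hgn.pow 2).intervalIntegrable _ _
    · exact (continuous_const.mul hgn).intervalIntegrable _ _
    · exact ((hgn.pow 2).sub (continuous_const.mul hgn)).intervalIntegrable _ _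
    · exact continuous_const.intervalIntegrable _ _
  have h4 : ‖∫ u in (0 : ℝ)..1, g u‖ ^ 2 ≤ c ^ 2 := by
    have := norm_nonneg (∫ u in (0 : ℝ)..1, g u)
    gcongr
  linarith

/-- the integrand -/
def blkG (x u α : ℝ) : ℂ :=
  (((x + |u|) ^ (-(3 / 2 : ℝ)) : ℝ) : ℂ) * Complex.exp (-(I * (α * Real.log (x + |u|) : ℝ)))

lemma blk_pt_ne (α : ℝ) : pt α ≠ 0 := by
  intro h
  have := congrArg Complex.re h
  simp [pt] at this

lemma blk_diff {x : ℝ} (hx : 0 < x) (α : ℝ) :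
    ((x + 1 : ℝ) : ℂ) ^ (-(pt α)) - (x : ℂ) ^ (-(pt α)) =
      -(pt α) * ∫ u in (0 : ℝ)..1, blkG x u α := by
  have h1 := integral_cpow (a := x) (b := x + 1) (r := -(pt α) - 1) (Or.inr ⟨?_, ?_⟩)
  · have h2 := intervalIntegral.integral_comp_add_left (a := 0) (b := 1)
      (fun y : ℝ => (y : ℂ) ^ (-(pt α) - 1)) x
    rw [add_zero] at h2
    have h3 : ∫ u in (0 : ℝ)..1, blkG x u α = ∫ u in (0 : ℝ)..1, ((x + u : ℝ) : ℂ) ^ (-(pt α) - 1) := by
      refine intervalIntegral.integral_congr fun u hu => ?_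
      rw [uIcc_of_le zero_le_one] at hu
      simp only [blkG]
      rw [abs_of_nonneg hu.1, ← blk_cpow _ (by linarith [hu.1])]
      congr 1
      simp only [pt]
      push_cast
      ring
    rw [h3, h2, h1, sub_add_cancel]
    have := blk_pt_ne α
    field_simp
  · intro h
    apply blk_pt_ne α
    linear_combination -h
  · rw [uIcc_of_le (by linarith)]
    intro h
    linarith [h.1]

lemma blk_pt_norm {A α : ℝ} (hA : 1 ≤ A) (h : |α| ≤ A) : ‖pt α‖ ^ 2 ≤ 2 * A ^ 2 := by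
  rw [← Complex.normSq_eq_norm_sq, Complex.normSq_apply]
  simp only [pt, add_re, mul_re, I_re, I_im, ofReal_re, ofReal_im, add_im, mul_im]
  norm_num
  have h1 : α ^ 2 ≤ A ^ 2 := sq_le_sq' (by linarith [neg_abs_le α]) ((le_abs_self α).trans h)
  nlinarith

lemma blk_G_cont {x : ℝ} (hx : 0 < x) : Continuous fun p : ℝ × ℝ => blkG x p.2 p.1 := by
  have h0 : Continuous fun p : ℝ × ℝ => x + |p.2| := by fun_prop
  have h1 : ∀ p : ℝ × ℝ, x + |p.2| ≠ 0 := fun p => by
    have := abs_nonneg p.2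
    positivity
  have h2 : Continuous fun p : ℝ × ℝ => (x + |p.2|) ^ (-(3 / 2 : ℝ)) :=
    h0.rpow_const fun p => Or.inl (h1 p)
  have h3 : Continuous fun p : ℝ × ℝ => Real.log (x + |p.2|) := h0.log h1
  unfold blkG
  fun_prop

/-- the integrated form -/
@[irreducible] def blkP (S : Finset ℕ) (t : ℕ) (b : ℕ → ℂ) (α u : ℝ) : ℂ :=
  ∑ x ∈ S, b x * blkG ((x : ℝ) + t) u α

lemma blk_P_cont (S : Finset ℕ) (t : ℕ) (b : ℕ → ℂ) (hpos : ∀ x ∈ S, (0 : ℝ) < (x : ℝ) + t) :
    Continuous fun p : ℝ × ℝ => blkP S t b p.1 p.2 := by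
  unfold blkP
  refine continuous_finsetSum _ fun x hx => continuous_const.mul ?_
  exact blk_G_cont (hpos x hx)

lemma blk_P_eq (S : Finset ℕ) (t : ℕ) (b : ℕ → ℂ) (hpos : ∀ x ∈ S, (0 : ℝ) < (x : ℝ) + t) (α : ℝ) :
    (∑ x ∈ S, b x * (((x + t + 1 : ℕ) : ℂ) ^ (-(pt α)) - ((x + t : ℕ) : ℂ) ^ (-(pt α)))) =
      -(pt α) * ∫ u in (0 : ℝ)..1, blkP S t b α u := by
  unfold blkP
  rw [intervalIntegral.integral_finsetSum, Finset.mul_sum]
  · refine Finset.sum_congr rfl fun x hx => ?_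
    have := blk_diff (hpos x hx) α
    rw [intervalIntegral.integral_const_mul]
    rw [show ((x + t + 1 : ℕ) : ℂ) = (((x : ℝ) + t + 1 : ℝ) : ℂ) by push_cast; ring,
      show ((x + t : ℕ) : ℂ) = (((x : ℝ) + t : ℝ) : ℂ) by push_cast; ring, this]
    ring
  · intro x hx
    have h1 : Continuous fun u => blkG ((x : ℝ) + t) u α :=
      (blk_G_cont (hpos x hx)).comp (continuous_const.prodMk continuous_id)
    exact (continuous_const.mul h1).intervalIntegrable _ _

lemma blk_slice {C : ℝ} (hC0 : 0 < C) (hC : BlkMV C) (S : Finset ℕ) (K t : ℕ) (hK : 1 ≤ K)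
    (hS : ∀ x ∈ S, K ≤ x + t ∧ x + t + 1 ≤ 4 * K) (b : ℕ → ℂ) (A : ℝ) (hA : 1 ≤ A) (u : ℝ)
    (hu0 : 0 ≤ u) (hu1 : u ≤ 1) :
    ∫ α in (-A)..A, ‖blkP S t b α u‖ ^ 2 ≤
      C * (A + 4 * K) * (((K : ℝ) ^ 3)⁻¹ * ∑ x ∈ S, ‖b x‖ ^ 2) := by
  have hK' : (1 : ℝ) ≤ K := by exact_mod_cast hK
  have hA0 : 0 < A := by linarith
  have h1 := blk_W hC0 hC S K hK (t + u) ?_ (fun x => ((x : ℝ) + t + u) ^ (-(3 / 2 : ℝ)))
    (((K : ℝ) ^ 3)⁻¹) ?_ b A hA0
  · refine le_trans (le_of_eq ?_) h1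
    refine intervalIntegral.integral_congr fun α _ => ?_
    simp only [blkP]
    congr 2
    refine Finset.sum_congr rfl fun x hx => ?_
    rw [blkG, abs_of_nonneg hu0, ← add_assoc, mul_assoc]
  · intro x hx
    have h2 : (K : ℝ) ≤ x + t := by exact_mod_cast (hS x hx).1
    have h3 : (x : ℝ) + t + 1 ≤ 4 * K := by exact_mod_cast (hS x hx).2
    constructor <;> linarith
  · intro x hx
    have h2 : (K : ℝ) ≤ x + t := by exact_mod_cast (hS x hx).1
    have h4 : (K : ℝ) ≤ x + t + u := by linarith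
    have h5 : (0 : ℝ) < x + t + u := by linarith
    rw [← Real.rpow_natCast, ← Real.rpow_mul h5.le]
    rw [show (-(3 / 2 : ℝ)) * ((2 : ℕ) : ℝ) = -((3 : ℕ) : ℝ) by norm_num, Real.rpow_neg h5.le,
      Real.rpow_natCast]
    gcongr

lemma blk_swap {N : ℝ → ℝ → ℝ} (hN : Continuous fun p : ℝ × ℝ => N p.1 p.2) (A : ℝ) :
    ∫ α in (-A)..A, ∫ u in (0 : ℝ)..1, N α u = ∫ u in (0 : ℝ)..1, ∫ α in (-A)..A, N α u := by
  apply intervalIntegral_intervalIntegral_swap
  refine IntegrableOn.mono_set (ContinuousOn.integrableOn_compact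
    (isCompact_uIcc.prod isCompact_uIcc) ?_) (prod_mono uIoc_subset_uIcc uIoc_subset_uIcc)
  exact hN.continuousOn

lemma blk_E {C : ℝ} (hC0 : 0 < C) (hC : BlkMV C) (S : Finset ℕ) (K t : ℕ) (hK : 1 ≤ K)
    (hS : ∀ x ∈ S, K ≤ x + t ∧ x + t + 1 ≤ 4 * K) (b : ℕ → ℂ) (A : ℝ) (hA : 1 ≤ A) :
    ∫ α in (-A)..A, ‖∑ x ∈ S, b x * (((x + t + 1 : ℕ) : ℂ) ^ (-(pt α)) -
      ((x + t : ℕ) : ℂ) ^ (-(pt α)))‖ ^ 2 ≤
        2 * A ^ 2 * (C * (A + 4 * K) * (((K : ℝ) ^ 3)⁻¹ * ∑ x ∈ S, ‖b x‖ ^ 2)) := by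
  have hK' : (1 : ℝ) ≤ K := by exact_mod_cast hK
  have hA0 : 0 < A := by linarith
  have hpos : ∀ x ∈ S, (0 : ℝ) < (x : ℝ) + t := by
    intro x hx
    have : (K : ℝ) ≤ x + t := by exact_mod_cast (hS x hx).1
    linarith
  have hΦc := blk_P_cont S t b hpos
  have hΦc1 : ∀ α, Continuous fun u => blkP S t b α u := by
    intro α
    have h1 : Continuous fun u : ℝ => ((α, u) : ℝ × ℝ) := by fun_prop
    exact hΦc.comp h1
  have hN : Continuous fun p : ℝ × ℝ => ‖blkP S t b p.1 p.2‖ ^ 2 := hΦc.norm.pow 2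
  have hN1 : Continuous fun α => ∫ u in (0 : ℝ)..1, ‖blkP S t b α u‖ ^ 2 :=
    intervalIntegral.continuous_parametric_intervalIntegral_of_continuous'
      (f := fun α u => ‖blkP S t b α u‖ ^ 2) hN 0 1
  have hN2 : Continuous fun u => ∫ α in (-A)..A, ‖blkP S t b α u‖ ^ 2 :=
    intervalIntegral.continuous_parametric_intervalIntegral_of_continuous'
      (f := fun u α => ‖blkP S t b α u‖ ^ 2) (hN.comp continuous_swap) (-A) A
  have hLc : Continuous fun α => ∫ u in (0 : ℝ)..1, blkP S t b α u :=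
    intervalIntegral.continuous_parametric_intervalIntegral_of_continuous'
      (f := fun α u => blkP S t b α u) hΦc 0 1
  have hptc : Continuous pt := by unfold pt; fun_prop
  have step1 : ∫ α in (-A)..A, ‖∑ x ∈ S, b x * (((x + t + 1 : ℕ) : ℂ) ^ (-(pt α)) -
      ((x + t : ℕ) : ℂ) ^ (-(pt α)))‖ ^ 2 ≤
        ∫ α in (-A)..A, (2 * A ^ 2) * ∫ u in (0 : ℝ)..1, ‖blkP S t b α u‖ ^ 2 := by
    simp only [blk_P_eq S t b hpos]
    refine intervalIntegral.integral_mono_on (by linarith) ?_ ?_ ?_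
    · exact ((hptc.neg.mul hLc).norm.pow 2).intervalIntegrable _ _
    · exact (continuous_const.mul hN1).intervalIntegrable _ _
    · intro α hα
      rw [norm_mul, mul_pow, norm_neg]
      have h1 := blk_pt_norm hA (abs_le.mpr hα)
      exact mul_le_mul h1 (blk_cs (hΦc1 α)) (by positivity) (by positivity)
  have step2 := blk_swap (N := fun α u => ‖blkP S t b α u‖ ^ 2) hN A
  have step3 : ∫ u in (0 : ℝ)..1, ∫ α in (-A)..A, ‖blkP S t b α u‖ ^ 2 ≤
      ∫ _u in (0 : ℝ)..1, C * (A + 4 * K) * (((K : ℝ) ^ 3)⁻¹ * ∑ x ∈ S, ‖b x‖ ^ 2) := by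
    refine intervalIntegral.integral_mono_on zero_le_one (hN2.intervalIntegrable _ _)
      (continuous_const.intervalIntegrable _ _) ?_
    intro u hu
    exact blk_slice hC0 hC S K t hK hS b A hA u hu.1 hu.2
  rw [intervalIntegral.integral_const, sub_zero, one_smul] at step3
  rw [intervalIntegral.integral_const_mul, step2] at step1
  exact step1.trans (mul_le_mul_of_nonneg_left step3 (by positivity))

lemma blk_abel (a φ : ℕ → ℂ) (x H : ℕ) :
    ∑ n ∈ Finset.Ioc x (x + H), a n * φ n = (∑ n ∈ Finset.Ioc x (x + H), a n) * φ (x + H) -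
      ∑ t ∈ Finset.range H, (∑ n ∈ Finset.Ioc x (x + t), a n) * (φ (x + t + 1) - φ (x + t)) := by
  induction H with
  | zero => simp
  | succ H ih =>
    have e : Finset.Ioc x (x + (H + 1)) = insert (x + H + 1) (Finset.Ioc x (x + H)) := by
      ext n
      simp only [Finset.mem_Ioc, Finset.mem_insert]
      omega
    have hn : x + H + 1 ∉ Finset.Ioc x (x + H) := by simp
    rw [e, Finset.sum_insert hn, Finset.sum_insert hn, Finset.sum_range_succ, ih]
    rw [show x + (H + 1) = x + H + 1 by ring]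
    ring

lemma blk_arith {C A B K H J : ℝ} (hC : 0 < C) (hA : 2 ≤ A) (hK : 0 < K) (hH : 1 ≤ H)
    (hB : 0 ≤ B) (h1 : K ≤ H * A) (h2 : H * A ≤ 2 * K)
    (hJ : H ^ 2 * J ≤ 2 * (C * (A + 4 * K) * (K⁻¹ * B)) +
      2 * H * (H * (2 * A ^ 2 * (C * (A + 4 * K) * ((K ^ 3)⁻¹ * B))))) :
    J ≤ 90 * C * (A / (K * H)) * B := by
  have hH0 : 0 < H := by linarith
  have hA0 : 0 < A := by linarith
  have e1 : A + 4 * K ≤ 5 * (H * A) := by nlinarith
  have e2 : (H * A) ^ 2 ≤ 4 * K ^ 2 := by nlinarith [mul_pos hH0 hA0]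
  have e3 : H ^ 2 * J ≤ H ^ 2 * (90 * C * (A / (K * H)) * B) := by
    refine hJ.trans ?_
    have e4 : 2 * (C * (A + 4 * K) * (K⁻¹ * B)) ≤ 2 * (C * (5 * (H * A)) * (K⁻¹ * B)) := by
      gcongr
    have e5 : 2 * H * (H * (2 * A ^ 2 * (C * (A + 4 * K) * ((K ^ 3)⁻¹ * B)))) ≤
        2 * H * (H * (2 * A ^ 2 * (C * (5 * (H * A)) * ((K ^ 3)⁻¹ * B)))) := by
      gcongr
    have e6 : 2 * H * (H * (2 * A ^ 2 * (C * (5 * (H * A)) * ((K ^ 3)⁻¹ * B)))) =
        (20 * C * (H * A) * ((K ^ 3)⁻¹ * B)) * (H * A) ^ 2 := by ring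
    have e7 : (20 * C * (H * A) * ((K ^ 3)⁻¹ * B)) * (H * A) ^ 2 ≤
        (20 * C * (H * A) * ((K ^ 3)⁻¹ * B)) * (4 * K ^ 2) := by
      gcongr
    have e8 : (20 * C * (H * A) * ((K ^ 3)⁻¹ * B)) * (4 * K ^ 2) =
        80 * C * (H * A) * (K⁻¹ * B) := by
      field_simp
      ring
    have e9 : H ^ 2 * (90 * C * (A / (K * H)) * B) = 90 * C * (H * A) * (K⁻¹ * B) := by
      field_simp
    rw [e9]
    linarith
  exact le_of_mul_le_mul_left e3 (by positivity)

set_option maxHeartbeats 4000000 in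
theorem t_BLK (h : S_MVG) : S_BLK := by
  obtain ⟨C, hC0, hC⟩ := h
  refine ⟨90 * C, by positivity, ?_⟩
  intro a K H A B hA2 hAK hH hKH hH2 hB
  have hC' : BlkMV C := hC
  have hA0 : 0 < A := by linarith
  have hK' : (0 : ℝ) < K := by linarith
  have hK1 : 1 ≤ K := by
    have : (1 : ℝ) ≤ K := by linarith
    exact_mod_cast this
  have hH' : (1 : ℝ) ≤ H := by exact_mod_cast hH
  have hKHA : (K : ℝ) ≤ H * A := by rwa [div_le_iff₀ hA0] at hKH
  have hHA : (H : ℝ) * A ≤ 2 * K := by rwa [le_div_iff₀ hA0] at hH2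
  have hHK : (H : ℝ) ≤ K := by nlinarith
  have hHKn : H ≤ K := by exact_mod_cast hHK
  have hB0 : 0 ≤ B := le_trans (Finset.sum_nonneg fun _ _ => by positivity) (hB 0 (Nat.zero_le _))
  set a' : ℕ → ℂ := fun n => if n ∈ Finset.Ioc K (2 * K) then a n else 0 with ha'
  set b : ℕ → ℕ → ℂ := fun t x => ∑ n ∈ Finset.Ioc x (x + t), a' n with hb
  have hbe : ∀ t x, b t x = ∑ n ∈ (Finset.Ioc x (x + t)) ∩ (Finset.Ioc K (2 * K)), a n := by
    intro t x
    simp only [hb, ha']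
    rw [Finset.sum_ite_mem]
  set S : ℕ → Finset ℕ := fun t => (Finset.range (2 * K + 1)).filter (fun x => b t x ≠ 0) with hS
  have hSm : ∀ t x, x ∈ S t → K < x + t ∧ x < 2 * K := by
    intro t x hx
    simp only [hS, Finset.mem_filter, Finset.mem_range] at hx
    by_contra hcon
    apply hx.2
    rw [hbe]
    have : (Finset.Ioc x (x + t)) ∩ (Finset.Ioc K (2 * K)) = ∅ := by
      ext n
      simp only [Finset.mem_inter, Finset.mem_Ioc, Finset.notMem_empty, iff_false]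
      omega
    rw [this, Finset.sum_empty]
  have hSB : ∀ t ≤ H, ∑ x ∈ S t, ‖b t x‖ ^ 2 ≤ B := by
    intro t ht
    refine le_trans ?_ (hB t ht)
    refine le_trans (Finset.sum_le_sum_of_subset_of_nonneg (Finset.filter_subset _ _)
      fun _ _ _ => by positivity) ?_
    exact le_of_eq (Finset.sum_congr rfl fun x _ => by rw [hbe])
  have hSs : ∀ (t : ℕ) (ψ : ℕ → ℂ), ∑ x ∈ Finset.range (2 * K + 1), b t x * ψ x =
      ∑ x ∈ S t, b t x * ψ x := by
    intro t ψ
    simp only [hS]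
    rw [Finset.sum_filter_of_ne]
    intro x _ hx
    exact left_ne_zero_of_mul hx
  set D : ℝ → ℂ := fun α => ∑ n ∈ Finset.Ioc K (2 * K), a n * (n : ℂ) ^ (-(pt α)) with hD
  set EH : ℝ → ℂ := fun α => ∑ x ∈ S H, b H x * ((x + H : ℕ) : ℂ) ^ (-(pt α)) with hEH
  set E : ℕ → ℝ → ℂ := fun t α => ∑ x ∈ S t, b t x * (((x + t + 1 : ℕ) : ℂ) ^ (-(pt α)) -
      ((x + t : ℕ) : ℂ) ^ (-(pt α))) with hE
  have key : ∀ α, (H : ℂ) * D α = EH α - ∑ t ∈ Finset.range H, E t α := by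
    intro α
    have h1 : (H : ℂ) * D α = ∑ x ∈ Finset.range (2 * K + 1), ∑ n ∈ Finset.Ioc x (x + H),
        a' n * (n : ℂ) ^ (-(pt α)) := by
      have e1 : ∀ x, ∑ n ∈ Finset.Ioc x (x + H), a' n * (n : ℂ) ^ (-(pt α)) =
          ∑ n ∈ (Finset.Ioc x (x + H)) ∩ (Finset.Ioc K (2 * K)), a n * (n : ℂ) ^ (-(pt α)) := by
        intro x
        rw [← Finset.sum_ite_mem]
        refine Finset.sum_congr rfl fun n _ => ?_
        simp only [ha']
        split_ifs <;> simp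
      simp only [e1]
      rw [Finset.sum_comm' (s' := fun n => Finset.Ico (n - H) n) (t' := Finset.Ioc K (2 * K))]
      · rw [hD, Finset.mul_sum]
        refine Finset.sum_congr rfl fun n hn => ?_
        rw [Finset.sum_const, Nat.card_Ico, nsmul_eq_mul]
        congr 2
        rw [Finset.mem_Ioc] at hn
        omega
      · intro x n
        simp only [Finset.mem_range, Finset.mem_inter, Finset.mem_Ioc, Finset.mem_Ico]
        omega
    rw [h1]
    have h2 : ∀ x, ∑ n ∈ Finset.Ioc x (x + H), a' n * (n : ℂ) ^ (-(pt α)) =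
        b H x * ((x + H : ℕ) : ℂ) ^ (-(pt α)) - ∑ t ∈ Finset.range H, b t x *
          (((x + t + 1 : ℕ) : ℂ) ^ (-(pt α)) - ((x + t : ℕ) : ℂ) ^ (-(pt α))) := fun x =>
      blk_abel a' (fun n => (n : ℂ) ^ (-(pt α))) x H
    simp only [h2]
    rw [Finset.sum_sub_distrib, Finset.sum_comm, hSs]
    congr 1
    refine Finset.sum_congr rfl fun t _ => ?_
    rw [hSs]
  have hptc : Continuous pt := by unfold pt; fun_prop
  have hpowc : ∀ n : ℕ, n ≠ 0 → Continuous fun α => (n : ℂ) ^ (-(pt α)) := by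
    intro n hn
    exact hptc.neg.const_cpow (Or.inl (by exact_mod_cast hn))
  have hEHc : Continuous EH := by
    refine continuous_finsetSum _ fun x _ => continuous_const.mul (hpowc _ (by omega))
  have hEc : ∀ t, Continuous (E t) := by
    intro t
    refine continuous_finsetSum _ fun x hx => continuous_const.mul
      ((hpowc _ (by omega)).sub (hpowc _ ?_))
    have := (hSm t x hx).1
    omega
  have hDc : Continuous D := by
    refine continuous_finsetSum _ fun n hn => continuous_const.mul (hpowc _ ?_)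
    have := (Finset.mem_Ioc.mp hn).1
    omega
  -- the two bounds
  have hI1 : ∫ α in (-A)..A, ‖EH α‖ ^ 2 ≤ C * (A + 4 * K) * ((K : ℝ)⁻¹ * B) := by
    have h1 := blk_W hC0 hC' (S H) K hK1 H ?_ (fun x => ((x : ℝ) + H) ^ (-(1 / 2 : ℝ)))
      ((K : ℝ)⁻¹) ?_ (b H) A hA0
    · refine le_trans (le_of_eq ?_) (h1.trans ?_)
      · refine intervalIntegral.integral_congr fun α _ => ?_
        simp only [hEH]
        congr 2
        refine Finset.sum_congr rfl fun x hx => ?_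
        have h3 : (0 : ℝ) < (x : ℝ) + H := by positivity
        rw [mul_assoc, ← blk_cpow _ h3]
        congr 2
        · push_cast; ring
        · simp only [pt]
          push_cast
          ring
      · exact mul_le_mul_of_nonneg_left (mul_le_mul_of_nonneg_left (hSB H le_rfl)
          (by positivity)) (by positivity)
    · intro x hx
      obtain ⟨h3, h4⟩ := hSm H x hx
      have h3' : (K : ℝ) ≤ x + H := by exact_mod_cast h3.le
      have h4' : (x : ℝ) ≤ 2 * K := by exact_mod_cast h4.le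
      constructor <;> linarith
    · intro x hx
      obtain ⟨h3, h4⟩ := hSm H x hx
      have h3' : (K : ℝ) ≤ x + H := by exact_mod_cast h3.le
      have h5 : (0 : ℝ) < x + H := by linarith
      rw [← Real.rpow_natCast, ← Real.rpow_mul h5.le]
      rw [show (-(1 / 2 : ℝ)) * ((2 : ℕ) : ℝ) = -1 by norm_num, Real.rpow_neg_one]
      gcongr
  have hI2 : ∀ t ∈ Finset.range H, ∫ α in (-A)..A, ‖E t α‖ ^ 2 ≤
      2 * A ^ 2 * (C * (A + 4 * K) * (((K : ℝ) ^ 3)⁻¹ * B)) := by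
    intro t ht
    rw [Finset.mem_range] at ht
    refine (blk_E hC0 hC' (S t) K t hK1 ?_ (b t) A (by linarith)).trans ?_
    · intro x hx
      obtain ⟨h3, h4⟩ := hSm t x hx
      omega
    · have := hSB t ht.le
      gcongr
  have hint : ∫ α in (-A)..A, ‖(H : ℂ) * D α‖ ^ 2 ≤ 2 * (C * (A + 4 * K) * ((K : ℝ)⁻¹ * B)) +
      2 * H * (H * (2 * A ^ 2 * (C * (A + 4 * K) * (((K : ℝ) ^ 3)⁻¹ * B)))) := by
    calc ∫ α in (-A)..A, ‖(H : ℂ) * D α‖ ^ 2
        ≤ ∫ α in (-A)..A, (2 * ‖EH α‖ ^ 2 + 2 * H * ∑ t ∈ Finset.range H, ‖E t α‖ ^ 2) := by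
          refine intervalIntegral.integral_mono_on (by linarith) ?_ ?_ ?_
          · exact ((continuous_const.mul hDc).norm.pow 2).intervalIntegrable _ _
          · refine Continuous.intervalIntegrable ?_ _ _
            refine (continuous_const.mul (hEHc.norm.pow 2)).add (continuous_const.mul ?_)
            exact continuous_finsetSum _ fun t _ => (hEc t).norm.pow 2
          · intro α _
            rw [key α]
            have e1 : ‖EH α - ∑ t ∈ Finset.range H, E t α‖ ≤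
                ‖EH α‖ + ∑ t ∈ Finset.range H, ‖E t α‖ :=
              (norm_sub_le _ _).trans (add_le_add le_rfl (norm_sum_le _ _))
            have e2 : (∑ t ∈ Finset.range H, ‖E t α‖) ^ 2 ≤
                H * ∑ t ∈ Finset.range H, ‖E t α‖ ^ 2 := by
              have := sq_sum_le_card_mul_sum_sq (s := Finset.range H) (f := fun t => ‖E t α‖)
              rwa [Finset.card_range] at this
            have e3 : ‖EH α - ∑ t ∈ Finset.range H, E t α‖ ^ 2 ≤
                (‖EH α‖ + ∑ t ∈ Finset.range H, ‖E t α‖) ^ 2 := by gcongr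
            nlinarith [sq_nonneg (‖EH α‖ - ∑ t ∈ Finset.range H, ‖E t α‖)]
      _ = 2 * (∫ α in (-A)..A, ‖EH α‖ ^ 2) +
          2 * H * ∑ t ∈ Finset.range H, ∫ α in (-A)..A, ‖E t α‖ ^ 2 := by
          rw [intervalIntegral.integral_add, intervalIntegral.integral_const_mul,
            intervalIntegral.integral_const_mul, intervalIntegral.integral_finsetSum]
          · intro t _
            exact ((hEc t).norm.pow 2).intervalIntegrable _ _
          · exact (continuous_const.mul (hEHc.norm.pow 2)).intervalIntegrable _ _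
          · exact (continuous_const.mul
              (continuous_finsetSum _ fun t _ => (hEc t).norm.pow 2)).intervalIntegrable _ _
      _ ≤ _ := by
          have e4 : ∑ t ∈ Finset.range H, ∫ α in (-A)..A, ‖E t α‖ ^ 2 ≤
              H * (2 * A ^ 2 * (C * (A + 4 * K) * (((K : ℝ) ^ 3)⁻¹ * B))) := by
            refine (Finset.sum_le_sum hI2).trans ?_
            rw [Finset.sum_const, Finset.card_range, nsmul_eq_mul]
          gcongr
  have hfin : ∫ α in (-A)..A, ‖(H : ℂ) * D α‖ ^ 2 = (H : ℝ) ^ 2 * ∫ α in (-A)..A, ‖D α‖ ^ 2 := by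
    rw [← intervalIntegral.integral_const_mul]
    refine intervalIntegral.integral_congr fun α _ => ?_
    simp only [norm_mul, mul_pow, Complex.norm_natCast]
  rw [hfin] at hint
  exact blk_arith hC0 hA2 hK' hH' hB0 hKHA hHA hint

end

end Pool.Agent.N879.QM
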