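import Pool.Agent.N879.QM.Stm

set_option autoImplicit false

/-!
Project QM, part DIAG: the product of short Dirichlet polynomials.
-/

namespace Pool.Agent.N879.QM

open Complex Filter Topology MeasureTheory Set
open scoped BigOperators

namespace DiagA

theorem vl_prod (s : ℤ) (q : ℕ) {k : ℕ} (n : Fin k → ℕ) :
    ∏ j, vl s q (n j) = vl s q (∏ j, n j) := by
  unfold vl
  rw [Nat.cast_prod, map_prod]

theorem expand (s : ℤ) (q N : ℕ) {k : ℕ} (β : Fin k → ℝ) :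
    ∏ j, PN s q N (β j) = ∑ n ∈ tup k N, vl s q (∏ j, n j) * cx n β := by
  unfold PN tup cx
  rw [Finset.prod_univ_sum]
  refine Finset.sum_congr rfl fun n _ => ?_
  rw [Finset.prod_mul_distrib, vl_prod]

theorem norm_term {m : ℕ} (hm : 1 ≤ m) (a : ℝ) :
    ‖(m : ℂ) ^ (-(pt a))‖ = (m : ℝ) ^ (-(1 / 2) : ℝ) := by
  rw [Complex.norm_natCast_cpow_of_pos (by omega)]
  congr 1
  unfold pt
  simp

theorem norm_cx {k : ℕ} {n : Fin k → ℕ} (hn : ∀ j, 1 ≤ n j) (β : Fin k → ℝ) :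
    ‖cx n β‖ = ((∏ j, n j : ℕ) : ℝ) ^ (-(1 / 2) : ℝ) := by
  unfold cx
  rw [norm_prod, Nat.cast_prod, ← Real.finsetProd_rpow _ _ (fun i _ => Nat.cast_nonneg _)]
  exact Finset.prod_congr rfl fun j _ => norm_term (hn j) (β j)

theorem sqrt_mul {m : ℕ} (hm : 1 ≤ m) : √(m : ℝ) * (m : ℝ) ^ (-(1 / 2) : ℝ) = 1 := by
  have hm0 : (0 : ℝ) < m := by exact_mod_cast hm
  rw [Real.sqrt_eq_rpow, ← Real.rpow_add hm0]
  norm_num

end DiagA

open DiagA in
theorem t_DIAG (h : S_AVG) : S_DIAG := by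
  classical
  intro k
  obtain ⟨C, hC, hA⟩ := h
  refine ⟨C, hC, fun s X N β hs hX hN => ?_⟩
  have e1 : ∑ q ∈ Q s X, ∏ j, PN s q N (β j) =
      ∑ n ∈ tup k N, (∑ q ∈ Q s X, vl s q (∏ j, n j)) * cx n β := by
    simp only [expand]
    rw [Finset.sum_comm]
    exact Finset.sum_congr rfl fun n _ => (Finset.sum_mul ..).symm
  have e2 : ((c0 * X : ℝ) : ℂ) * SN k N β = ∑ n ∈ tup k N,
      (if IsSquare (∏ j, n j) then ((c0 * X * af (∏ j, n j) : ℝ) : ℂ) else 0) * cx n β := by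
    unfold SN
    rw [Finset.mul_sum]
    refine Finset.sum_congr rfl fun n _ => ?_
    by_cases hsq : IsSquare (∏ j, n j)
    · rw [if_pos hsq, if_pos hsq]
      push_cast
      ring
    · rw [if_neg hsq, if_neg hsq, mul_zero, zero_mul]
  rw [e1, e2, ← Finset.sum_sub_distrib]
  have hcard : (tup k N).card = N ^ k := by
    unfold tup
    rw [Fintype.card_piFinset]
    simp
  have hbound : ∀ n ∈ tup k N, ‖(∑ q ∈ Q s X, vl s q (∏ j, n j)) * cx n β -
      (if IsSquare (∏ j, n j) then ((c0 * X * af (∏ j, n j) : ℝ) : ℂ) else 0) * cx n β‖ ≤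
      C * √X := by
    intro n hn
    have hn1 : ∀ j, 1 ≤ n j := fun j =>
      (Finset.mem_Icc.1 ((Fintype.mem_piFinset.1 hn) j)).1
    have hp : 1 ≤ ∏ j, n j := Nat.one_le_iff_ne_zero.2
      (Finset.prod_ne_zero_iff.2 fun j _ => by have := hn1 j; omega)
    rw [← sub_mul, norm_mul, norm_cx hn1]
    obtain ⟨h1, h2⟩ := hA s X (∏ j, n j) hs hX hp
    have h3 : ‖(∑ q ∈ Q s X, vl s q (∏ j, n j)) -
        (if IsSquare (∏ j, n j) then ((c0 * X * af (∏ j, n j) : ℝ) : ℂ) else 0)‖ ≤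
        C * √X * √((∏ j, n j : ℕ) : ℝ) := by
      by_cases hsq : IsSquare (∏ j, n j)
      · rw [if_pos hsq]; exact h1 hsq
      · rw [if_neg hsq, sub_zero]; exact h2 hsq
    calc _ ≤ (C * √X * √((∏ j, n j : ℕ) : ℝ)) * ((∏ j, n j : ℕ) : ℝ) ^ (-(1 / 2) : ℝ) :=
          mul_le_mul_of_nonneg_right h3 (Real.rpow_nonneg (Nat.cast_nonneg _) _)
      _ = C * √X := by rw [mul_assoc, sqrt_mul hp, mul_one]
  calc _ ≤ ∑ n ∈ tup k N, C * √X := (norm_sum_le _ _).trans (Finset.sum_le_sum hbound)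
    _ = C * √X * (N : ℝ) ^ k := by
      rw [Finset.sum_const, hcard, nsmul_eq_mul]
      push_cast
      ring

end Pool.Agent.N879.QM
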