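import Pool.Agent.N879.QM.Stm

set_option autoImplicit false

/-!
Project QM (helper879), part EUL (helper771): the Dirichlet series and the Euler product of `A_k`.
-/

namespace Pool.Agent.N879.QM

open Complex Filter Topology
open scoped BigOperators

noncomputable section

namespace Eul

/-! ### Arithmetic functions -/

theorem antidiag_succ {k : ℕ} (g : Fin (k + 1) → ℕ → ℂ) (n : ℕ) :
    ∑ f ∈ Nat.finMulAntidiag (k + 1) n, ∏ j, g j (f j) =
      ∑ p ∈ n.divisorsAntidiagonal,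
        g 0 p.1 * ∑ f ∈ Nat.finMulAntidiag k p.2, ∏ j, g j.succ (f j) := by
  simp_rw [Finset.mul_sum]
  rw [Finset.sum_sigma']
  refine Finset.sum_bij' (fun f _ => ⟨(f 0, ∏ j : Fin k, f (Fin.succ j)), fun j => f j.succ⟩)
    (fun q _ => Fin.cons q.1.1 q.2) ?_ ?_ ?_ ?_ ?_
  · intro f hf
    rw [Nat.mem_finMulAntidiag, Fin.prod_univ_succ] at hf
    simp only [Finset.mem_sigma, Nat.mem_divisorsAntidiagonal, Nat.mem_finMulAntidiag, true_and]
    refine ⟨hf, ?_⟩
    intro h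
    rw [h, mul_zero] at hf
    exact hf.2 hf.1.symm
  · rintro ⟨⟨a, b⟩, f⟩ hf
    simp only [Finset.mem_sigma, Nat.mem_divisorsAntidiagonal, Nat.mem_finMulAntidiag] at hf ⊢
    rw [Fin.prod_univ_succ]
    simp only [Fin.cons_zero, Fin.cons_succ]
    rw [hf.2.1]
    exact hf.1
  · intro f hf
    simp only
    exact Fin.cons_self_tail f
  · rintro ⟨⟨a, b⟩, f⟩ hf
    simp only [Finset.mem_sigma, Nat.mem_divisorsAntidiagonal, Nat.mem_finMulAntidiag] at hf
    simp only [Fin.cons_zero, Fin.cons_succ, hf.2.1]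
  · intro f hf
    simp only
    rw [Fin.prod_univ_succ]

/-- `n ^ s` as an arithmetic function -/
def pw (s : ℂ) : ArithmeticFunction ℂ := ⟨fun n => if n = 0 then 0 else (n : ℂ) ^ s, by simp⟩

theorem pw_apply {n : ℕ} (s : ℂ) (hn : n ≠ 0) : pw s n = (n : ℂ) ^ s := by
  unfold pw
  simp [hn]

theorem pw_mult (s : ℂ) : (pw s).IsMultiplicative := by
  rw [ArithmeticFunction.IsMultiplicative.iff_ne_zero]
  refine ⟨by rw [pw_apply s one_ne_zero]; simp, fun {m n} hm hn _ => ?_⟩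
  rw [pw_apply s (mul_ne_zero hm hn), pw_apply s hm, pw_apply s hn, Nat.cast_mul,
    Complex.natCast_mul_natCast_cpow]

/-- `∑_{n_1 ⋯ n_k = n} ∏ n_j ^ {s_j}` as an arithmetic function -/
def T {k : ℕ} (s : Fin k → ℂ) : ArithmeticFunction ℂ :=
  ⟨fun n => ∑ f ∈ Nat.finMulAntidiag k n, ∏ j, (f j : ℂ) ^ (s j), by simp⟩

theorem T_apply {k : ℕ} (s : Fin k → ℂ) (n : ℕ) :
    T s n = ∑ f ∈ Nat.finMulAntidiag k n, ∏ j, (f j : ℂ) ^ (s j) := rfl

theorem T_nil (s : Fin 0 → ℂ) : T s = 1 := by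
  ext n
  rw [T_apply, ArithmeticFunction.one_apply]
  split_ifs with h
  · subst h
    rw [Nat.finMulAntidiag_one]
    simp
  · rw [Nat.finMulAntidiag_zero_left h]
    simp

theorem T_succ {k : ℕ} (s : Fin (k + 1) → ℂ) : T s = pw (s 0) * T (fun j => s j.succ) := by
  ext n
  rw [T_apply, antidiag_succ (fun j n => (n : ℂ) ^ (s j)) n, ArithmeticFunction.mul_apply]
  refine Finset.sum_congr rfl fun p hp => ?_
  have h := Nat.mem_divisorsAntidiagonal.1 hp
  have h1 : p.1 ≠ 0 := by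
    rintro h0
    rw [h0, zero_mul] at h
    exact h.2 h.1.symm
  rw [pw_apply _ h1, T_apply]

theorem T_mult : ∀ {k : ℕ} (s : Fin k → ℂ), (T s).IsMultiplicative
  | 0, s => by
      rw [T_nil]
      exact ArithmeticFunction.isMultiplicative_one
  | k + 1, s => by
      rw [T_succ]
      exact (pw_mult _).mul (T_mult _)

/-- the exponents -/
def sx {k : ℕ} (β : Fin k → ℝ) (j : Fin k) : ℂ := -(pt (β j))

theorem gA_apply {k : ℕ} (β : Fin k → ℝ) {m : ℕ} (hm : m ≠ 0) :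
    gA β m = (af m : ℂ) * T (sx β) (m ^ 2) := by
  show (if m = 0 then 0 else (af m : ℂ) * ∑ n ∈ Nat.finMulAntidiag k (m ^ 2), cx n β) = _
  rw [if_neg hm]
  rfl

theorem af_mul {m n : ℕ} (h : m.Coprime n) : af (m * n) = af m * af n := by
  unfold af
  rw [h.primeFactors_mul, Finset.prod_union h.disjoint_primeFactors]

theorem gA_mult {k : ℕ} (β : Fin k → ℝ) : (gA β).IsMultiplicative := by
  rw [ArithmeticFunction.IsMultiplicative.iff_ne_zero]
  refine ⟨?_, fun {m n} hm hn hmn => ?_⟩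
  · rw [gA_apply β one_ne_zero, one_pow, (T_mult _).map_one]
    simp [af]
  · rw [gA_apply β (mul_ne_zero hm hn), gA_apply β hm, gA_apply β hn, af_mul hmn, mul_pow,
      (T_mult _).map_mul_of_coprime (Nat.Coprime.pow 2 2 hmn)]
    push_cast
    ring

theorem muA_apply (s : ℂ) (m : ℕ) :
    muA s m = ((ArithmeticFunction.moebius m : ℤ) : ℂ) * (m : ℂ) ^ (-s) := rfl

theorem muA_mult (s : ℂ) : (muA s).IsMultiplicative := by
  rw [ArithmeticFunction.IsMultiplicative.iff_ne_zero]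
  refine ⟨by rw [muA_apply]; simp, fun {m n} hm hn h => ?_⟩
  rw [muA_apply, muA_apply, muA_apply,
    ArithmeticFunction.isMultiplicative_moebius.map_mul_of_coprime h, Nat.cast_mul,
    Complex.natCast_mul_natCast_cpow]
  push_cast
  ring

theorem al_mult {k : ℕ} (β : Fin k → ℝ) : (al β).IsMultiplicative := by
  unfold al
  refine (gA_mult β).mul ?_
  exact Finset.prod_induction _ (fun f : ArithmeticFunction ℂ => f.IsMultiplicative)
    (fun a b ha hb => ha.mul hb) ArithmeticFunction.isMultiplicative_one fun r _ => muA_mult _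

/-! ### Bell series -/

/-- the Bell series at `p` -/
def bell (p : ℕ) (f : ArithmeticFunction ℂ) : PowerSeries ℂ := PowerSeries.mk fun v => f (p ^ v)

theorem bell_one {p : ℕ} (hp : p.Prime) : bell p 1 = 1 := by
  ext v
  unfold bell
  rw [PowerSeries.coeff_mk, ArithmeticFunction.one_apply, PowerSeries.coeff_one]
  have : p ^ v = 1 ↔ v = 0 := by
    constructor
    · intro h
      by_contra h0
      exact absurd h (Nat.one_lt_pow h0 hp.one_lt).ne'
    · rintro rfl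
      simp
  simp only [this]

theorem bell_mul {p : ℕ} (hp : p.Prime) (f g : ArithmeticFunction ℂ) :
    bell p (f * g) = bell p f * bell p g := by
  ext v
  unfold bell
  rw [PowerSeries.coeff_mk, PowerSeries.coeff_mul, ArithmeticFunction.mul_apply]
  simp only [PowerSeries.coeff_mk]
  rw [Nat.sum_divisorsAntidiagonal (fun a b => f a * g b), Nat.sum_divisors_prime_pow hp,
    Finset.Nat.sum_antidiagonal_eq_sum_range_succ (fun a b => f (p ^ a) * g (p ^ b))]
  refine Finset.sum_congr rfl fun x hx => ?_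
  have : x ≤ v := by
    have := Finset.mem_range.1 hx
    omega
  rw [Nat.pow_div this hp.pos]

theorem bell_prod {p : ℕ} (hp : p.Prime) {ι : Type} (s : Finset ι)
    (f : ι → ArithmeticFunction ℂ) : bell p (∏ i ∈ s, f i) = ∏ i ∈ s, bell p (f i) := by
  classical
  induction s using Finset.induction_on with
  | empty => simpa using bell_one hp
  | insert i s hi ih => rw [Finset.prod_insert hi, Finset.prod_insert hi, bell_mul hp, ih]

/-- geometric series -/
def gs (x : ℂ) : PowerSeries ℂ := PowerSeries.mk fun v => x ^ v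

theorem pw_pow (p v : ℕ) (s : ℂ) : ((p ^ v : ℕ) : ℂ) ^ s = ((p : ℂ) ^ s) ^ v := by
  induction v with
  | zero => simp
  | succ v ih => rw [pow_succ, pow_succ, Nat.cast_mul, Complex.natCast_mul_natCast_cpow, ih]

theorem bell_pw {p : ℕ} (hp : p.Prime) (s : ℂ) : bell p (pw s) = gs ((p : ℂ) ^ s) := by
  ext v
  unfold bell gs
  rw [PowerSeries.coeff_mk, PowerSeries.coeff_mk, pw_apply _ (pow_ne_zero v hp.ne_zero), pw_pow]

theorem bell_T {p : ℕ} (hp : p.Prime) : ∀ {k : ℕ} (s : Fin k → ℂ),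
    bell p (T s) = ∏ j, gs ((p : ℂ) ^ (s j))
  | 0, s => by
      rw [T_nil, bell_one hp]
      simp
  | k + 1, s => by
      rw [T_succ, bell_mul hp, bell_pw hp, bell_T hp, Fin.prod_univ_succ]

/-- `1 - y X` -/
def li (y : ℂ) : PowerSeries ℂ := 1 - PowerSeries.C y * PowerSeries.X

theorem coeff_li (y : ℂ) (v : ℕ) : PowerSeries.coeff v (li y) =
    if v = 0 then 1 else if v = 1 then -y else 0 := by
  unfold li
  rw [map_sub, PowerSeries.coeff_one, PowerSeries.coeff_C_mul, PowerSeries.coeff_X]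
  rcases v with - | - | v
  · simp
  · simp
  · simp

theorem bell_mu {p : ℕ} (hp : p.Prime) (s : ℂ) : bell p (muA s) = li ((p : ℂ) ^ (-s)) := by
  ext v
  rw [coeff_li]
  unfold bell
  rw [PowerSeries.coeff_mk, muA_apply]
  rcases v with - | - | v
  · simp
  · simp [ArithmeticFunction.moebius_apply_prime hp]
  · rw [ArithmeticFunction.moebius_apply_prime_pow hp (by omega)]
    simp

/-- the coefficients `x_j = p^{-(1/2 + i β_j)}` -/
def xx {k : ℕ} (β : Fin k → ℝ) (p : ℕ) (j : Fin k) : ℂ := (p : ℂ) ^ (sx β j)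

/-- `p^{-(1 + i (β_i + β_j))}` -/
def yy {k : ℕ} (β : Fin k → ℝ) (p : ℕ) (r : Pr k) : ℂ := (p : ℂ) ^ (-(pp β r))

/-- the homogeneous series -/
def H {k : ℕ} (β : Fin k → ℝ) (p : ℕ) : PowerSeries ℂ := ∏ j, gs (xx β p j)

/-- the second factor -/
def Mu {k : ℕ} (β : Fin k → ℝ) (p : ℕ) : PowerSeries ℂ := ∏ r, li (yy β p r)

/-- the first factor -/
def G {k : ℕ} (β : Fin k → ℝ) (p : ℕ) : PowerSeries ℂ := bell p (gA β)

theorem bell_al {k : ℕ} (β : Fin k → ℝ) {p : ℕ} (hp : p.Prime) :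
    bell p (al β) = G β p * Mu β p := by
  unfold al G Mu
  rw [bell_mul hp, bell_prod hp]
  congr 1
  exact Finset.prod_congr rfl fun r _ => bell_mu hp _

theorem coeff_zero_gs (x : ℂ) : PowerSeries.coeff 0 (gs x) = 1 := by
  unfold gs
  simp

theorem coeff_zero_H {k : ℕ} (β : Fin k → ℝ) (p : ℕ) : PowerSeries.coeff 0 (H β p) = 1 := by
  unfold H
  rw [PowerSeries.coeff_zero_eq_constantCoeff_apply, map_prod]
  refine Finset.prod_eq_one fun j _ => ?_
  rw [← PowerSeries.coeff_zero_eq_constantCoeff_apply, coeff_zero_gs]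

theorem coeff_G {k : ℕ} (β : Fin k → ℝ) {p : ℕ} (hp : p.Prime) (v : ℕ) :
    PowerSeries.coeff v (G β p) = ((p : ℂ) / (p + 1)) * PowerSeries.coeff (2 * v) (H β p) +
      (if v = 0 then 1 - (p : ℂ) / (p + 1) else 0) := by
  unfold G bell
  rw [PowerSeries.coeff_mk, gA_apply β (pow_ne_zero v hp.ne_zero)]
  have h1 : T (sx β) ((p ^ v) ^ 2) = PowerSeries.coeff (2 * v) (H β p) := by
    have h2 : PowerSeries.coeff (2 * v) (bell p (T (sx β))) = T (sx β) (p ^ (2 * v)) := by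
      unfold bell
      rw [PowerSeries.coeff_mk]
    rw [← pow_mul, mul_comm v 2, ← h2, bell_T hp]
    rfl
  rw [h1]
  rcases Nat.eq_zero_or_pos v with h | h
  · subst h
    rw [if_pos rfl, mul_zero, coeff_zero_H]
    simp [af]
  · rw [if_neg (by omega), add_zero]
    congr 1
    unfold af
    rw [Nat.primeFactors_prime_pow (by omega) hp]
    simp

/-! ### Sums of the coefficients -/

/-- absolute convergence at `1` -/
def Sm (F : PowerSeries ℂ) : Prop := Summable fun v => ‖PowerSeries.coeff v F‖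

/-- the value at `1` -/
def ev (F : PowerSeries ℂ) : ℂ := ∑' v, PowerSeries.coeff v F

theorem Sm.mul {F F' : PowerSeries ℂ} (h : Sm F) (h' : Sm F') :
    Sm (F * F') ∧ ev (F * F') = ev F * ev F' := by
  unfold Sm ev at *
  simp only [PowerSeries.coeff_mul]
  exact ⟨summable_norm_sum_mul_antidiagonal_of_summable_norm
      (f := fun v => PowerSeries.coeff v F) (g := fun v => PowerSeries.coeff v F') h h',
    (tsum_mul_tsum_eq_tsum_sum_antidiagonal_of_summable_norm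
      (f := fun v => PowerSeries.coeff v F) (g := fun v => PowerSeries.coeff v F') h h').symm⟩

theorem sm_one : Sm 1 ∧ ev 1 = 1 := by
  have h : ∀ v, v ∉ Finset.range 1 → PowerSeries.coeff v (1 : PowerSeries ℂ) = 0 := by
    intro v hv
    rw [PowerSeries.coeff_one, if_neg]
    intro h
    exact hv (by rw [h]; simp)
  refine ⟨summable_of_ne_finset_zero (s := Finset.range 1) fun v hv => ?_, ?_⟩
  · rw [h v hv, norm_zero]
  · unfold ev
    rw [tsum_eq_sum h]
    simp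

theorem sm_prod {ι : Type} (s : Finset ι) (F : ι → PowerSeries ℂ) (h : ∀ i ∈ s, Sm (F i)) :
    Sm (∏ i ∈ s, F i) ∧ ev (∏ i ∈ s, F i) = ∏ i ∈ s, ev (F i) := by
  classical
  induction s using Finset.induction_on with
  | empty => simpa using sm_one
  | insert i s hi ih =>
    obtain ⟨h1, h2⟩ := ih fun j hj => h j (Finset.mem_insert_of_mem hj)
    rw [Finset.prod_insert hi, Finset.prod_insert hi]
    have h3 := (h i (Finset.mem_insert_self i s)).mul h1
    exact ⟨h3.1, by rw [h3.2, h2]⟩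

theorem sm_gs {x : ℂ} (hx : ‖x‖ < 1) : Sm (gs x) ∧ ev (gs x) = (1 - x)⁻¹ := by
  unfold Sm ev gs
  simp only [PowerSeries.coeff_mk, norm_pow]
  exact ⟨summable_geometric_of_lt_one (norm_nonneg _) hx, tsum_geometric_of_norm_lt_one hx⟩

theorem sm_li (y : ℂ) : Sm (li y) ∧ ev (li y) = 1 - y := by
  have h : ∀ v, v ∉ Finset.range 2 → PowerSeries.coeff v (li y) = 0 := by
    intro v hv
    rw [Finset.mem_range] at hv
    rw [coeff_li, if_neg (by omega), if_neg (by omega)]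
  refine ⟨summable_of_ne_finset_zero (s := Finset.range 2) fun v hv => ?_, ?_⟩
  · rw [h v hv, norm_zero]
  · unfold ev
    rw [tsum_eq_sum h, Finset.sum_range_succ, Finset.sum_range_one, coeff_li, coeff_li]
    simp [sub_eq_add_neg]

theorem gs_neg (x : ℂ) : gs (-x) = PowerSeries.rescale (-1 : ℂ) (gs x) := by
  unfold gs
  rw [PowerSeries.rescale_mk]
  congr 1
  funext v
  rw [← mul_pow]
  ring

theorem norm_xx {k : ℕ} (β : Fin k → ℝ) {p : ℕ} (hp : p.Prime) (j : Fin k) :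
    ‖xx β p j‖ = (p : ℝ) ^ (-(1 / 2) : ℝ) := by
  unfold xx
  rw [Complex.norm_natCast_cpow_of_pos hp.pos]
  congr 1
  unfold sx pt
  simp

theorem norm_yy {k : ℕ} (β : Fin k → ℝ) {p : ℕ} (hp : p.Prime) (r : Pr k) :
    ‖yy β p r‖ = (p : ℝ)⁻¹ := by
  unfold yy
  rw [Complex.norm_natCast_cpow_of_pos hp.pos, ← Real.rpow_neg_one]
  congr 1
  unfold pp
  simp

theorem yy_eq {k : ℕ} (β : Fin k → ℝ) {p : ℕ} (hp : p.Prime) (r : Pr k) :
    yy β p r = xx β p r.1.1 * xx β p r.1.2 := by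
  unfold yy xx
  rw [← Complex.cpow_add _ _ (by exact_mod_cast hp.ne_zero)]
  congr 1
  unfold pp sx pt
  ring

theorem rt_lt {p : ℕ} (hp : p.Prime) : (p : ℝ) ^ (-(1 / 2) : ℝ) < 1 :=
  Real.rpow_lt_one_of_one_lt_of_neg (by exact_mod_cast hp.one_lt) (by norm_num)

theorem sm_H {k : ℕ} (β : Fin k → ℝ) {p : ℕ} (hp : p.Prime) :
    Sm (H β p) ∧ ev (H β p) = ∏ j, (1 - xx β p j)⁻¹ := by
  have h := sm_prod Finset.univ (fun j => gs (xx β p j)) fun j _ =>
    (sm_gs (by rw [norm_xx β hp]; exact rt_lt hp)).1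
  refine ⟨h.1, h.2.trans ?_⟩
  exact Finset.prod_congr rfl fun j _ => (sm_gs (by rw [norm_xx β hp]; exact rt_lt hp)).2

theorem sm_Hneg {k : ℕ} (β : Fin k → ℝ) {p : ℕ} (hp : p.Prime) :
    ∑' v, (-1 : ℂ) ^ v * PowerSeries.coeff v (H β p) = ∏ j, (1 + xx β p j)⁻¹ := by
  have h := sm_prod Finset.univ (fun j => gs (-xx β p j)) fun j _ =>
    (sm_gs (by rw [norm_neg, norm_xx β hp]; exact rt_lt hp)).1
  have e : ∏ j, gs (-xx β p j) = PowerSeries.rescale (-1 : ℂ) (H β p) := by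
    unfold H
    rw [map_prod]
    exact Finset.prod_congr rfl fun j _ => gs_neg _
  have h2 := h.2
  rw [e] at h2
  unfold ev at h2
  simp only [PowerSeries.coeff_rescale] at h2
  rw [h2]
  refine Finset.prod_congr rfl fun j _ => ?_
  have := (sm_gs (x := -xx β p j) (by rw [norm_neg, norm_xx β hp]; exact rt_lt hp)).2
  unfold ev at this
  rw [this, sub_neg_eq_add]

theorem sum_even {k : ℕ} (β : Fin k → ℝ) {p : ℕ} (hp : p.Prime) :
    (Summable fun v => ‖PowerSeries.coeff (2 * v) (H β p)‖) ∧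
    ∑' v, PowerSeries.coeff (2 * v) (H β p) =
      1 / 2 * ((∏ j, (1 - xx β p j)⁻¹) + ∏ j, (1 + xx β p j)⁻¹) := by
  obtain ⟨h1, h2⟩ := sm_H β hp
  unfold Sm at h1
  unfold ev at h2
  have he : Summable fun v => ‖PowerSeries.coeff (2 * v) (H β p)‖ :=
    Summable.comp_injective (f := fun v => ‖PowerSeries.coeff v (H β p)‖) h1
      (i := fun v : ℕ => 2 * v) fun a b h => by
        simp only at h
        omega
  have ho : Summable fun v => ‖PowerSeries.coeff (2 * v + 1) (H β p)‖ :=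
    Summable.comp_injective (f := fun v => ‖PowerSeries.coeff v (H β p)‖) h1
      (i := fun v : ℕ => 2 * v + 1) fun a b h => by
        simp only at h
        omega
  refine ⟨he, ?_⟩
  have h3 := tsum_even_add_odd (f := fun v => PowerSeries.coeff v (H β p)) he.of_norm ho.of_norm
  have h4 : ∑' v, (-1 : ℂ) ^ (2 * v) * PowerSeries.coeff (2 * v) (H β p) +
      ∑' v, (-1 : ℂ) ^ (2 * v + 1) * PowerSeries.coeff (2 * v + 1) (H β p) =
      ∑' v, (-1 : ℂ) ^ v * PowerSeries.coeff v (H β p) := by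
    refine tsum_even_add_odd (f := fun v => (-1 : ℂ) ^ v * PowerSeries.coeff v (H β p)) ?_ ?_
    · refine Summable.of_norm (he.congr fun v => ?_)
      rw [norm_mul, norm_pow, norm_neg, norm_one, one_pow, one_mul]
    · refine Summable.of_norm (ho.congr fun v => ?_)
      rw [norm_mul, norm_pow, norm_neg, norm_one, one_pow, one_mul]
  have h5 : ∀ v : ℕ, (-1 : ℂ) ^ (2 * v) = 1 := fun v => by rw [pow_mul]; simp
  have h6 : ∀ v : ℕ, (-1 : ℂ) ^ (2 * v + 1) = -1 := fun v => by rw [pow_succ, h5]; simp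
  simp only [h5, h6, one_mul, neg_one_mul, tsum_neg] at h4
  rw [sm_Hneg β hp] at h4
  rw [h2] at h3
  rw [← h3, ← h4]
  ring

theorem sm_G {k : ℕ} (β : Fin k → ℝ) {p : ℕ} (hp : p.Prime) :
    Sm (G β p) ∧ ev (G β p) = (1 / 2 * ((∏ j, (1 - xx β p j)⁻¹) + ∏ j, (1 + xx β p j)⁻¹) +
      1 / (p : ℂ)) * (1 + 1 / (p : ℂ))⁻¹ := by
  obtain ⟨h1, h2⟩ := sum_even β hp
  have h0 : Summable fun v : ℕ => ‖(if v = 0 then 1 - (p : ℂ) / (p + 1) else 0 : ℂ)‖ := by
    refine summable_of_ne_finset_zero (s := Finset.range 1) fun v hv => ?_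
    rw [if_neg, norm_zero]
    intro h
    exact hv (by rw [h]; simp)
  have h3 : Summable fun v => ‖((p : ℂ) / (p + 1)) * PowerSeries.coeff (2 * v) (H β p)‖ := by
    simp only [norm_mul]
    exact h1.mul_left _
  unfold Sm ev
  simp only [coeff_G β hp]
  constructor
  · exact Summable.of_nonneg_of_le (fun _ => norm_nonneg _) (fun v => norm_add_le _ _) (h3.add h0)
  · rw [Summable.tsum_add h3.of_norm h0.of_norm, tsum_mul_left, h2, tsum_ite_eq]
    have hp0 : (p : ℂ) ≠ 0 := by exact_mod_cast hp.ne_zero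
    have hp1 : (p : ℂ) + 1 ≠ 0 := by exact_mod_cast Nat.succ_ne_zero p
    have e : (1 + 1 / (p : ℂ)) = (p + 1) / p := by field_simp
    rw [e, inv_div]
    field_simp
    ring

theorem sm_Mu {k : ℕ} (β : Fin k → ℝ) (p : ℕ) :
    Sm (Mu β p) ∧ ev (Mu β p) = ∏ r, (1 - yy β p r) := by
  have h := sm_prod Finset.univ (fun r => li (yy β p r)) fun r _ => (sm_li _).1
  refine ⟨h.1, h.2.trans ?_⟩
  exact Finset.prod_congr rfl fun r _ => (sm_li _).2

/-- the local identity -/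
theorem local_id {k : ℕ} (β : Fin k → ℝ) {p : ℕ} (hp : p.Prime) :
    ∑' v, al β (p ^ v) = loc (im β) p := by
  have h := (sm_G β hp).1.mul (sm_Mu β p).1
  have e : ev (bell p (al β)) = ∑' v, al β (p ^ v) := by
    unfold ev bell
    simp only [PowerSeries.coeff_mk]
  rw [← e, bell_al β hp, h.2, (sm_G β hp).2, (sm_Mu β p).2]
  unfold loc
  have e1 : ∀ r : Pr k, (p : ℂ) ^ (-(1 + im β r.1.1 + im β r.1.2)) = yy β p r := fun r => by
    unfold yy pp im
    congr 1
    ring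
  have e2 : ∀ j : Fin k, (p : ℂ) ^ (-(1 / 2 + im β j)) = xx β p j := fun j => rfl
  simp only [e1, e2]
  ring

/-! ### Bounds -/

theorem prod_gs_bd {ι : Type} (s : Finset ι) (x : ι → ℂ) {r : ℝ} (hr : 0 ≤ r)
    (hx : ∀ i ∈ s, ‖x i‖ ≤ r) (w : ℕ) :
    ‖PowerSeries.coeff w (∏ i ∈ s, gs (x i))‖ ≤ ((w : ℝ) + 1) ^ s.card * r ^ w := by
  classical
  induction s using Finset.induction_on generalizing w with
  | empty =>
    rw [Finset.prod_empty, PowerSeries.coeff_one]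
    split_ifs with h
    · rw [h]
      simp
    · rw [norm_zero]
      positivity
  | insert i s hi ih =>
    rw [Finset.prod_insert hi, PowerSeries.coeff_mul, Finset.card_insert_of_notMem hi]
    have h1 : ∀ q ∈ Finset.HasAntidiagonal.antidiagonal w, ‖PowerSeries.coeff q.1 (gs (x i)) *
        PowerSeries.coeff q.2 (∏ i ∈ s, gs (x i))‖ ≤ ((w : ℝ) + 1) ^ s.card * r ^ w := by
      intro q hq
      have hq' := Finset.HasAntidiagonal.mem_antidiagonal.1 hq
      have h2 := ih (fun j hj => hx j (Finset.mem_insert_of_mem hj)) q.2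
      have h3 : ‖PowerSeries.coeff q.1 (gs (x i))‖ ≤ r ^ q.1 := by
        unfold gs
        rw [PowerSeries.coeff_mk, norm_pow]
        exact pow_le_pow_left₀ (norm_nonneg _) (hx i (Finset.mem_insert_self i s)) _
      have h4 : (q.2 : ℝ) ≤ w := by
        have : q.2 ≤ w := by omega
        exact_mod_cast this
      rw [norm_mul]
      calc ‖PowerSeries.coeff q.1 (gs (x i))‖ *
            ‖PowerSeries.coeff q.2 (∏ i ∈ s, gs (x i))‖
          ≤ r ^ q.1 * (((q.2 : ℝ) + 1) ^ s.card * r ^ q.2) :=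
            mul_le_mul h3 h2 (norm_nonneg _) (by positivity)
        _ = ((q.2 : ℝ) + 1) ^ s.card * r ^ w := by
            rw [← hq', pow_add]
            ring
        _ ≤ ((w : ℝ) + 1) ^ s.card * r ^ w := by gcongr
    refine (norm_sum_le_of_le _ h1).trans (le_of_eq ?_)
    rw [Finset.sum_const, Finset.Nat.card_antidiagonal, nsmul_eq_mul]
    push_cast
    ring

theorem li_mul (y : ℂ) (F : PowerSeries ℂ) : li y * F = F - PowerSeries.C y * (PowerSeries.X * F) := by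
  unfold li
  ring

theorem prod_li_bd {ι : Type} (s : Finset ι) (y : ι → ℂ) {t : ℝ} (ht : 0 ≤ t)
    (hy : ∀ i ∈ s, ‖y i‖ ≤ t) (w : ℕ) :
    ‖PowerSeries.coeff w (∏ i ∈ s, li (y i))‖ ≤ 2 ^ s.card * t ^ w := by
  classical
  induction s using Finset.induction_on generalizing w with
  | empty =>
    rw [Finset.prod_empty, PowerSeries.coeff_one]
    split_ifs with h
    · rw [h]
      simp
    · rw [norm_zero]
      positivity
  | insert i s hi ih =>
    have ih' := ih fun j hj => hy j (Finset.mem_insert_of_mem hj)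
    rw [Finset.prod_insert hi, Finset.card_insert_of_notMem hi, li_mul, map_sub,
      PowerSeries.coeff_C_mul]
    cases w with
    | zero =>
      rw [PowerSeries.coeff_zero_X_mul, mul_zero, sub_zero]
      have := ih' 0
      rw [pow_zero, mul_one] at this ⊢
      refine this.trans ?_
      rw [pow_succ]
      have : (0 : ℝ) ≤ 2 ^ s.card := by positivity
      linarith
    | succ w =>
      rw [PowerSeries.coeff_succ_X_mul]
      refine (norm_sub_le _ _).trans ?_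
      rw [norm_mul]
      have h1 := ih' (w + 1)
      have h2 := mul_le_mul (hy i (Finset.mem_insert_self i s)) (ih' w) (norm_nonneg _) ht
      have h3 : t * (2 ^ s.card * t ^ w) = 2 ^ s.card * t ^ (w + 1) := by ring
      rw [h3] at h2
      have h4 : (2 : ℝ) ^ (s.card + 1) * t ^ (w + 1) =
        2 ^ s.card * t ^ (w + 1) + 2 ^ s.card * t ^ (w + 1) := by ring
      rw [h4]
      exact add_le_add h1 h2

/-- the polynomial in the bounds -/
def Dk (k v : ℕ) : ℝ := ((v : ℝ) + 1) * ((2 * v + 1 : ℝ) ^ k * 2 ^ Fintype.card (Pr k))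

theorem Dk_nonneg (k v : ℕ) : 0 ≤ Dk k v := by
  unfold Dk
  positivity

theorem rt_sq {p : ℕ} (_ : p.Prime) : ((p : ℝ) ^ (-(1 / 2) : ℝ)) ^ 2 = (p : ℝ)⁻¹ := by
  rw [← Real.rpow_natCast, ← Real.rpow_mul (by positivity), ← Real.rpow_neg_one]
  norm_num

theorem H_bd {k : ℕ} (β : Fin k → ℝ) {p : ℕ} (hp : p.Prime) (v : ℕ) :
    ‖PowerSeries.coeff (2 * v) (H β p)‖ ≤ (2 * v + 1 : ℝ) ^ k * ((p : ℝ)⁻¹) ^ v := by
  have h := prod_gs_bd Finset.univ (xx β p) (r := (p : ℝ) ^ (-(1 / 2) : ℝ)) (by positivity)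
    (fun j _ => (norm_xx β hp j).le) (2 * v)
  rw [Finset.card_univ, Fintype.card_fin, pow_mul, rt_sq hp] at h
  push_cast at h
  exact h

theorem G_bd {k : ℕ} (β : Fin k → ℝ) {p : ℕ} (hp : p.Prime) (v : ℕ) :
    ‖PowerSeries.coeff v (G β p)‖ ≤ (2 * v + 1 : ℝ) ^ k * ((p : ℝ)⁻¹) ^ v := by
  rw [coeff_G β hp]
  have hp0 : (0 : ℝ) < p := by exact_mod_cast hp.pos
  rcases Nat.eq_zero_or_pos v with h | h
  · subst h
    rw [if_pos rfl, mul_zero, coeff_zero_H]
    simp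
  · rw [if_neg (by omega), add_zero, norm_mul]
    have h1 : ‖(p : ℂ) / (p + 1)‖ ≤ 1 := by
      have e : (p : ℂ) / (p + 1) = (((p : ℝ) / (p + 1) : ℝ) : ℂ) := by push_cast; rfl
      rw [e, Complex.norm_real, Real.norm_of_nonneg (by positivity), div_le_one (by positivity)]
      linarith
    calc ‖(p : ℂ) / (p + 1)‖ * ‖PowerSeries.coeff (2 * v) (H β p)‖
        ≤ 1 * ((2 * v + 1 : ℝ) ^ k * ((p : ℝ)⁻¹) ^ v) :=
          mul_le_mul h1 (H_bd β hp v) (norm_nonneg _) zero_le_one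
      _ = _ := one_mul _

theorem Mu_bd {k : ℕ} (β : Fin k → ℝ) {p : ℕ} (hp : p.Prime) (v : ℕ) :
    ‖PowerSeries.coeff v (Mu β p)‖ ≤ 2 ^ Fintype.card (Pr k) * ((p : ℝ)⁻¹) ^ v := by
  have h := prod_li_bd Finset.univ (yy β p) (t := (p : ℝ)⁻¹) (by positivity)
    (fun j _ => (norm_yy β hp j).le) v
  rwa [Finset.card_univ] at h

theorem coeff_al {k : ℕ} (β : Fin k → ℝ) {p : ℕ} (hp : p.Prime) (v : ℕ) :
    al β (p ^ v) = PowerSeries.coeff v (G β p * Mu β p) := by
  rw [← bell_al β hp]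
  unfold bell
  rw [PowerSeries.coeff_mk]

theorem al_bd {k : ℕ} (β : Fin k → ℝ) {p : ℕ} (hp : p.Prime) (v : ℕ) :
    ‖al β (p ^ v)‖ ≤ Dk k v * ((p : ℝ)⁻¹) ^ v := by
  rw [coeff_al β hp, PowerSeries.coeff_mul]
  have h1 : ∀ q ∈ Finset.HasAntidiagonal.antidiagonal v, ‖PowerSeries.coeff q.1 (G β p) *
      PowerSeries.coeff q.2 (Mu β p)‖ ≤
      ((2 * v + 1 : ℝ) ^ k * 2 ^ Fintype.card (Pr k)) * ((p : ℝ)⁻¹) ^ v := by
    intro q hq
    have hq' := Finset.HasAntidiagonal.mem_antidiagonal.1 hq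
    have h4 : (q.1 : ℝ) ≤ v := by
      have : q.1 ≤ v := by omega
      exact_mod_cast this
    rw [norm_mul]
    calc ‖PowerSeries.coeff q.1 (G β p)‖ * ‖PowerSeries.coeff q.2 (Mu β p)‖
        ≤ ((2 * q.1 + 1 : ℝ) ^ k * ((p : ℝ)⁻¹) ^ q.1) *
          (2 ^ Fintype.card (Pr k) * ((p : ℝ)⁻¹) ^ q.2) :=
          mul_le_mul (G_bd β hp _) (Mu_bd β hp _) (norm_nonneg _) (by positivity)
      _ = ((2 * q.1 + 1 : ℝ) ^ k * 2 ^ Fintype.card (Pr k)) * ((p : ℝ)⁻¹) ^ v := by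
          rw [← hq', pow_add]
          ring
      _ ≤ _ := by gcongr
  refine (norm_sum_le_of_le _ h1).trans (le_of_eq ?_)
  rw [Finset.sum_const, Finset.Nat.card_antidiagonal, nsmul_eq_mul]
  unfold Dk
  push_cast
  ring

/-! ### The first coefficient -/

theorem coeff_one_mul (F F' : PowerSeries ℂ) : PowerSeries.coeff 1 (F * F') =
    PowerSeries.coeff 0 F * PowerSeries.coeff 1 F' +
      PowerSeries.coeff 1 F * PowerSeries.coeff 0 F' := by
  rw [PowerSeries.coeff_mul, Finset.Nat.antidiagonal_succ]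
  simp

theorem coeff_two_mul (F F' : PowerSeries ℂ) : PowerSeries.coeff 2 (F * F') =
    PowerSeries.coeff 0 F * PowerSeries.coeff 2 F' +
      PowerSeries.coeff 1 F * PowerSeries.coeff 1 F' +
      PowerSeries.coeff 2 F * PowerSeries.coeff 0 F' := by
  rw [PowerSeries.coeff_mul, Finset.Nat.sum_antidiagonal_eq_sum_range_succ
    (fun a b => PowerSeries.coeff a F * PowerSeries.coeff b F')]
  simp [Finset.sum_range_succ]

theorem low_gs {ι : Type} (s : Finset ι) (x : ι → ℂ) :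
    PowerSeries.coeff 0 (∏ i ∈ s, gs (x i)) = 1 ∧
    PowerSeries.coeff 1 (∏ i ∈ s, gs (x i)) = ∑ i ∈ s, x i ∧
    2 * PowerSeries.coeff 2 (∏ i ∈ s, gs (x i)) = (∑ i ∈ s, x i) ^ 2 + ∑ i ∈ s, x i ^ 2 := by
  classical
  induction s using Finset.induction_on with
  | empty =>
    rw [Finset.prod_empty, PowerSeries.coeff_one, PowerSeries.coeff_one, PowerSeries.coeff_one]
    simp
  | insert i s hi ih =>
    obtain ⟨h0, h1, h2⟩ := ih
    have g0 : PowerSeries.coeff 0 (gs (x i)) = 1 := coeff_zero_gs _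
    have g1 : PowerSeries.coeff 1 (gs (x i)) = x i := by unfold gs; simp
    have g2 : PowerSeries.coeff 2 (gs (x i)) = x i ^ 2 := by unfold gs; simp
    rw [Finset.prod_insert hi, Finset.sum_insert hi, Finset.sum_insert hi, coeff_one_mul,
      coeff_two_mul, g0, g1, g2, h0, h1]
    refine ⟨?_, by ring, ?_⟩
    · rw [PowerSeries.coeff_mul, Finset.Nat.antidiagonal_zero, Finset.sum_singleton, g0, h0, one_mul]
    · have : 2 * (1 * PowerSeries.coeff 2 (∏ i ∈ s, gs (x i)) + x i * ∑ i ∈ s, x i + x i ^ 2 * 1) =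
        2 * PowerSeries.coeff 2 (∏ i ∈ s, gs (x i)) + 2 * (x i * ∑ i ∈ s, x i) + 2 * x i ^ 2 := by
        ring
      rw [this, h2]
      ring

theorem low_li {ι : Type} (s : Finset ι) (y : ι → ℂ) :
    PowerSeries.coeff 0 (∏ i ∈ s, li (y i)) = 1 ∧
    PowerSeries.coeff 1 (∏ i ∈ s, li (y i)) = -∑ i ∈ s, y i := by
  classical
  induction s using Finset.induction_on with
  | empty =>
    rw [Finset.prod_empty, PowerSeries.coeff_one, PowerSeries.coeff_one]
    simp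
  | insert i s hi ih =>
    obtain ⟨h0, h1⟩ := ih
    have g0 : PowerSeries.coeff 0 (li (y i)) = 1 := by rw [coeff_li]; simp
    have g1 : PowerSeries.coeff 1 (li (y i)) = -y i := by rw [coeff_li]; simp
    rw [Finset.prod_insert hi, Finset.sum_insert hi, coeff_one_mul, g0, g1, h0, h1]
    refine ⟨?_, by ring⟩
    rw [PowerSeries.coeff_mul, Finset.Nat.antidiagonal_zero, Finset.sum_singleton, g0, h0, one_mul]

theorem sum_pr {k : ℕ} (x : Fin k → ℂ) :
    2 * ∑ r : Pr k, x r.1.1 * x r.1.2 = (∑ i, x i) ^ 2 + ∑ i, x i ^ 2 := by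
  have h1 : ∑ r : Pr k, x r.1.1 * x r.1.2 =
      ∑ q : Fin k × Fin k, (if q.1 ≤ q.2 then x q.1 * x q.2 else 0) := by
    rw [← Finset.sum_filter]
    exact (Finset.sum_subtype (Finset.univ.filter fun q : Fin k × Fin k => q.1 ≤ q.2)
      (fun q => by simp) (fun q => x q.1 * x q.2)).symm
  have h2 : ∑ q : Fin k × Fin k, (if q.1 ≤ q.2 then x q.1 * x q.2 else 0) =
      ∑ q : Fin k × Fin k, (if q.2 ≤ q.1 then x q.1 * x q.2 else 0) := by
    refine Fintype.sum_equiv (Equiv.prodComm _ _) _ _ fun q => ?_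
    simp only [Equiv.prodComm_apply, Prod.fst_swap, Prod.snd_swap]
    rw [mul_comm]
  have h3 : ∑ q : Fin k × Fin k, (if q.1 ≤ q.2 then x q.1 * x q.2 else 0) +
      ∑ q : Fin k × Fin k, (if q.2 ≤ q.1 then x q.1 * x q.2 else 0) =
      ∑ q : Fin k × Fin k, x q.1 * x q.2 +
        ∑ q : Fin k × Fin k, (if q.1 = q.2 then x q.1 * x q.2 else 0) := by
    rw [← Finset.sum_add_distrib, ← Finset.sum_add_distrib]
    refine Finset.sum_congr rfl fun q _ => ?_
    rcases lt_trichotomy q.1 q.2 with h | h | h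
    · rw [if_pos h.le, if_neg (not_le.2 h), if_neg h.ne]
    · rw [if_pos h.le, if_pos h.ge, if_pos h]
    · rw [if_neg (not_le.2 h), if_pos h.le, if_neg h.ne']
      ring
  have h4 : ∑ q : Fin k × Fin k, x q.1 * x q.2 = (∑ i, x i) ^ 2 := by
    rw [sq, Finset.sum_mul_sum, Fintype.sum_prod_type]
  have h5 : ∑ q : Fin k × Fin k, (if q.1 = q.2 then x q.1 * x q.2 else 0) = ∑ i, x i ^ 2 := by
    rw [Fintype.sum_prod_type]
    refine Finset.sum_congr rfl fun i _ => ?_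
    simp [sq]
  rw [h1, two_mul]
  nth_rewrite 2 [h2]
  rw [h3, h4, h5]

theorem al_prime {k : ℕ} (β : Fin k → ℝ) {p : ℕ} (hp : p.Prime) :
    al β (p ^ 1) = -(PowerSeries.coeff 2 (H β p)) / (p + 1) := by
  have hH := (low_gs Finset.univ (xx β p)).2.2
  have hMu := low_li Finset.univ (yy β p)
  have hs := sum_pr (xx β p)
  have hy : ∑ r, yy β p r = PowerSeries.coeff 2 (H β p) := by
    have h1 : ∑ r, yy β p r = ∑ r : Pr k, xx β p r.1.1 * xx β p r.1.2 :=
      Finset.sum_congr rfl fun r _ => yy_eq β hp r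
    rw [h1]
    have h2 : (2 : ℂ) ≠ 0 := two_ne_zero
    apply mul_left_cancel₀ h2
    rw [hs]
    exact hH.symm
  have hG1 := coeff_G β hp 1
  have hG0 := coeff_G β hp 0
  rw [if_pos rfl, mul_zero, coeff_zero_H] at hG0
  rw [if_neg one_ne_zero, mul_one, add_zero] at hG1
  rw [coeff_al β hp, coeff_one_mul, hG1, hG0]
  have e0 : PowerSeries.coeff 0 (Mu β p) = 1 := hMu.1
  have e1 : PowerSeries.coeff 1 (Mu β p) = -PowerSeries.coeff 2 (H β p) := by
    rw [← hy]
    exact hMu.2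
  rw [e0, e1]
  have hp1 : (p : ℂ) + 1 ≠ 0 := by exact_mod_cast Nat.succ_ne_zero p
  field_simp
  ring

theorem al_prime_bd {k : ℕ} (β : Fin k → ℝ) {p : ℕ} (hp : p.Prime) :
    ‖al β (p ^ 1)‖ ≤ 3 ^ k * ((p : ℝ)⁻¹) ^ 2 := by
  rw [al_prime β hp, norm_div, norm_neg]
  have hp0 : (0 : ℝ) < p := by exact_mod_cast hp.pos
  have h1 := H_bd β hp 1
  norm_num at h1
  have h2 : ‖(p : ℂ) + 1‖ = (p : ℝ) + 1 := by
    have e : (p : ℂ) + 1 = (((p : ℝ) + 1 : ℝ) : ℂ) := by push_cast; rfl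
    rw [e, Complex.norm_real, Real.norm_of_nonneg (by positivity)]
  rw [h2, div_le_iff₀ (by positivity)]
  refine h1.trans ?_
  have e : (3 : ℝ) ^ k * ((p : ℝ)⁻¹) ^ 2 * (p + 1) = 3 ^ k * (p : ℝ)⁻¹ * (1 + (p : ℝ)⁻¹) := by
    field_simp
  rw [e]
  have : 0 ≤ (3 : ℝ) ^ k * (p : ℝ)⁻¹ := by positivity
  have : 0 ≤ (p : ℝ)⁻¹ := by positivity
  nlinarith

/-! ### The Dirichlet series -/

/-- `2 ^ (-3/4)` -/
def q0 : ℝ := (2 : ℝ) ^ (-(3 / 4) : ℝ)

theorem q0_pos : 0 < q0 := by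
  unfold q0
  positivity

theorem q0_lt : q0 < 1 :=
  Real.rpow_lt_one_of_one_lt_of_neg one_lt_two (by norm_num)

/-- the bounds for the terms of the local series -/
def ek (k : ℕ) : ℕ → ℝ
  | 0 => 3 ^ k
  | u + 1 => Dk k (u + 2) * q0 ^ u

theorem ek_nonneg (k u : ℕ) : 0 ≤ ek k u := by
  cases u with
  | zero => unfold ek; positivity
  | succ u =>
    unfold ek
    have := Dk_nonneg k (u + 2)
    have := q0_pos
    positivity

theorem ek_summable (k : ℕ) : Summable (ek k) := by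
  rw [← summable_nat_add_iff 1]
  have h1 : Summable fun n : ℕ => (n : ℝ) ^ (k + 1) * q0 ^ n :=
    summable_pow_mul_geometric_of_norm_lt_one (k + 1)
      (by rw [Real.norm_of_nonneg q0_pos.le]; exact q0_lt)
  have h2 := ((summable_nat_add_iff 3).2 h1).mul_left
    (2 ^ Fintype.card (Pr k) * 2 ^ k * (q0 ^ 3)⁻¹)
  refine Summable.of_nonneg_of_le (fun u => ek_nonneg k (u + 1)) (fun u => ?_) h2
  show Dk k (u + 2) * q0 ^ u ≤ _
  unfold Dk
  have hq := q0_pos
  have e : (2 ^ Fintype.card (Pr k) * 2 ^ k * (q0 ^ 3)⁻¹) *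
      ((((u + 3 : ℕ) : ℝ)) ^ (k + 1) * q0 ^ (u + 3)) =
      ((u : ℝ) + 3) * ((2 * ((u : ℝ) + 3)) ^ k * 2 ^ Fintype.card (Pr k)) * q0 ^ u := by
    rw [mul_pow, pow_add q0 u 3]
    push_cast
    field_simp
    ring
  rw [e]
  have h3 : ((u + 2 : ℕ) : ℝ) + 1 = (u : ℝ) + 3 := by push_cast; ring
  have h4 : (2 * ((u + 2 : ℕ) : ℝ) + 1) ≤ 2 * ((u : ℝ) + 3) := by push_cast; linarith
  rw [h3]
  gcongr

/-- the sum of the bounds -/
def CE (k : ℕ) : ℝ := ∑' u, ek k u

theorem CE_nonneg (k : ℕ) : 0 ≤ CE k := tsum_nonneg (ek_nonneg k)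

/-- the absolute values with weights -/
def gg {k : ℕ} (β : Fin k → ℝ) (m : ℕ) : ℝ := ‖al β m‖ * (m : ℝ) ^ (1 / 4 : ℝ)

theorem gg_nonneg {k : ℕ} (β : Fin k → ℝ) (m : ℕ) : 0 ≤ gg β m := by
  unfold gg
  positivity

theorem gg_one {k : ℕ} (β : Fin k → ℝ) : gg β 1 = 1 := by
  unfold gg
  rw [(al_mult β).map_one]
  simp

theorem gg_mul {k : ℕ} (β : Fin k → ℝ) {m n : ℕ} (h : m.Coprime n) :
    gg β (m * n) = gg β m * gg β n := by
  unfold gg
  rw [(al_mult β).map_mul_of_coprime h, norm_mul, Nat.cast_mul,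
    Real.mul_rpow (Nat.cast_nonneg m) (Nat.cast_nonneg n)]
  ring

theorem gg_bd {k : ℕ} (β : Fin k → ℝ) {p : ℕ} (hp : p.Prime) (u : ℕ) :
    gg β (p ^ (u + 1)) ≤ (p : ℝ) ^ (-(3 / 2) : ℝ) * ek k u := by
  have hp0 : (0 : ℝ) < p := by exact_mod_cast hp.pos
  have hp1 : (1 : ℝ) ≤ p := by exact_mod_cast hp.one_lt.le
  have hp2 : (2 : ℝ) ≤ p := by exact_mod_cast hp.two_le
  have hinv : ((p : ℝ)⁻¹) = (p : ℝ) ^ (-1 : ℝ) := (Real.rpow_neg_one _).symm
  unfold gg
  cases u with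
  | zero =>
    have h1 := al_prime_bd β hp
    have h2 : ((p ^ (0 + 1) : ℕ) : ℝ) ^ (1 / 4 : ℝ) = (p : ℝ) ^ (1 / 4 : ℝ) := by simp
    rw [h2]
    show _ ≤ (p : ℝ) ^ (-(3 / 2) : ℝ) * 3 ^ k
    have h3 : ((p : ℝ)⁻¹) ^ 2 * (p : ℝ) ^ (1 / 4 : ℝ) ≤ (p : ℝ) ^ (-(3 / 2) : ℝ) := by
      rw [hinv, ← Real.rpow_natCast, ← Real.rpow_mul hp0.le, ← Real.rpow_add hp0]
      exact Real.rpow_le_rpow_of_exponent_le hp1 (by norm_num)
    calc ‖al β (p ^ (0 + 1))‖ * (p : ℝ) ^ (1 / 4 : ℝ)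
        ≤ (3 ^ k * ((p : ℝ)⁻¹) ^ 2) * (p : ℝ) ^ (1 / 4 : ℝ) := by gcongr
      _ = 3 ^ k * (((p : ℝ)⁻¹) ^ 2 * (p : ℝ) ^ (1 / 4 : ℝ)) := by ring
      _ ≤ 3 ^ k * (p : ℝ) ^ (-(3 / 2) : ℝ) := by gcongr
      _ = _ := mul_comm _ _
  | succ u =>
    have h1 := al_bd β hp (u + 1 + 1)
    show _ ≤ (p : ℝ) ^ (-(3 / 2) : ℝ) * (Dk k (u + 2) * q0 ^ u)
    have h2 : ((p : ℝ)⁻¹) ^ (u + 2) * ((p ^ (u + 2) : ℕ) : ℝ) ^ (1 / 4 : ℝ) =
        (p : ℝ) ^ (-(3 / 2) : ℝ) * ((p : ℝ) ^ (-(3 / 4) : ℝ)) ^ u := by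
      rw [hinv, Nat.cast_pow, ← Real.rpow_natCast, ← Real.rpow_natCast, ← Real.rpow_natCast,
        ← Real.rpow_mul hp0.le, ← Real.rpow_mul hp0.le, ← Real.rpow_mul hp0.le,
        ← Real.rpow_add hp0, ← Real.rpow_add hp0]
      congr 1
      push_cast
      ring
    have h3 : ((p : ℝ) ^ (-(3 / 4) : ℝ)) ^ u ≤ q0 ^ u := by
      refine pow_le_pow_left₀ (by positivity) ?_ u
      exact Real.rpow_le_rpow_of_nonpos two_pos hp2 (by norm_num)
    have hD := Dk_nonneg k (u + 2)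
    calc ‖al β (p ^ (u + 2))‖ * ((p ^ (u + 2) : ℕ) : ℝ) ^ (1 / 4 : ℝ)
        ≤ (Dk k (u + 2) * ((p : ℝ)⁻¹) ^ (u + 2)) * ((p ^ (u + 2) : ℕ) : ℝ) ^ (1 / 4 : ℝ) := by
          refine mul_le_mul_of_nonneg_right h1 (by positivity)
      _ = Dk k (u + 2) * ((p : ℝ) ^ (-(3 / 2) : ℝ) * ((p : ℝ) ^ (-(3 / 4) : ℝ)) ^ u) := by
          rw [mul_assoc, h2]
      _ ≤ Dk k (u + 2) * ((p : ℝ) ^ (-(3 / 2) : ℝ) * q0 ^ u) := by gcongr
      _ = _ := by ring

theorem gg_local {k : ℕ} (β : Fin k → ℝ) {p : ℕ} (hp : p.Prime) :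
    Summable (fun v => gg β (p ^ v)) ∧
      ∑' v, gg β (p ^ v) ≤ 1 + CE k * (p : ℝ) ^ (-(3 / 2) : ℝ) := by
  have h1 : Summable fun v => gg β (p ^ (v + 1)) :=
    Summable.of_nonneg_of_le (fun v => gg_nonneg β _) (fun v => gg_bd β hp v)
      ((ek_summable k).mul_left _)
  have h2 : Summable fun v => gg β (p ^ v) :=
    (summable_nat_add_iff (f := fun v => gg β (p ^ v)) 1).1 h1
  refine ⟨h2, ?_⟩
  rw [h2.tsum_eq_zero_add, pow_zero, gg_one]
  have h3 := Summable.tsum_le_tsum (fun v => gg_bd β hp v) h1 ((ek_summable k).mul_left _)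
  rw [tsum_mul_left] at h3
  have e : CE k = ∑' u, ek k u := rfl
  rw [e]
  linarith

/-- the constant -/
def CC (k : ℕ) : ℝ := Real.exp (CE k * ∑' n : ℕ, (n : ℝ) ^ (-(3 / 2) : ℝ))

theorem gg_sum {k : ℕ} (β : Fin k → ℝ) (S : Finset ℕ) : ∑ m ∈ S, gg β m ≤ CC k := by
  classical
  set N : ℕ := S.sup id + 1 with hN
  have hz : Summable fun n : ℕ => (n : ℝ) ^ (-(3 / 2) : ℝ) :=
    Real.summable_nat_rpow.2 (by norm_num)
  have h1 := (EulerProduct.summable_and_hasSum_smoothNumbers_prod_primesBelow_tsum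
    (f := gg β) (gg_one β) (fun {m n} h => gg_mul β h)
    (fun {p} hp => (gg_local β hp).1.norm) N).2
  have h2 : HasSum ((N.smoothNumbers : Set ℕ).indicator (gg β))
      (∏ p ∈ N.primesBelow, ∑' v, gg β (p ^ v)) :=
    (hasSum_subtype_iff_indicator (f := gg β) (s := (N.smoothNumbers : Set ℕ))).1 h1
  have h0 : ∀ i, 0 ≤ (N.smoothNumbers : Set ℕ).indicator (gg β) i := fun i =>
    Set.indicator_nonneg (fun m _ => gg_nonneg β m) i
  have h3 := sum_le_hasSum S (fun i _ => h0 i) h2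
  have h4 : ∑ m ∈ S, gg β m ≤ ∑ m ∈ S, (N.smoothNumbers : Set ℕ).indicator (gg β) m := by
    refine Finset.sum_le_sum fun m hm => ?_
    rcases Nat.eq_zero_or_pos m with h | h
    · subst h
      have : gg β 0 = 0 := by
        unfold gg
        simp
      rw [this]
      exact h0 0
    · rw [Set.indicator_of_mem]
      refine Nat.mem_smoothNumbers_of_lt h ?_
      have : m ≤ S.sup id := Finset.le_sup (f := id) hm
      omega
  refine h4.trans (h3.trans ?_)
  have hpr : ∀ p ∈ N.primesBelow, p.Prime := fun p hp => Nat.prime_of_mem_primesBelow hp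
  calc ∏ p ∈ N.primesBelow, ∑' v, gg β (p ^ v)
      ≤ ∏ p ∈ N.primesBelow, Real.exp (CE k * (p : ℝ) ^ (-(3 / 2) : ℝ)) := by
        refine Finset.prod_le_prod (fun p hp => tsum_nonneg fun v => gg_nonneg β _) fun p hp => ?_
        refine (gg_local β (hpr p hp)).2.trans ?_
        have := Real.add_one_le_exp (CE k * (p : ℝ) ^ (-(3 / 2) : ℝ))
        linarith
    _ = Real.exp (∑ p ∈ N.primesBelow, CE k * (p : ℝ) ^ (-(3 / 2) : ℝ)) :=
        (Real.exp_sum _ _).symm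
    _ ≤ CC k := by
        unfold CC
        refine Real.exp_le_exp.2 ?_
        rw [← Finset.mul_sum]
        exact mul_le_mul_of_nonneg_left (hz.sum_le_tsum _ fun n _ => by positivity) (CE_nonneg k)

theorem gg_tsum {k : ℕ} (β : Fin k → ℝ) : Summable (gg β) ∧ ∑' m, gg β m ≤ CC k := by
  have h := summable_of_sum_le (gg_nonneg β) (gg_sum β)
  exact ⟨h, h.tsum_le_of_sum_le (gg_sum β)⟩

theorem al_le {k : ℕ} (β : Fin k → ℝ) (m : ℕ) : ‖al β m‖ ≤ gg β m := by
  unfold gg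
  rcases Nat.eq_zero_or_pos m with h | h
  · subst h
    simp
  · have : (1 : ℝ) ≤ (m : ℝ) ^ (1 / 4 : ℝ) :=
      Real.one_le_rpow (by exact_mod_cast h) (by norm_num)
    nlinarith [norm_nonneg (al β m)]

theorem al_summable {k : ℕ} (β : Fin k → ℝ) : Summable fun m => ‖al β m‖ :=
  Summable.of_nonneg_of_le (fun _ => norm_nonneg _) (al_le β) (gg_tsum β).1

theorem Ak_eq {k : ℕ} (β : Fin k → ℝ) : Ak (im β) = ∑' m, al β m := by
  have h := (al_mult β).eulerProduct_hasProd (al_summable β)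
  unfold Ak
  rw [← h.tprod_eq]
  exact tprod_congr fun p => (local_id β p.2).symm

end Eul

open Eul in
/-- Part EUL. -/
theorem t_EUL : S_EUL := by
  intro k
  refine ⟨CC k, Real.exp_pos _, fun β => ⟨?_, fun M hM => ?_⟩⟩
  · rw [Ak_eq]
    refine (norm_tsum_le_tsum_norm (al_summable β)).trans ?_
    exact (Summable.tsum_le_tsum (al_le β) (al_summable β) (gg_tsum β).1).trans (gg_tsum β).2
  · classical
    have hs : Summable fun m => al β m := (al_summable β).of_norm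
    have h1 := hs.sum_add_tsum_compl (s := Finset.Icc 1 M)
    rw [Ak_eq, ← h1, add_sub_cancel_left]
    have hM0 : (0 : ℝ) < M := by exact_mod_cast hM
    have h2 : ∀ m : ((Finset.Icc 1 M : Finset ℕ) : Set ℕ)ᶜ.Elem, ‖al β m‖ ≤
        (M : ℝ) ^ (-(1 / 4) : ℝ) * gg β m := by
      rintro ⟨m, hm⟩
      simp only
      rcases Nat.eq_zero_or_pos m with h | h
      · subst h
        unfold gg
        simp
      · have h3 : M < m := by
          by_contra h4
          exact hm (Finset.mem_coe.2 (Finset.mem_Icc.2 ⟨h, by omega⟩))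
        have h4 : (M : ℝ) ^ (1 / 4 : ℝ) ≤ (m : ℝ) ^ (1 / 4 : ℝ) :=
          Real.rpow_le_rpow hM0.le (by exact_mod_cast h3.le) (by norm_num)
        unfold gg
        rw [Real.rpow_neg hM0.le]
        have h5 : 0 < (M : ℝ) ^ (1 / 4 : ℝ) := Real.rpow_pos_of_pos hM0 _
        rw [inv_mul_eq_div, le_div_iff₀ h5]
        exact mul_le_mul_of_nonneg_left h4 (norm_nonneg _)
    have h3 : Summable fun m : ((Finset.Icc 1 M : Finset ℕ) : Set ℕ)ᶜ.Elem => ‖al β m‖ :=
      (al_summable β).subtype _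
    have h4 : Summable fun m : ((Finset.Icc 1 M : Finset ℕ) : Set ℕ)ᶜ.Elem => gg β m :=
      (gg_tsum β).1.subtype _
    have h6 : ∑' m : ((Finset.Icc 1 M : Finset ℕ) : Set ℕ)ᶜ.Elem, gg β m ≤ ∑' m, gg β m :=
        Summable.tsum_subtype_le (gg β) _ (gg_nonneg β) (gg_tsum β).1
    calc ‖∑' m : ((Finset.Icc 1 M : Finset ℕ) : Set ℕ)ᶜ.Elem, al β m‖
        ≤ ∑' m : ((Finset.Icc 1 M : Finset ℕ) : Set ℕ)ᶜ.Elem, ‖al β m‖ :=
          norm_tsum_le_tsum_norm h3
      _ ≤ ∑' m : ((Finset.Icc 1 M : Finset ℕ) : Set ℕ)ᶜ.Elem,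
            (M : ℝ) ^ (-(1 / 4) : ℝ) * gg β m := Summable.tsum_le_tsum h2 h3 (h4.mul_left _)
      _ = (M : ℝ) ^ (-(1 / 4) : ℝ) *
            ∑' m : ((Finset.Icc 1 M : Finset ℕ) : Set ℕ)ᶜ.Elem, gg β m := tsum_mul_left
      _ ≤ (M : ℝ) ^ (-(1 / 4) : ℝ) * CC k :=
          mul_le_mul_of_nonneg_left (h6.trans (gg_tsum β).2) (by positivity)
      _ = CC k * (M : ℝ) ^ (-(1 / 4) : ℝ) := mul_comm _ _

end

end Pool.Agent.N879.QM
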