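import Pool.Agent.N879.QM.Stm
import Pool.Agent.H423R2.RZL.HBLS
import Pool.Agent.H987R2.RG_CLS

/-!
# Project QM, part GK (helper401): from Heath-Brown's quadratic large sieve to the family
-/

set_option autoImplicit false

namespace Pool.Agent.N879.QM

open Complex Filter Topology MeasureTheory Set
open scoped BigOperators
open Pool.Agent.H306R2.RZ (js osf sqf LSB)
open Pool.Agent.H306R2.RG (FD F8 F4 F1 Fam cf)
open Pool.Agent.H423R2.RZL.HBLSn (HBLS)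
open Pool.Agent.H987R2.RGCLS (CLS cf_eq)

noncomputable section

theorem gk_dual {α β : Type} (S : Finset α) (T : Finset β) (k : α → β → ℂ) {B : ℝ} (hB : 0 ≤ B)
    (h : ∀ a : β → ℂ, ∑ s ∈ S, ‖∑ t ∈ T, a t * k s t‖ ^ 2 ≤ B * ∑ t ∈ T, ‖a t‖ ^ 2) (b : α → ℂ) :
    ∑ t ∈ T, ‖∑ s ∈ S, b s * k s t‖ ^ 2 ≤ B * ∑ s ∈ S, ‖b s‖ ^ 2 := by
  obtain ⟨z, hz⟩ : ∃ z : β → ℂ, z = fun t => ∑ s ∈ S, b s * k s t := ⟨_, rfl⟩
  obtain ⟨w, hw⟩ : ∃ w : α → ℂ, w = fun s => ∑ t ∈ T, (starRingEnd ℂ) (z t) * k s t := ⟨_, rfl⟩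
  have h1 := h fun t => (starRingEnd ℂ) (z t)
  simp only [RCLike.norm_conj] at h1
  have e1 : ((∑ t ∈ T, ‖z t‖ ^ 2 : ℝ) : ℂ) = ∑ s ∈ S, b s * w s := by
    rw [hw]
    push_cast
    simp only [Finset.mul_sum]
    rw [Finset.sum_comm]
    refine Finset.sum_congr rfl fun t _ => ?_
    rw [← Complex.conj_mul']
    conv_lhs => rw [hz]
    rw [Finset.mul_sum]
    refine Finset.sum_congr rfl fun s _ => ?_
    rw [hz]
    ring
  have h2 : ∑ t ∈ T, ‖z t‖ ^ 2 ≤ ∑ s ∈ S, ‖b s‖ * ‖w s‖ := by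
    have h3 : ‖((∑ t ∈ T, ‖z t‖ ^ 2 : ℝ) : ℂ)‖ ≤ ∑ s ∈ S, ‖b s‖ * ‖w s‖ := by
      rw [e1]
      refine (norm_sum_le _ _).trans (Finset.sum_le_sum fun s _ => ?_)
      rw [norm_mul]
    rw [Complex.norm_real, Real.norm_eq_abs] at h3
    exact (le_abs_self _).trans h3
  have h0 : 0 ≤ ∑ t ∈ T, ‖z t‖ ^ 2 := Finset.sum_nonneg fun _ _ => by positivity
  have hb0 : 0 ≤ ∑ s ∈ S, ‖b s‖ ^ 2 := Finset.sum_nonneg fun _ _ => by positivity
  have h4 : (∑ t ∈ T, ‖z t‖ ^ 2) ^ 2 ≤ (∑ s ∈ S, ‖b s‖ ^ 2) * (B * ∑ t ∈ T, ‖z t‖ ^ 2) := by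
    calc (∑ t ∈ T, ‖z t‖ ^ 2) ^ 2 ≤ (∑ s ∈ S, ‖b s‖ * ‖w s‖) ^ 2 := pow_le_pow_left₀ h0 h2 2
      _ ≤ (∑ s ∈ S, ‖b s‖ ^ 2) * ∑ s ∈ S, ‖w s‖ ^ 2 := Finset.sum_mul_sq_le_sq_mul_sq _ _ _
      _ ≤ _ := by
        apply mul_le_mul_of_nonneg_left _ hb0
        rw [hw]
        exact h1
  have h5 : ∑ t ∈ T, ‖z t‖ ^ 2 ≤ B * ∑ s ∈ S, ‖b s‖ ^ 2 := by
    rcases eq_or_lt_of_le h0 with h6 | h6
    · rw [← h6]
      positivity
    · have h7 : (∑ t ∈ T, ‖z t‖ ^ 2) * (∑ t ∈ T, ‖z t‖ ^ 2) ≤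
          (B * ∑ s ∈ S, ‖b s‖ ^ 2) * (∑ t ∈ T, ‖z t‖ ^ 2) := by
        calc _ = (∑ t ∈ T, ‖z t‖ ^ 2) ^ 2 := by ring
          _ ≤ _ := h4
          _ = _ := by ring
      exact le_of_mul_le_mul_right h7 h6
  rw [hz] at h5
  exact h5

/-- the dual inequality over a set with an injective map into the squarefree numbers -/
theorem gk_dual2 {M N : ℕ} {B : ℝ} (hB : 0 ≤ B) (h : LSB M N B) (D : Finset ℕ) (dd : ℕ → ℕ)
    (hd : ∀ q ∈ D, dd q ∈ sqf M) (hinj : ∀ q ∈ D, ∀ q' ∈ D, dd q = dd q' → q = q') (b : ℕ → ℂ) :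
    ∑ n ∈ osf N, ‖∑ q ∈ D, b q * (js (dd q) n : ℂ)‖ ^ 2 ≤ B * ∑ q ∈ D, ‖b q‖ ^ 2 := by
  classical
  apply gk_dual D (osf N) (fun q n => (js (dd q) n : ℂ)) hB
  intro a
  refine le_trans ?_ (h a)
  have e : ∑ m ∈ D.image dd, ‖∑ n ∈ osf N, a n * (js m n : ℂ)‖ ^ 2 =
      ∑ q ∈ D, ‖∑ n ∈ osf N, a n * (js (dd q) n : ℂ)‖ ^ 2 :=
    Finset.sum_image fun q hq q' hq' h => hinj q hq q' hq' h
  rw [← e]
  apply Finset.sum_le_sum_of_subset_of_nonneg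
  · intro m hm
    obtain ⟨q, hq, rfl⟩ := Finset.mem_image.1 hm
    exact hd q hq
  · intro _ _ _
    positivity

theorem gk_js_abs (k : ℤ) (n : ℕ) : |js k n| ≤ 1 := by
  unfold js
  rcases jacobiSym.trichotomy k n with h | h | h <;> rw [h] <;> norm_num

theorem gk_js_mul (a b : ℤ) (n : ℕ) : js (a * b) n = js a n * js b n := by
  unfold js
  rw [jacobiSym.mul_left]
  push_cast
  rfl

theorem gk_js_right (a : ℤ) (n r : ℕ) (hn : n ≠ 0) (hr : r ≠ 0) : js a (n * r ^ 2) = js a n * js a r ^ 2 := by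
  unfold js
  rw [jacobiSym.mul_right' a hn (pow_ne_zero 2 hr), jacobiSym.pow_right]
  push_cast
  rfl

/-- the pairs `(b, r)` with `2^b r² ≤ K` -/
def GkT (K : ℕ) : Finset (ℕ × ℕ) :=
  (Finset.range (K + 1) ×ˢ Finset.Icc 1 K).filter fun p => 2 ^ p.1 * p.2 ^ 2 ≤ K

theorem gkT_card (K : ℕ) : ((GkT K).card : ℝ) ≤ 4 * √K := by
  have h1 : GkT K ⊆ ((Finset.range (K + 1)).sigma (fun b => Finset.Icc 1 ⌊√K * (3 / 4 : ℝ) ^ b⌋₊)).image
      (fun p => (p.1, p.2)) := by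
    intro p hp
    unfold GkT at hp
    rw [Finset.mem_filter, Finset.mem_product, Finset.mem_Icc] at hp
    obtain ⟨⟨h2, h3, h4⟩, h5⟩ := hp
    rw [Finset.mem_image]
    refine ⟨⟨p.1, p.2⟩, ?_, rfl⟩
    rw [Finset.mem_sigma]
    refine ⟨h2, ?_⟩
    rw [Finset.mem_Icc]
    refine ⟨h3, ?_⟩
    apply Nat.le_floor
    have h6 : (2 : ℝ) ^ p.1 * (p.2 : ℝ) ^ 2 ≤ K := by exact_mod_cast h5
    have h7 : (p.2 : ℝ) ^ 2 ≤ (√K * (3 / 4 : ℝ) ^ p.1) ^ 2 := by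
      rw [mul_pow, Real.sq_sqrt (Nat.cast_nonneg K), ← pow_mul, mul_comm p.1 2, pow_mul]
      have h8 : (1 : ℝ) ≤ 2 ^ p.1 * ((3 / 4 : ℝ) ^ 2) ^ p.1 := by
        rw [← mul_pow]
        apply one_le_pow₀
        norm_num
      calc (p.2 : ℝ) ^ 2 ≤ (p.2 : ℝ) ^ 2 * (2 ^ p.1 * ((3 / 4 : ℝ) ^ 2) ^ p.1) :=
            le_mul_of_one_le_right (by positivity) h8
        _ = (2 ^ p.1 * (p.2 : ℝ) ^ 2) * ((3 / 4 : ℝ) ^ 2) ^ p.1 := by ring
        _ ≤ K * ((3 / 4 : ℝ) ^ 2) ^ p.1 := mul_le_mul_of_nonneg_right h6 (by positivity)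
    exact le_of_sq_le_sq (by simpa using h7) (by positivity)
  have h2 : ((GkT K).card : ℝ) ≤ ∑ b ∈ Finset.range (K + 1), √K * (3 / 4 : ℝ) ^ b := by
    have h3 := (Finset.card_le_card h1).trans Finset.card_image_le
    rw [Finset.card_sigma] at h3
    calc ((GkT K).card : ℝ) ≤ ((∑ b ∈ Finset.range (K + 1), (Finset.Icc 1 ⌊√K * (3 / 4 : ℝ) ^ b⌋₊).card : ℕ) : ℝ) := by
          exact_mod_cast h3
      _ = ∑ b ∈ Finset.range (K + 1), ((⌊√K * (3 / 4 : ℝ) ^ b⌋₊ : ℕ) : ℝ) := by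
          push_cast
          refine Finset.sum_congr rfl fun b _ => ?_
          rw [Nat.card_Icc, Nat.add_sub_cancel]
      _ ≤ _ := Finset.sum_le_sum fun b _ => Nat.floor_le (by positivity)
  rw [← Finset.mul_sum] at h2
  have h3 : ∑ b ∈ Finset.range (K + 1), (3 / 4 : ℝ) ^ b ≤ 4 := by
    have h4 := sum_le_hasSum (Finset.range (K + 1)) (fun i _ => by positivity)
      (hasSum_geometric_of_lt_one (r := (3 / 4 : ℝ)) (by norm_num) (by norm_num))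
    norm_num at h4
    exact h4
  nlinarith [Real.sqrt_nonneg (K : ℝ)]

theorem gkT_sum (K : ℕ) : ∑ p ∈ GkT K, (1 : ℝ) / (2 ^ p.1 * (p.2 : ℝ) ^ 2) ≤ 4 := by
  have h1 : ∑ p ∈ GkT K, (1 : ℝ) / (2 ^ p.1 * (p.2 : ℝ) ^ 2) ≤
      ∑ p ∈ Finset.range (K + 1) ×ˢ Finset.Icc 1 K, (1 : ℝ) / (2 ^ p.1 * (p.2 : ℝ) ^ 2) := by
    apply Finset.sum_le_sum_of_subset_of_nonneg (Finset.filter_subset _ _)
    intro _ _ _
    positivity
  have h2 : ∑ p ∈ Finset.range (K + 1) ×ˢ Finset.Icc 1 K, (1 : ℝ) / (2 ^ p.1 * (p.2 : ℝ) ^ 2) =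
      (∑ b ∈ Finset.range (K + 1), (1 / 2 : ℝ) ^ b) * ∑ r ∈ Finset.Icc 1 K, ((r : ℝ) ^ 2)⁻¹ := by
    rw [Finset.sum_mul_sum, Finset.sum_product]
    refine Finset.sum_congr rfl fun b _ => Finset.sum_congr rfl fun r _ => ?_
    rw [one_div, mul_inv, one_div, inv_pow]
  have h3 : ∑ b ∈ Finset.range (K + 1), (1 / 2 : ℝ) ^ b ≤ 2 := by
    have h4 := sum_le_hasSum (Finset.range (K + 1)) (fun i _ => by positivity)
      (hasSum_geometric_of_lt_one (r := (1 / 2 : ℝ)) (by norm_num) (by norm_num))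
    norm_num at h4
    norm_num
    exact h4
  have h4 : ∑ r ∈ Finset.Icc 1 K, ((r : ℝ) ^ 2)⁻¹ ≤ 2 := by
    have h5 := sum_Ioo_inv_sq_le (α := ℝ) 0 (K + 1)
    have h6 : Finset.Icc 1 K = Finset.Ioo 0 (K + 1) := by
      ext r
      simp only [Finset.mem_Icc, Finset.mem_Ioo]
      omega
    rw [h6]
    norm_num at h5
    exact h5
  have h5 : 0 ≤ ∑ r ∈ Finset.Icc 1 K, ((r : ℝ) ^ 2)⁻¹ := Finset.sum_nonneg fun _ _ => by positivity
  calc _ ≤ _ := h1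
    _ = _ := h2
    _ ≤ 2 * 2 := mul_le_mul h3 h4 h5 (by norm_num)
    _ = 4 := by norm_num

/-- every number is `2^b n₁ r²` -/
theorem gk_decomp (n : ℕ) (hn : 1 ≤ n) : ∃ b r m : ℕ, Odd r ∧ Odd m ∧ Squarefree m ∧ 2 ^ b * (m * r ^ 2) = n := by
  obtain ⟨b, m0, hm0, hbm⟩ := Nat.exists_eq_two_pow_mul_odd (n := n) (by omega)
  obtain ⟨m, r, hrm, hsq⟩ := Nat.sq_mul_squarefree m0
  have h1 : Odd (r ^ 2 * m) := by rw [hrm]; exact hm0
  rw [Nat.odd_mul] at h1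
  refine ⟨b, r, m, ?_, h1.2, hsq, ?_⟩
  · exact Nat.Odd.of_mul_left (m := r) (by rw [← sq]; exact h1.1)
  · rw [mul_comm m, hrm, ← hbm]

/-- the sum over all numbers -/
theorem gk_sum_decomp (K : ℕ) (F : ℕ → ℝ) (hF : ∀ n, 0 ≤ F n) : ∑ n ∈ Finset.Icc 1 K, F n ≤
    ∑ p ∈ GkT K, ∑ m ∈ osf (K / (2 ^ p.1 * p.2 ^ 2)),
      if Odd p.2 then F (2 ^ p.1 * (m * p.2 ^ 2)) else 0 := by
  classical
  have h1 : ∀ n : ℕ, ∃ x : (_ : ℕ × ℕ) × ℕ, 1 ≤ n → n ≤ K →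
      x ∈ (GkT K).sigma (fun p => osf (K / (2 ^ p.1 * p.2 ^ 2))) ∧ Odd x.1.2 ∧
      2 ^ x.1.1 * (x.2 * x.1.2 ^ 2) = n := by
    intro n
    by_cases hn : 1 ≤ n ∧ n ≤ K
    · obtain ⟨b, r, m, hr, hm, hsq, e⟩ := gk_decomp n hn.1
      refine ⟨⟨(b, r), m⟩, fun _ _ => ⟨?_, hr, e⟩⟩
      have hr0 : 1 ≤ r := hr.pos
      have hm0 : 1 ≤ m := hm.pos
      have h2 : 2 ^ b * r ^ 2 * m = n := by rw [← e]; ring
      have h3 : 2 ^ b * r ^ 2 ≤ n := by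
        rw [← h2]; exact Nat.le_mul_of_pos_right _ hm0
      rw [Finset.mem_sigma]
      constructor
      · unfold GkT
        rw [Finset.mem_filter, Finset.mem_product, Finset.mem_range, Finset.mem_Icc]
        have h4 : b < 2 ^ b := Nat.lt_two_pow_self
        have h5 : 2 ^ b ≤ 2 ^ b * r ^ 2 := Nat.le_mul_of_pos_right _ (by positivity)
        have h6 : r ≤ r ^ 2 := by nlinarith
        have h7 : r ^ 2 ≤ 2 ^ b * r ^ 2 := Nat.le_mul_of_pos_left _ (by positivity)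
        exact ⟨⟨by simp only; omega, hr0, by simp only; omega⟩, by simp only; omega⟩
      · unfold osf
        rw [Finset.mem_filter, Finset.mem_Icc]
        refine ⟨⟨hm0, ?_⟩, hm, hsq⟩
        rw [Nat.le_div_iff_mul_le (by positivity)]
        simp only
        calc m * (2 ^ b * r ^ 2) = n := by rw [← h2]; ring
          _ ≤ K := hn.2
    · exact ⟨⟨(0, 0), 0⟩, fun h2 h3 => absurd ⟨h2, h3⟩ hn⟩
  choose g hg using h1
  rw [Finset.sum_sigma' (GkT K) (fun p => osf (K / (2 ^ p.1 * p.2 ^ 2)))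
    (fun p m => if Odd p.2 then F (2 ^ p.1 * (m * p.2 ^ 2)) else 0)]
  have e : ∑ n ∈ Finset.Icc 1 K, F n = ∑ x ∈ (Finset.Icc 1 K).image g,
      (if Odd x.1.2 then F (2 ^ x.1.1 * (x.2 * x.1.2 ^ 2)) else 0) := by
    rw [Finset.sum_image]
    · refine Finset.sum_congr rfl fun n hn => ?_
      rw [Finset.mem_Icc] at hn
      obtain ⟨h2, h3, h4⟩ := hg n hn.1 hn.2
      rw [if_pos h3, h4]
    · intro n hn n' hn' h
      rw [Finset.mem_coe, Finset.mem_Icc] at hn hn'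
      obtain ⟨-, -, h4⟩ := hg n hn.1 hn.2
      obtain ⟨-, -, h5⟩ := hg n' hn'.1 hn'.2
      rw [← h4, ← h5, h]
  rw [e]
  apply Finset.sum_le_sum_of_subset_of_nonneg
  · intro x hx
    obtain ⟨n, hn, rfl⟩ := Finset.mem_image.1 hx
    rw [Finset.mem_Icc] at hn
    exact (hg n hn.1 hn.2).1
  · intro x _ _
    split_ifs
    · exact hF _
    · exact le_rfl

/-- the eight families -/
def gkFam (i : Fin 8) : FD :=
  ![F8 1, F4 1, F1 1 1, F1 1 5, F8 (-1), F4 (-1), F1 (-1) 1, F1 (-1) 5] i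

theorem gkFam_of {φ : FD} (h : Fam φ) : ∃ i, φ = gkFam i := by
  obtain ⟨ε, hε, h⟩ := h
  rcases hε with rfl | rfl
  · rcases h with h | h | h | h
    · exact ⟨0, h⟩
    · exact ⟨1, h⟩
    · exact ⟨2, h⟩
    · exact ⟨3, h⟩
  · rcases h with h | h | h | h
    · exact ⟨4, h⟩
    · exact ⟨5, h⟩
    · exact ⟨6, h⟩
    · exact ⟨7, h⟩

theorem gkFam_eta (i : Fin 8) : |(gkFam i).η| ≤ 1 := by
  fin_cases i <;> simp [gkFam, F8, F4, F1]

theorem gkFam_r (i : Fin 8) : 1 ≤ (gkFam i).r := by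
  fin_cases i <;> simp [gkFam, F8, F4, F1]

theorem gk_fix {M N : ℕ} {B : ℝ} (hB : 0 ≤ B) (h : LSB M N B) (φ : FD) (hη : |φ.η| ≤ 1)
    (D : Finset ℕ) (dd : ℕ → ℕ) (hd : ∀ q ∈ D, dd q ∈ sqf M)
    (hinj : ∀ q ∈ D, ∀ q' ∈ D, dd q = dd q' → q = q') (c : ℕ → ℂ) (v r : ℕ) (hr : Odd r) :
    ∑ m ∈ osf N, ‖∑ q ∈ D, c q * ((cf φ (dd q) (2 ^ v * (m * r ^ 2)) : ℝ) : ℂ)‖ ^ 2 ≤
      B * ∑ q ∈ D, ‖c q‖ ^ 2 := by
  have h1 := gk_dual2 hB h D dd hd hinj (fun q => c q * ((js (dd q) r ^ 2 : ℝ) : ℂ))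
  have h2 : ∑ q ∈ D, ‖c q * ((js (dd q) r ^ 2 : ℝ) : ℂ)‖ ^ 2 ≤ ∑ q ∈ D, ‖c q‖ ^ 2 := by
    refine Finset.sum_le_sum fun q _ => ?_
    rw [norm_mul, mul_pow]
    apply mul_le_of_le_one_right (by positivity)
    rw [Complex.norm_real, Real.norm_eq_abs, abs_pow]
    exact pow_le_one₀ (by positivity) (pow_le_one₀ (abs_nonneg _) (gk_js_abs _ _))
  refine le_trans ?_ (h1.trans (mul_le_mul_of_nonneg_left h2 hB))
  refine Finset.sum_le_sum fun m hm => ?_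
  unfold osf at hm
  rw [Finset.mem_filter, Finset.mem_Icc] at hm
  obtain ⟨⟨hm1, hm2⟩, hmo, hms⟩ := hm
  have e : ∑ q ∈ D, c q * ((cf φ (dd q) (2 ^ v * (m * r ^ 2)) : ℝ) : ℂ) =
      ((φ.η ^ v * (js φ.e m * js φ.e r ^ 2) : ℝ) : ℂ) *
        ∑ q ∈ D, c q * ((js (dd q) r ^ 2 : ℝ) : ℂ) * (js (dd q) m : ℂ) := by
    rw [Finset.mul_sum]
    refine Finset.sum_congr rfl fun q _ => ?_
    have e1 : cf φ (dd q) (2 ^ v * (m * r ^ 2)) =
        φ.η ^ v * ((js φ.e m * js (dd q) m) * (js φ.e r * js (dd q) r) ^ 2) := by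
      rw [cf_eq φ _ _ _ (hmo.mul (hr.pow))]
      congr 1
      rw [← gk_js_mul, ← gk_js_mul, ← gk_js_right _ _ _ (by omega) hr.pos.ne']
      rfl
    rw [e1]
    push_cast
    ring
  rw [e, norm_mul, mul_pow]
  apply mul_le_of_le_one_left (by positivity)
  rw [Complex.norm_real, Real.norm_eq_abs, abs_mul, abs_mul, abs_pow, abs_pow]
  apply pow_le_one₀ (by positivity)
  apply mul_le_one₀ (pow_le_one₀ (abs_nonneg _) hη) (by positivity)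
  exact mul_le_one₀ (gk_js_abs _ _) (by positivity) (pow_le_one₀ (abs_nonneg _) (gk_js_abs _ _))

theorem gk : S_GK := by
  classical
  intro ε hε
  obtain ⟨C1, hC1, H⟩ := HBLS ε hε
  refine ⟨64 * C1 * 2 ^ ε, by positivity, fun s X K c hs hX hK => ?_⟩
  -- the classification
  have hcl : ∀ q : ℕ, ∃ (i : Fin 8) (d : ℕ), Is s q → Squarefree d ∧ q = (gkFam i).r * d ∧
      ∀ n : ℕ, n ≠ 0 → vl s q n = ((cf (gkFam i) d n : ℝ) : ℂ) := by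
    intro q
    by_cases hq : Is s q
    · have h1 : Rp s (ch s q) := by
        unfold ch
        rw [dif_pos hq]
        exact hq.2.choose_spec
      obtain ⟨φ, d, h2, -, h3, h4, h5⟩ := CLS q (by have := hq.1; omega) (ch s q) h1.1 h1.2.1 h1.2.2.1
      obtain ⟨i, rfl⟩ := gkFam_of h2
      exact ⟨i, d, fun _ => ⟨h3, h4, h5⟩⟩
    · exact ⟨0, 0, fun h => absurd h hq⟩
  choose ii dd hdd using hcl
  obtain ⟨M, hM⟩ : ∃ M : ℕ, M = ⌈X⌉₊ := ⟨_, rfl⟩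
  have hMX : X ≤ M := by rw [hM]; exact Nat.le_ceil X
  have hM2 : (M : ℝ) ≤ 2 * X := by
    have := Nat.ceil_lt_add_one (a := X) (by linarith)
    rw [hM]
    linarith
  have hM1 : 1 ≤ M := by
    have : (1 : ℝ) ≤ M := hX.trans hMX
    exact_mod_cast this
  have hQ : ∀ q ∈ Q s X, Is s q ∧ q < M := by
    intro q hq
    unfold Q at hq
    rw [Finset.mem_filter, Finset.mem_Ico] at hq
    exact ⟨hq.2, by rw [hM]; exact hq.1.2⟩
  have hK1 : (1 : ℝ) ≤ K := by exact_mod_cast hK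
  -- one pair
  have hone : ∀ p ∈ GkT K, (∑ m ∈ osf (K / (2 ^ p.1 * p.2 ^ 2)),
      if Odd p.2 then ‖∑ q ∈ Q s X, c q * vl s q (2 ^ p.1 * (m * p.2 ^ 2))‖ ^ 2 else 0) ≤
      (8 * C1 * (2 ^ ε * (X * K) ^ ε) * ∑ q ∈ Q s X, ‖c q‖ ^ 2) *
        (2 * X + K * (1 / (2 ^ p.1 * (p.2 : ℝ) ^ 2))) := by
    intro p hp
    unfold GkT at hp
    rw [Finset.mem_filter, Finset.mem_product, Finset.mem_range, Finset.mem_Icc] at hp
    obtain ⟨⟨h1, h2, h3⟩, h4⟩ := hp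
    obtain ⟨N, hN⟩ : ∃ N : ℕ, N = K / (2 ^ p.1 * p.2 ^ 2) := ⟨_, rfl⟩
    have hpos : 0 < 2 ^ p.1 * p.2 ^ 2 := by positivity
    have hN1 : 1 ≤ N := by
      rw [hN, Nat.one_le_div_iff hpos]
      exact h4
    have hNK : (N : ℝ) ≤ K * (1 / (2 ^ p.1 * (p.2 : ℝ) ^ 2)) := by
      rw [hN, mul_one_div]
      have := Nat.cast_div_le (α := ℝ) (m := K) (n := 2 ^ p.1 * p.2 ^ 2)
      push_cast at this
      exact this
    have hNK' : (N : ℝ) ≤ K := by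
      rw [hN]
      exact_mod_cast Nat.div_le_self _ _
    rw [← hN]
    have hS0 : 0 ≤ ∑ q ∈ Q s X, ‖c q‖ ^ 2 := Finset.sum_nonneg fun _ _ => by positivity
    obtain ⟨B, hB⟩ : ∃ B : ℝ, B = C1 * ((M : ℝ) * N) ^ ε * (M + N) := ⟨_, rfl⟩
    have hB0 : 0 ≤ B := by rw [hB]; positivity
    have hL : LSB M N B := by rw [hB]; exact H M N hM1 hN1
    have hBle : B ≤ C1 * (2 ^ ε * (X * K) ^ ε) * (2 * X + K * (1 / (2 ^ p.1 * (p.2 : ℝ) ^ 2))) := by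
      rw [hB]
      have h5 : ((M : ℝ) * N) ^ ε ≤ 2 ^ ε * (X * K) ^ ε := by
        rw [← Real.mul_rpow (by norm_num) (by positivity)]
        apply Real.rpow_le_rpow (by positivity) _ hε.le
        calc (M : ℝ) * N ≤ (2 * X) * K := mul_le_mul hM2 hNK' (by positivity) (by positivity)
          _ = 2 * (X * K) := by ring
      apply mul_le_mul _ (add_le_add hM2 hNK) (by positivity) (by positivity)
      exact mul_le_mul_of_nonneg_left h5 hC1.le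
    by_cases ho : Odd p.2
    · simp only [if_pos ho]
      have hn0 : ∀ m ∈ osf N, 2 ^ p.1 * (m * p.2 ^ 2) ≠ 0 := by
        intro m hm
        unfold osf at hm
        rw [Finset.mem_filter, Finset.mem_Icc] at hm
        have : 0 < m := hm.1.1
        positivity
      have h5 : ∀ m ∈ osf N, ‖∑ q ∈ Q s X, c q * vl s q (2 ^ p.1 * (m * p.2 ^ 2))‖ ^ 2 ≤
          8 * ∑ i : Fin 8, ‖∑ q ∈ (Q s X).filter (fun q => ii q = i),
            c q * ((cf (gkFam i) (dd q) (2 ^ p.1 * (m * p.2 ^ 2)) : ℝ) : ℂ)‖ ^ 2 := by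
        intro m hm
        have e : ∑ q ∈ Q s X, c q * vl s q (2 ^ p.1 * (m * p.2 ^ 2)) =
            ∑ i : Fin 8, ∑ q ∈ (Q s X).filter (fun q => ii q = i),
              c q * ((cf (gkFam i) (dd q) (2 ^ p.1 * (m * p.2 ^ 2)) : ℝ) : ℂ) := by
          rw [← Finset.sum_fiberwise (Q s X) ii]
          refine Finset.sum_congr rfl fun i _ => Finset.sum_congr rfl fun q hq => ?_
          rw [Finset.mem_filter] at hq
          rw [(hdd q (hQ q hq.1).1).2.2 _ (hn0 m hm), hq.2]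
        rw [e]
        have h6 : ‖∑ i : Fin 8, ∑ q ∈ (Q s X).filter (fun q => ii q = i),
            c q * ((cf (gkFam i) (dd q) (2 ^ p.1 * (m * p.2 ^ 2)) : ℝ) : ℂ)‖ ^ 2 ≤
            (∑ i : Fin 8, ‖∑ q ∈ (Q s X).filter (fun q => ii q = i),
              c q * ((cf (gkFam i) (dd q) (2 ^ p.1 * (m * p.2 ^ 2)) : ℝ) : ℂ)‖) ^ 2 :=
          pow_le_pow_left₀ (norm_nonneg _) (norm_sum_le _ _) 2
        refine h6.trans ?_
        have h7 := sq_sum_le_card_mul_sum_sq (s := (Finset.univ : Finset (Fin 8)))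
          (f := fun i => ‖∑ q ∈ (Q s X).filter (fun q => ii q = i),
              c q * ((cf (gkFam i) (dd q) (2 ^ p.1 * (m * p.2 ^ 2)) : ℝ) : ℂ)‖)
        rw [Finset.card_univ, Fintype.card_fin] at h7
        exact_mod_cast h7
      refine (Finset.sum_le_sum h5).trans ?_
      rw [← Finset.mul_sum, Finset.sum_comm]
      have h6 : ∀ i : Fin 8, ∑ m ∈ osf N, ‖∑ q ∈ (Q s X).filter (fun q => ii q = i),
            c q * ((cf (gkFam i) (dd q) (2 ^ p.1 * (m * p.2 ^ 2)) : ℝ) : ℂ)‖ ^ 2 ≤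
          B * ∑ q ∈ (Q s X).filter (fun q => ii q = i), ‖c q‖ ^ 2 := by
        intro i
        apply gk_fix hB0 hL (gkFam i) (gkFam_eta i) _ dd _ _ c p.1 p.2 ho
        · intro q hq
          rw [Finset.mem_filter] at hq
          obtain ⟨g1, g2⟩ := hQ q hq.1
          obtain ⟨g3, g4, -⟩ := hdd q g1
          unfold sqf
          rw [Finset.mem_filter, Finset.mem_Icc]
          have g5 : dd q ≠ 0 := g3.ne_zero
          have g6 : dd q ≤ (gkFam (ii q)).r * dd q := Nat.le_mul_of_pos_left _ (gkFam_r _)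
          exact ⟨⟨by omega, by omega⟩, g3⟩
        · intro q hq q' hq' h
          rw [Finset.mem_filter] at hq hq'
          rw [(hdd q (hQ q hq.1).1).2.1, (hdd q' (hQ q' hq'.1).1).2.1, hq.2, hq'.2, h]
      have h7 : ∑ i : Fin 8, ∑ m ∈ osf N, ‖∑ q ∈ (Q s X).filter (fun q => ii q = i),
            c q * ((cf (gkFam i) (dd q) (2 ^ p.1 * (m * p.2 ^ 2)) : ℝ) : ℂ)‖ ^ 2 ≤
          B * ∑ q ∈ Q s X, ‖c q‖ ^ 2 := by
        refine (Finset.sum_le_sum fun i _ => h6 i).trans (le_of_eq ?_)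
        rw [← Finset.mul_sum, Finset.sum_fiberwise]
      calc _ ≤ 8 * (B * ∑ q ∈ Q s X, ‖c q‖ ^ 2) := mul_le_mul_of_nonneg_left h7 (by norm_num)
        _ ≤ 8 * ((C1 * (2 ^ ε * (X * K) ^ ε) * (2 * X + K * (1 / (2 ^ p.1 * (p.2 : ℝ) ^ 2)))) *
            ∑ q ∈ Q s X, ‖c q‖ ^ 2) := by
            apply mul_le_mul_of_nonneg_left _ (by norm_num)
            exact mul_le_mul_of_nonneg_right hBle hS0
        _ = _ := by ring
    · simp only [if_neg ho, Finset.sum_const_zero]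
      positivity
  refine (gk_sum_decomp K (fun n => ‖∑ q ∈ Q s X, c q * vl s q n‖ ^ 2) (fun n => by positivity)).trans ?_
  refine (Finset.sum_le_sum hone).trans ?_
  rw [← Finset.mul_sum, Finset.sum_add_distrib, Finset.sum_const, ← Finset.mul_sum, nsmul_eq_mul]
  have h1 := gkT_card K
  have h2 := gkT_sum K
  have hS0 : 0 ≤ ∑ q ∈ Q s X, ‖c q‖ ^ 2 := Finset.sum_nonneg fun _ _ => by positivity
  have h3 : ((GkT K).card : ℝ) * (2 * X) + K * ∑ p ∈ GkT K, (1 : ℝ) / (2 ^ p.1 * (p.2 : ℝ) ^ 2) ≤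
      8 * (X * √K + K) := by
    have h4 : ((GkT K).card : ℝ) * (2 * X) ≤ (4 * √K) * (2 * X) :=
      mul_le_mul_of_nonneg_right h1 (by linarith)
    have h5 : (K : ℝ) * ∑ p ∈ GkT K, (1 : ℝ) / (2 ^ p.1 * (p.2 : ℝ) ^ 2) ≤ K * 4 :=
      mul_le_mul_of_nonneg_left h2 (by linarith)
    nlinarith
  calc _ ≤ (8 * C1 * (2 ^ ε * (X * K) ^ ε) * ∑ q ∈ Q s X, ‖c q‖ ^ 2) * (8 * (X * √K + K)) :=
        mul_le_mul_of_nonneg_left h3 (by positivity)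
    _ = _ := by ring

/-- GK -/
theorem t_GK (_hU : S_UNI) : S_GK := gk

end

end Pool.Agent.N879.QM
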