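import Mathlib
import Pool.Agent.N879.QM.Stm
import Pool.Agent.Helper112.MultLS

set_option autoImplicit false

/-!
Large sieve for sums over short blocks over the family of real primitive characters.
-/

namespace Pool.Agent.N879.QM

namespace Lsb

open Finset
open Pool.Agent.Helper112 (ee additive_large_sieve)
open Pool.Agent.Helper112.MLS (T parseval norm_gauss sum_units norm_char)

/-- duality -/
theorem dual {ι κ : Type*} (S : Finset ι) (R : Finset κ) (b : ι → κ → ℂ) (D : ℝ)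
    (h : ∀ y : κ → ℂ, ∑ i ∈ S, ‖∑ x ∈ R, y x * b i x‖ ^ 2 ≤ D * ∑ x ∈ R, ‖y x‖ ^ 2) (c : ι → ℂ)
    (hD : 0 ≤ D) :
    ∑ x ∈ R, ‖∑ i ∈ S, c i * b i x‖ ^ 2 ≤ D * ∑ i ∈ S, ‖c i‖ ^ 2 := by
  set z : κ → ℂ := fun x => ∑ i ∈ S, c i * b i x with hz
  set S0 : ℝ := ∑ x ∈ R, ‖z x‖ ^ 2 with hS0
  have hS0n : 0 ≤ S0 := sum_nonneg fun _ _ => sq_nonneg _
  have h1 : (S0 : ℂ) = ∑ i ∈ S, c i * ∑ x ∈ R, (starRingEnd ℂ) (z x) * b i x := by
    rw [hS0]
    push_cast
    simp_rw [mul_sum]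
    rw [sum_comm]
    refine sum_congr rfl fun x _ => ?_
    rw [← Complex.conj_mul' (z x)]
    conv_lhs => rw [show z x = ∑ i ∈ S, c i * b i x from rfl]
    rw [mul_sum]
    refine sum_congr rfl fun i _ => ?_
    rw [← show z x = ∑ i ∈ S, c i * b i x from rfl]
    ring
  have h2 : S0 ≤ ∑ i ∈ S, ‖c i‖ * ‖∑ x ∈ R, (starRingEnd ℂ) (z x) * b i x‖ := by
    have e : S0 = ‖(S0 : ℂ)‖ := by rw [Complex.norm_real, Real.norm_of_nonneg hS0n]
    rw [e, h1]
    refine (norm_sum_le _ _).trans (le_of_eq ?_)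
    exact sum_congr rfl fun i _ => norm_mul _ _
  have h3 := h fun x => (starRingEnd ℂ) (z x)
  simp only [RCLike.norm_conj] at h3
  have h4 := sum_mul_sq_le_sq_mul_sq S (fun i => ‖c i‖)
    fun i => ‖∑ x ∈ R, (starRingEnd ℂ) (z x) * b i x‖
  have h5 : S0 ^ 2 ≤ (∑ i ∈ S, ‖c i‖ ^ 2) * (D * S0) := by
    refine (pow_le_pow_left₀ hS0n h2 2).trans (h4.trans ?_)
    exact mul_le_mul_of_nonneg_left h3 (sum_nonneg fun _ _ => sq_nonneg _)
  rcases hS0n.eq_or_lt with h0 | h0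
  · rw [← h0]
    exact mul_nonneg hD (sum_nonneg fun _ _ => sq_nonneg _)
  · have h6 : S0 * S0 ≤ (D * ∑ i ∈ S, ‖c i‖ ^ 2) * S0 := by
      calc S0 * S0 = S0 ^ 2 := by ring
        _ ≤ _ := h5
        _ = _ := by ring
    exact le_of_mul_le_mul_right h6 h0

/-- geometric sums -/
noncomputable def E (q : ℕ) [NeZero q] (t : ℕ) (a : ZMod q) : ℂ :=
  ∑ i ∈ range t, ZMod.stdAddChar (a * ((i + 1 : ℕ) : ZMod q))

theorem E_mod (q : ℕ) [NeZero q] (t : ℕ) {a : ZMod q} (ha : a ≠ 0) : E q t a = E q (t % q) a := by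
  set ζ : ℂ := ZMod.stdAddChar a with hζ
  have h0 : ζ ≠ 1 := by
    intro h
    apply ha
    apply ZMod.injective_stdAddChar (N := q)
    rw [← hζ, h, AddChar.map_zero_eq_one]
  have hp : ∀ n : ℕ, ZMod.stdAddChar (a * (n : ZMod q)) = ζ ^ n := by
    intro n
    rw [mul_comm, ← nsmul_eq_mul, AddChar.map_nsmul_eq_pow]
  have hq : ζ ^ q = 1 := by
    rw [← hp, ZMod.natCast_self, mul_zero, AddChar.map_zero_eq_one]
  have hs : ∀ t, E q t a = ζ * ((ζ ^ t - 1) / (ζ - 1)) := by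
    intro t
    unfold E
    simp_rw [hp, pow_succ']
    rw [← mul_sum, geom_sum_eq h0]
  rw [hs, hs, pow_eq_pow_mod t hq]

theorem E_sq (q : ℕ) [NeZero q] {t : ℕ} (ht : t ≤ q) : ∑ a : ZMod q, ‖E q t a‖ ^ 2 ≤ q * t := by
  classical
  set N : ZMod q → ℕ := fun b => ((range t).filter fun i => ((i + 1 : ℕ) : ZMod q) = b).card with hN
  have hN1 : ∀ b, N b ≤ 1 := by
    intro b
    rw [hN, card_le_one]
    intro i hi j hj
    rw [mem_filter, mem_range] at hi hj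
    have h1 : ((i + 1 : ℕ) : ZMod q) = ((j + 1 : ℕ) : ZMod q) := hi.2.trans hj.2.symm
    rw [ZMod.natCast_eq_natCast_iff] at h1
    have h2 : i ≡ j [MOD q] := Nat.ModEq.add_right_cancel' 1 h1
    unfold Nat.ModEq at h2
    rwa [Nat.mod_eq_of_lt (by omega), Nat.mod_eq_of_lt (by omega)] at h2
  have hE : ∀ a : ZMod q, E q t a = ∑ b : ZMod q, (N b : ℂ) * ZMod.stdAddChar (a * b) := by
    intro a
    unfold E
    rw [← sum_fiberwise (range t) (fun i => ((i + 1 : ℕ) : ZMod q))]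
    refine sum_congr rfl fun b _ => ?_
    have hNb : (N b : ℂ) = ∑ _i ∈ (range t).filter (fun i => ((i + 1 : ℕ) : ZMod q) = b), (1 : ℂ) := by
      rw [sum_const, nsmul_eq_mul, mul_one]
    rw [hNb, sum_mul]
    refine sum_congr rfl fun i hi => ?_
    rw [mem_filter] at hi
    rw [← hi.2]
    push_cast
    ring
  simp_rw [hE]
  rw [parseval q fun b => (N b : ℂ)]
  apply mul_le_mul_of_nonneg_left _ (by positivity)
  have h1 : ∑ b : ZMod q, ‖(N b : ℂ)‖ ^ 2 ≤ ∑ b : ZMod q, (N b : ℝ) := by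
    refine sum_le_sum fun b _ => ?_
    rw [Complex.norm_natCast]
    have h2 : (N b : ℝ) ≤ 1 := by exact_mod_cast hN1 b
    have h3 : (0 : ℝ) ≤ N b := Nat.cast_nonneg _
    nlinarith
  refine h1.trans (le_of_eq ?_)
  have h4 : ∑ b : ZMod q, N b = t := by
    rw [hN]
    have := card_eq_sum_card_fiberwise (s := range t) (t := (univ : Finset (ZMod q)))
      (f := fun i => ((i + 1 : ℕ) : ZMod q)) (fun _ _ => mem_coe.2 (mem_univ _))
    rw [card_range] at this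
    exact this.symm
  exact_mod_cast h4

theorem E_ne (q : ℕ) [NeZero q] (t : ℕ) :
    ∑ a ∈ (univ : Finset (ZMod q)).filter (fun a => a ≠ 0), ‖E q t a‖ ^ 2 ≤ q * t := by
  have h1 : ∑ a ∈ (univ : Finset (ZMod q)).filter (fun a => a ≠ 0), ‖E q t a‖ ^ 2 =
      ∑ a ∈ (univ : Finset (ZMod q)).filter (fun a => a ≠ 0), ‖E q (t % q) a‖ ^ 2 :=
    sum_congr rfl fun a ha => by rw [E_mod q t (mem_filter.1 ha).2]
  rw [h1]
  have h2 : t % q ≤ q := (Nat.mod_lt _ (NeZero.pos q)).le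
  calc _ ≤ ∑ a : ZMod q, ‖E q (t % q) a‖ ^ 2 :=
        sum_le_sum_of_subset_of_nonneg (filter_subset _ _) fun _ _ _ => sq_nonneg _
    _ ≤ q * (t % q : ℕ) := E_sq q h2
    _ ≤ q * t := by
        apply mul_le_mul_of_nonneg_left _ (by positivity)
        exact_mod_cast Nat.mod_le _ _

theorem ch_spec {s : ℤ} {q : ℕ} (h : Is s q) : Rp s (ch s q) := by
  unfold ch
  rw [dif_pos h]
  exact h.2.choose_spec

theorem ioc_sum {β : Type*} [AddCommMonoid β] (f : ℕ → β) (x t : ℕ) :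
    ∑ n ∈ Ioc x (x + t), f n = ∑ i ∈ range t, f (x + (i + 1)) := by
  have h1 : Ioc x (x + t) = Ico (x + 1) (x + t + 1) := by
    ext n; simp only [mem_Ioc, mem_Ico]; omega
  rw [h1, sum_Ico_eq_sum_range]
  have h2 : x + t + 1 - (x + 1) = t := by omega
  rw [h2]
  exact sum_congr rfl fun i _ => by congr 1; omega

/-- one character, dual form -/
theorem one {s : ℤ} {q : ℕ} (h : Is s q) [NeZero q] (M K t : ℕ) (y : ℕ → ℂ) :
    ‖∑ x ∈ Ioc M (M + K), y x * ∑ n ∈ Ioc x (x + t), vl s q n‖ ^ 2 ≤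
      t * ∑ a ∈ (range q).filter (fun a => a.Coprime q),
        ‖∑ n ∈ Icc 1 K, y (M + n) * ee (n * a / q)‖ ^ 2 := by
  classical
  obtain ⟨hp, hsq, hne, -⟩ := ch_spec h
  set χ := ch s q with hχ
  have hinv : χ⁻¹ = χ := by
    rw [inv_eq_iff_mul_eq_one, ← pow_two]; exact hsq
  set τ := gaussSum χ (ZMod.stdAddChar : AddChar (ZMod q) ℂ) with hτ
  have hτn : ‖τ‖ ^ 2 = q := norm_gauss q hp
  have hq0 : (0 : ℝ) < q := by exact_mod_cast NeZero.pos q
  have hg : ∀ n : ZMod q, χ n * τ = ∑ a : ZMod q, χ a * ZMod.stdAddChar (n * a) := by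
    intro n
    have := gaussSum_mulShift_of_isPrimitive (ZMod.stdAddChar : AddChar (ZMod q) ℂ) hp n
    rw [hinv] at this
    rw [hτ, ← this]
    rfl
  set Y : ZMod q → ℂ := T q K fun n => y (M + n) with hY
  -- the sum times the Gauss sum
  have h1 : (∑ x ∈ Ioc M (M + K), y x * ∑ n ∈ Ioc x (x + t), vl s q n) * τ =
      ∑ a : ZMod q, χ a * (E q t a * (ZMod.stdAddChar ((M : ZMod q) * a) * Y a)) := by
    have h2 : ∀ x, (∑ n ∈ Ioc x (x + t), vl s q n) * τ =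
        ∑ a : ZMod q, χ a * (E q t a * ZMod.stdAddChar ((x : ZMod q) * a)) := by
      intro x
      rw [ioc_sum, sum_mul]
      have h3 : ∀ i, vl s q (x + (i + 1)) * τ = ∑ a : ZMod q, χ a *
          (ZMod.stdAddChar (a * ((i + 1 : ℕ) : ZMod q)) * ZMod.stdAddChar ((x : ZMod q) * a)) := by
        intro i
        unfold vl
        rw [← hχ, hg]
        refine sum_congr rfl fun a _ => ?_
        rw [← AddChar.map_add_eq_mul]
        congr 2
        push_cast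
        ring
      simp_rw [h3]
      rw [sum_comm]
      refine sum_congr rfl fun a _ => ?_
      unfold E
      rw [sum_mul, mul_sum]
    rw [sum_mul]
    have h4 : ∀ x ∈ Ioc M (M + K), y x * (∑ n ∈ Ioc x (x + t), vl s q n) * τ =
        ∑ a : ZMod q, χ a * (E q t a * (y x * ZMod.stdAddChar ((x : ZMod q) * a))) := by
      intro x _
      rw [mul_assoc, h2, mul_sum]
      exact sum_congr rfl fun a _ => by ring
    rw [sum_congr rfl h4, sum_comm]
    refine sum_congr rfl fun a _ => ?_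
    rw [← mul_sum, ← mul_sum]
    congr 2
    rw [ioc_sum (fun x => y x * ZMod.stdAddChar ((x : ZMod q) * a)), hY, T, mul_sum]
    have h5 : Icc 1 K = Ioc 0 (0 + K) := by ext n; simp only [mem_Icc, mem_Ioc]; omega
    rw [h5, ioc_sum]
    refine sum_congr rfl fun i _ => ?_
    rw [zero_add]
    have h6 : ZMod.stdAddChar (((M + (i + 1) : ℕ) : ZMod q) * a) =
        ZMod.stdAddChar ((M : ZMod q) * a) * ZMod.stdAddChar (a * ((i + 1 : ℕ) : ZMod q)) := by
      rw [← AddChar.map_add_eq_mul]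
      congr 1
      push_cast
      ring
    rw [h6]
    ring
  -- norms
  have h7 : ‖∑ x ∈ Ioc M (M + K), y x * ∑ n ∈ Ioc x (x + t), vl s q n‖ ^ 2 * q =
      ‖∑ a : ZMod q, χ a * (E q t a * (ZMod.stdAddChar ((M : ZMod q) * a) * Y a))‖ ^ 2 := by
    rw [← h1, norm_mul, mul_pow, hτn]
  have hu : ∀ a : ZMod q, IsUnit a → a ≠ 0 := by
    rintro a ha rfl
    have h2 : 2 ≤ q := h.1
    haveI : Fact (1 < q) := ⟨by omega⟩
    exact not_isUnit_zero ha
  have h8 : ‖∑ a : ZMod q, χ a * (E q t a * (ZMod.stdAddChar ((M : ZMod q) * a) * Y a))‖ ≤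
      ∑ a ∈ (univ : Finset (ZMod q)).filter (fun a => IsUnit a), ‖E q t a‖ * ‖Y a‖ := by
    refine (norm_sum_le _ _).trans ?_
    rw [sum_filter]
    refine sum_le_sum fun a _ => ?_
    rw [norm_mul, norm_mul, norm_mul, norm_char]
    have h9 : ‖(ZMod.stdAddChar ((M : ZMod q) * a) : ℂ)‖ = 1 := AddChar.norm_apply _ _
    rw [h9]
    split_ifs
    · linarith
    · linarith
  have h10 := sum_mul_sq_le_sq_mul_sq ((univ : Finset (ZMod q)).filter (fun a => IsUnit a))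
    (fun a => ‖E q t a‖) fun a => ‖Y a‖
  have h11 : ∑ a ∈ (univ : Finset (ZMod q)).filter (fun a => IsUnit a), ‖E q t a‖ ^ 2 ≤ q * t := by
    refine (sum_le_sum_of_subset_of_nonneg ?_ fun _ _ _ => sq_nonneg _).trans (E_ne q t)
    intro a ha
    rw [mem_filter] at ha ⊢
    exact ⟨ha.1, hu a ha.2⟩
  have h12 : ∑ a ∈ (univ : Finset (ZMod q)).filter (fun a => IsUnit a), ‖Y a‖ ^ 2 =
      ∑ a : (ZMod q)ˣ, ‖Y a‖ ^ 2 := by
    symm
    apply sum_bij (fun (a : (ZMod q)ˣ) _ => (a : ZMod q))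
    · intro a _; simp
    · intro a _ b _ hab; exact Units.ext hab
    · intro b hb
      rw [mem_filter] at hb
      exact ⟨hb.2.unit, mem_univ _, rfl⟩
    · intro a _; rfl
  rw [hY, sum_units] at h12
  have h13 : ‖∑ x ∈ Ioc M (M + K), y x * ∑ n ∈ Ioc x (x + t), vl s q n‖ ^ 2 * q ≤
      (q * t) * ∑ a ∈ (range q).filter (fun a => a.Coprime q),
        ‖∑ n ∈ Icc 1 K, y (M + n) * ee (n * a / q)‖ ^ 2 := by
    rw [h7]
    refine (pow_le_pow_left₀ (norm_nonneg _) h8 2).trans (h10.trans ?_)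
    rw [← h12]
    exact mul_le_mul_of_nonneg_right h11 (sum_nonneg fun _ _ => sq_nonneg _)
  refine le_of_mul_le_mul_right (h13.trans (le_of_eq ?_)) hq0
  ring

end Lsb

open Lsb Finset in
theorem t_LSB : S_LSB := by
  refine ⟨24, by norm_num, ?_⟩
  intro s X c M K t _ hX hK
  classical
  have hX0 : 0 < X := by linarith
  have hF : ((⌈X⌉₊ : ℕ) : ℝ) ^ 2 ≤ 4 * X ^ 2 := by
    have h1 := (Nat.ceil_lt_add_one hX0.le).le
    have h2 : ((⌈X⌉₊ : ℕ) : ℝ) ≤ 2 * X := by linarith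
    have h3 : (0 : ℝ) ≤ ((⌈X⌉₊ : ℕ) : ℝ) := Nat.cast_nonneg _
    nlinarith
  set D : ℝ := t * (6 * (K + ((⌈X⌉₊ : ℕ) : ℝ) ^ 2)) with hD
  have hD0 : 0 ≤ D := by positivity
  have hmain := dual (Q s X) (Ioc M (M + K))
    (fun q x => ∑ n ∈ Ioc x (x + t), vl s q n) D ?_ c hD0
  · refine hmain.trans ?_
    apply mul_le_mul_of_nonneg_right _ (sum_nonneg fun _ _ => sq_nonneg _)
    have ht : (0 : ℝ) ≤ t := Nat.cast_nonneg _
    have hKn : (0 : ℝ) ≤ K := Nat.cast_nonneg _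
    have h4 : 6 * ((K : ℝ) + ((⌈X⌉₊ : ℕ) : ℝ) ^ 2) ≤ 24 * (K + X ^ 2) := by nlinarith
    calc D ≤ t * (24 * (K + X ^ 2)) := mul_le_mul_of_nonneg_left h4 ht
      _ = _ := by ring
  · intro y
    have h1 : ∑ q ∈ Q s X, ‖∑ x ∈ Ioc M (M + K), y x * ∑ n ∈ Ioc x (x + t), vl s q n‖ ^ 2 ≤
        ∑ q ∈ Q s X, t * ∑ a ∈ (range q).filter (fun a => a.Coprime q),
          ‖∑ n ∈ Icc 1 K, y (M + n) * Pool.Agent.Helper112.ee (n * a / q)‖ ^ 2 := by
      refine sum_le_sum fun q hq => ?_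
      unfold Q at hq
      rw [mem_filter, mem_Ico] at hq
      haveI : NeZero q := ⟨by omega⟩
      exact Lsb.one hq.2 M K t y
    refine h1.trans ?_
    rw [← mul_sum, hD, mul_assoc]
    apply mul_le_mul_of_nonneg_left _ (Nat.cast_nonneg _)
    have h2 := Pool.Agent.Helper112.additive_large_sieve K ⌈X⌉₊ fun n => y (M + n)
    have h3 : ∑ n ∈ Icc 1 K, ‖y (M + n)‖ ^ 2 = ∑ x ∈ Ioc M (M + K), ‖y x‖ ^ 2 := by
      have h5 : Icc 1 K = Ioc 0 (0 + K) := by ext n; simp only [mem_Icc, mem_Ioc]; omega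
      rw [h5, ioc_sum, ioc_sum (fun x => ‖y x‖ ^ 2)]
      exact sum_congr rfl fun i _ => by rw [zero_add]
    rw [h3] at h2
    refine le_trans ?_ h2
    refine sum_le_sum_of_subset_of_nonneg ?_ fun _ _ _ => sum_nonneg fun _ _ => sq_nonneg _
    intro q hq
    unfold Q at hq
    rw [mem_filter, mem_Ico] at hq
    rw [mem_Icc]
    omega

end Pool.Agent.N879.QM
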