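import Pool.Agent.N879.QM.Stm

set_option autoImplicit false

/-!
Project QM, part NS: almost all shift vectors are good.
-/

namespace Pool.Agent.N879.QM

open Complex Filter Topology MeasureTheory Set

noncomputable section

namespace NSp

lemma slab_le (T r a : ℝ) : (volume.restrict (Icc (-T) T)) {y : ℝ | |y - a| < r} ≤
    ENNReal.ofReal (2 * r) := by
  refine (Measure.restrict_apply_le _ _).trans ?_
  have : {y : ℝ | |y - a| < r} = Metric.ball a r := by
    ext y
    simp [Real.dist_eq]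
  rw [this, Real.volume_ball]

lemma pair_le {k : ℕ} (T r : ℝ) (p q : Fin k) :
    (mS k T) {γ | |γ p + γ q| < r} ≤
      ENNReal.ofReal (2 * r) * ENNReal.ofReal (2 * T) ^ (k - 1) := by
  unfold mS
  set μ : Fin k → Measure ℝ := fun _ => volume.restrict (Icc (-T) T) with hμ
  have hA : MeasurableSet {γ : Fin k → ℝ | |γ p + γ q| < r} := by
    apply measurableSet_lt
    · exact ((measurable_pi_apply p).add (measurable_pi_apply q)).abs
    · exact measurable_const
  have hf : Measurable ({γ : Fin k → ℝ | |γ p + γ q| < r}.indicator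
      (fun _ => (1 : ENNReal))) := measurable_const.indicator hA
  rw [← lintegral_indicator_one hA]
  have h0 := lintegral_eq_lmarginal_univ (μ := μ)
    (f := {γ : Fin k → ℝ | |γ p + γ q| < r}.indicator (fun _ => (1 : ENNReal))) (fun _ => 0)
  have h0' : ∫⁻ (a : Fin k → ℝ), {γ : Fin k → ℝ | |γ p + γ q| < r}.indicator 1 a ∂Measure.pi μ =
    ∫⁻ (a : Fin k → ℝ), {γ : Fin k → ℝ | |γ p + γ q| < r}.indicator (fun _ => (1 : ENNReal)) a
      ∂Measure.pi μ := rfl
  rw [h0', h0, lmarginal_erase' _ hf (Finset.mem_univ p)]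
  have h1 : (fun x : Fin k → ℝ => ∫⁻ xᵢ, {γ : Fin k → ℝ | |γ p + γ q| < r}.indicator
      (fun _ => (1 : ENNReal)) (Function.update x p xᵢ) ∂μ p) ≤
      fun _ => ENNReal.ofReal (2 * r) := by
    intro x
    have h2 : (fun xᵢ : ℝ => {γ : Fin k → ℝ | |γ p + γ q| < r}.indicator
        (fun _ => (1 : ENNReal)) (Function.update x p xᵢ)) ≤
        {y : ℝ | |y - (if p = q then 0 else -(x q))| < r}.indicator
          (fun _ => (1 : ENNReal)) := by
      intro y
      by_cases h : |Function.update x p y p + Function.update x p y q| < r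
      · have h3 : |y - (if p = q then 0 else -(x q))| < r := by
          by_cases hpq : p = q
          · subst hpq
            rw [if_pos rfl, sub_zero]
            rw [Function.update_self, ← two_mul, abs_mul, abs_two] at h
            linarith [abs_nonneg y]
          · rw [if_neg hpq, sub_neg_eq_add]
            rw [Function.update_self, Function.update_of_ne (Ne.symm hpq)] at h
            exact h
        have h4 : y ∈ {y : ℝ | |y - (if p = q then 0 else -(x q))| < r} := h3
        rw [Set.indicator_of_mem h4]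
        exact Set.indicator_le_self' (fun _ _ => zero_le) _
      · have h4 : Function.update x p y ∉ {γ : Fin k → ℝ | |γ p + γ q| < r} := h
        show {γ : Fin k → ℝ | |γ p + γ q| < r}.indicator
          (fun _ => (1 : ENNReal)) (Function.update x p y) ≤ _
        rw [Set.indicator_of_notMem h4]
        exact zero_le
    show ∫⁻ xᵢ, {γ : Fin k → ℝ | |γ p + γ q| < r}.indicator
        (fun _ => (1 : ENNReal)) (Function.update x p xᵢ) ∂μ p ≤ _
    refine (lintegral_mono h2).trans ?_
    rw [lintegral_indicator]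
    · simp only [lintegral_const, one_mul, Measure.restrict_apply_univ]
      exact slab_le T r _
    · apply measurableSet_lt
      · exact (measurable_id.sub measurable_const).abs
      · exact measurable_const
  refine (lmarginal_mono h1 _).trans ?_
  unfold lmarginal
  rw [lintegral_const, Measure.pi_univ]
  gcongr
  have h3 : ∀ i : {x // x ∈ Finset.univ.erase p}, (μ i) univ = ENNReal.ofReal (2 * T) := by
    intro i
    simp only [hμ, Measure.restrict_apply MeasurableSet.univ, univ_inter, Real.volume_Icc]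
    congr 1
    ring
  rw [Finset.prod_congr rfl (fun i _ => h3 i), Finset.prod_const, Finset.card_univ,
    Fintype.card_coe, Finset.card_erase_of_mem (Finset.mem_univ p), Finset.card_univ,
    Fintype.card_fin]

lemma ns (k : ℕ) (T : ℝ) (hT : 1 ≤ T) :
    mS k T (Gd k T)ᶜ ≤ ENNReal.ofReal ((k ^ 2 * 2 ^ (k + 1) + 1) * T ^ (k - 1 / 2 : ℝ)) := by
  have hT0 : (0 : ℝ) < T := by linarith
  set r : ℝ := 2 * T ^ (1 / 2 : ℝ) with hr
  have hr0 : 0 ≤ r := by positivity
  have hsub : (Gd k T)ᶜ ⊆ (⋃ i : Fin k, Function.eval i ⁻¹' (Icc (-T) T)ᶜ) ∪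
      ⋃ i : Fin k × Fin k, {γ : Fin k → ℝ | |γ i.1 + γ i.2| < r} := by
    intro γ hγ
    by_cases h : ∀ i, |γ i| ≤ T
    · right
      have h2 : ¬ ∀ p : Pr k, 2 * T ^ (1 / 2 : ℝ) ≤ |γ p.1.1 + γ p.1.2| := fun h2 => hγ ⟨h, h2⟩
      push Not at h2
      obtain ⟨p, h3⟩ := h2
      exact Set.mem_iUnion.2 ⟨p.1, h3⟩
    · left
      rw [not_forall] at h
      obtain ⟨i, hi⟩ := h
      refine Set.mem_iUnion.2 ⟨i, ?_⟩
      intro hi2
      exact hi (abs_le.2 hi2)
  have hnull : mS k T (⋃ i : Fin k, Function.eval i ⁻¹' (Icc (-T) T)ᶜ) = 0 := by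
    rw [measure_iUnion_null_iff]
    intro i
    apply Measure.pi_eval_preimage_null
    rw [Measure.restrict_apply measurableSet_Icc.compl]
    simp
  have hpair : ∀ i : Fin k × Fin k, mS k T {γ : Fin k → ℝ | |γ i.1 + γ i.2| < r} ≤
      ENNReal.ofReal (2 ^ (k + 1) * T ^ (k - 1 / 2 : ℝ)) := by
    rintro ⟨p, q⟩
    refine (pair_le T r p q).trans ?_
    rw [← ENNReal.ofReal_pow (by linarith), ← ENNReal.ofReal_mul (by positivity)]
    apply ENNReal.ofReal_le_ofReal
    have hk : 1 ≤ k := by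
      have := p.2
      omega
    have h5 : T ^ (k - 1 / 2 : ℝ) = T ^ (1 / 2 : ℝ) * T ^ (k - 1 : ℕ) := by
      rw [← Real.rpow_natCast, ← Real.rpow_add hT0]
      congr 1
      rw [Nat.cast_sub (by omega)]
      push_cast
      ring
    have h6 : (2 : ℝ) ^ (k + 1) = 4 * 2 ^ (k - 1) := by
      obtain ⟨j, rfl⟩ : ∃ j, k = j + 1 := ⟨k - 1, by omega⟩
      rw [Nat.add_sub_cancel]
      ring
    rw [h5, h6, hr, mul_pow]
    apply le_of_eq
    ring
  have hT1 : 0 ≤ T ^ (k - 1 / 2 : ℝ) := by positivity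
  calc mS k T (Gd k T)ᶜ ≤ mS k T ((⋃ i : Fin k, Function.eval i ⁻¹' (Icc (-T) T)ᶜ) ∪
      ⋃ i : Fin k × Fin k, {γ : Fin k → ℝ | |γ i.1 + γ i.2| < r}) := measure_mono hsub
    _ ≤ mS k T (⋃ i : Fin k, Function.eval i ⁻¹' (Icc (-T) T)ᶜ) +
      mS k T (⋃ i : Fin k × Fin k, {γ : Fin k → ℝ | |γ i.1 + γ i.2| < r}) :=
        measure_union_le _ _
    _ ≤ 0 + ∑ i : Fin k × Fin k, mS k T {γ : Fin k → ℝ | |γ i.1 + γ i.2| < r} := by
        rw [hnull]
        gcongr
        exact measure_iUnion_fintype_le _ _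
    _ ≤ ∑ _i : Fin k × Fin k, ENNReal.ofReal (2 ^ (k + 1) * T ^ (k - 1 / 2 : ℝ)) := by
        rw [zero_add]
        exact Finset.sum_le_sum fun i _ => hpair i
    _ = ENNReal.ofReal (k ^ 2 * 2 ^ (k + 1) * T ^ (k - 1 / 2 : ℝ)) := by
        rw [Finset.sum_const, Finset.card_univ, Fintype.card_prod, Fintype.card_fin,
          nsmul_eq_mul, ← ENNReal.ofReal_natCast, ← ENNReal.ofReal_mul (by positivity)]
        congr 1
        push_cast
        ring
    _ ≤ _ := by
        apply ENNReal.ofReal_le_ofReal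
        nlinarith

end NSp

theorem t_NS : S_NS := fun k => ⟨k ^ 2 * 2 ^ (k + 1) + 1, by positivity, fun A hA => NSp.ns k A hA⟩

end

end Pool.Agent.N879.QM
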