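import Pool.Agent.N879.QM.Stm

/-!
# Project QM (helper879), parts TRV and ONE (helper27): block sums of one character
-/

set_option autoImplicit false

namespace Pool.Agent.N879.QM

namespace One

open Finset ComplexConjugate

variable {q : ℕ} [NeZero q]

/-! ### Sums over periods -/

theorem full {E : Type} [AddCommMonoid E] (h : ZMod q → E) :
    ∑ i ∈ range q, h (i : ZMod q) = ∑ z, h z := by
  refine Finset.sum_bij' (fun i _ => (i : ZMod q)) (fun z _ => z.val) ?_ ?_ ?_ ?_ ?_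
  · intro i _
    exact mem_univ _
  · intro z _
    exact mem_range.2 (ZMod.val_lt z)
  · intro i hi
    exact ZMod.val_natCast_of_lt (mem_range.1 hi)
  · intro z _
    exact ZMod.natCast_zmod_val z
  · intro i _
    rfl

theorem full_add {E : Type} [AddCommMonoid E] (h : ZMod q → E) (y : ZMod q) :
    ∑ i ∈ range q, h (y + i) = ∑ z, h z := by
  rw [full fun z => h (y + z)]
  exact Equiv.sum_comp (Equiv.addLeft y) h

theorem full_mul {E : Type} [AddCommMonoid E] (h : ZMod q → E) (y : ZMod q) (m : ℕ) :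
    ∑ i ∈ range (m * q), h (y + i) = m • ∑ z, h z := by
  induction m with
  | zero => simp
  | succ m ih =>
    rw [add_mul, one_mul, Finset.sum_range_add, ih, succ_nsmul]
    congr 1
    rw [← full_add h (y + ((m * q : ℕ) : ZMod q))]
    refine sum_congr rfl fun i _ => ?_
    rw [Nat.cast_add, add_assoc]

theorem sum_le (g : ZMod q → ℝ) (hg : ∀ z, 0 ≤ g z) (y : ZMod q) (K : ℕ) :
    ∑ i ∈ range K, g (y + i) ≤ ((K / q + 1 : ℕ) : ℝ) * ∑ z, g z := by
  have hq : 0 < q := Nat.pos_of_ne_zero (NeZero.ne q)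
  have h1 : K ≤ (K / q + 1) * q := by
    have := Nat.lt_div_mul_add (a := K) hq
    rw [add_mul, one_mul]
    omega
  rw [← nsmul_eq_mul, ← full_mul g y]
  exact sum_le_sum_of_subset_of_nonneg (range_subset_range.2 h1) fun i _ _ => hg _

/-! ### Parseval -/

/-- the additive character -/
noncomputable abbrev ee : AddChar (ZMod q) ℂ := ZMod.stdAddChar

theorem conj_ee (x : ZMod q) : conj (ee x) = ee (-x) := (AddChar.map_neg_eq_conj _ _).symm

theorem pars (f : ZMod q → ℂ) :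
    ∑ x : ZMod q, ‖∑ a : ZMod q, f a * ee (x * a)‖ ^ 2 = q * ∑ a, ‖f a‖ ^ 2 := by
  apply Complex.ofReal_injective
  push_cast
  have h1 : ∀ z : ℂ, ((‖z‖ : ℂ)) ^ 2 = z * conj z := fun z => by
    rw [Complex.mul_conj, Complex.normSq_eq_norm_sq]
    push_cast
    rfl
  simp only [h1, map_sum, map_mul, conj_ee]
  simp only [Finset.sum_mul_sum]
  rw [Finset.sum_comm]
  have h2 : ∀ a : ZMod q, ∑ x : ZMod q, ∑ b : ZMod q,
      f a * ee (x * a) * (conj (f b) * ee (-(x * b))) = q * (f a * conj (f a)) := by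
    intro a
    rw [Finset.sum_comm]
    have h3 : ∀ b : ZMod q, ∑ x : ZMod q, f a * ee (x * a) * (conj (f b) * ee (-(x * b))) =
        if b = a then (q : ℂ) * (f a * conj (f a)) else 0 := by
      intro b
      have h4 : ∀ x : ZMod q, f a * ee (x * a) * (conj (f b) * ee (-(x * b))) =
          f a * conj (f b) * ee (x * (a - b)) := by
        intro x
        rw [mul_sub, sub_eq_add_neg, AddChar.map_add_eq_mul]
        ring
      simp only [h4]
      rw [← Finset.mul_sum, AddChar.sum_mulShift (a - b) (ZMod.isPrimitive_stdAddChar q)]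
      by_cases hab : b = a
      · rw [if_pos hab, if_pos (by rw [hab, sub_self]), hab, ZMod.card]
        ring
      · rw [if_neg hab, if_neg (sub_ne_zero.2 (Ne.symm hab)), Nat.cast_zero, mul_zero]
    rw [Finset.sum_congr rfl fun b _ => h3 b, Finset.sum_ite_eq' univ a, if_pos (mem_univ _)]
  rw [Finset.sum_congr rfl fun a _ => h2 a, ← Finset.mul_sum]

/-! ### Gauss sums -/

variable {χ : DirichletCharacter ℂ q}

theorem gauss (hp : χ.IsPrimitive) (h2 : χ ^ 2 = 1) (y : ZMod q) :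
    ∑ a : ZMod q, χ a * ee (y * a) = χ y * gaussSum χ ee := by
  have h := gaussSum_mulShift_of_isPrimitive (χ := χ) ee hp y
  have h3 : χ⁻¹ = χ := by
    rw [inv_eq_iff_mul_eq_one, ← sq, h2]
  rw [h3] at h
  rw [← h]
  rfl

theorem gauss_sq (hp : χ.IsPrimitive) (h2 : χ ^ 2 = 1) : ‖gaussSum χ (ee (q := q))‖ ^ 2 = q := by
  have h := pars (fun a => χ a)
  simp only [gauss hp h2, norm_mul, mul_pow] at h
  rw [← Finset.sum_mul, mul_comm] at h
  have h3 : 0 < ∑ a : ZMod q, ‖χ a‖ ^ 2 := by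
    refine Finset.sum_pos' (fun _ _ => sq_nonneg _) ⟨1, mem_univ _, ?_⟩
    rw [map_one, norm_one]
    norm_num
  exact mul_right_cancel₀ h3.ne' h

/-- the sum over a block -/
noncomputable def bl (χ : DirichletCharacter ℂ q) (t : ℕ) (y : ZMod q) : ℂ :=
  ∑ h ∈ range t, χ (y + 1 + h)

theorem dir_sum {t : ℕ} (ht : t ≤ q) :
    ∑ a : ZMod q, ‖∑ h ∈ range t, ee (a * (1 + (h : ZMod q)))‖ ^ 2 = q * t := by
  classical
  have hinj : Set.InjOn (fun h : ℕ => 1 + (h : ZMod q)) (range t : Set ℕ) := by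
    intro i hi j hj hij
    have h1 : (i : ZMod q) = j := add_left_cancel hij
    rw [Finset.coe_range, Set.mem_Iio] at hi hj
    have h2 := congrArg ZMod.val h1
    rwa [ZMod.val_natCast_of_lt (by omega), ZMod.val_natCast_of_lt (by omega)] at h2
  set S : Finset (ZMod q) := (range t).image fun h : ℕ => 1 + (h : ZMod q) with hS
  have hcard : S.card = t := by
    rw [hS, Finset.card_image_of_injOn hinj, card_range]
  have h := pars (fun b : ZMod q => if b ∈ S then (1 : ℂ) else 0)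
  have h1 : ∀ a : ZMod q, ∑ b : ZMod q, (if b ∈ S then (1 : ℂ) else 0) * ee (a * b) =
      ∑ h ∈ range t, ee (a * (1 + (h : ZMod q))) := by
    intro a
    simp only [ite_mul, one_mul, zero_mul]
    rw [Finset.sum_ite_mem, Finset.univ_inter, hS, Finset.sum_image hinj]
  have h2 : ∑ b : ZMod q, ‖(if b ∈ S then (1 : ℂ) else 0)‖ ^ 2 = t := by
    have h3 : ∀ b : ZMod q, ‖(if b ∈ S then (1 : ℂ) else 0)‖ ^ 2 = if b ∈ S then (1 : ℝ) else 0 := by
      intro b
      split_ifs <;> simp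
    simp only [h3]
    rw [Finset.sum_ite_mem, Finset.univ_inter, Finset.sum_const, hcard, nsmul_eq_mul, mul_one]
  simp only [h1] at h
  rw [h2] at h
  exact h

theorem block (hp : χ.IsPrimitive) (h2 : χ ^ 2 = 1) {t : ℕ} (ht : t ≤ q) :
    ∑ y : ZMod q, ‖bl χ t y‖ ^ 2 ≤ q * t := by
  have hq : (0 : ℝ) < q := by exact_mod_cast Nat.pos_of_ne_zero (NeZero.ne q)
  set D : ZMod q → ℂ := fun a => ∑ h ∈ range t, ee (a * (1 + (h : ZMod q))) with hD
  have h3 : ∀ y, bl χ t y * gaussSum χ ee = ∑ a : ZMod q, (χ a * D a) * ee (y * a) := by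
    intro y
    unfold bl
    rw [Finset.sum_mul]
    simp only [← gauss hp h2]
    rw [Finset.sum_comm]
    refine Finset.sum_congr rfl fun a _ => ?_
    rw [hD, mul_assoc, mul_comm (∑ h ∈ range t, _), Finset.mul_sum, Finset.mul_sum]
    refine Finset.sum_congr rfl fun h _ => ?_
    rw [← AddChar.map_add_eq_mul]
    congr 2
    ring
  have h4 := pars (fun a => χ a * D a)
  simp only [← h3, norm_mul, mul_pow] at h4
  rw [← Finset.sum_mul, gauss_sq hp h2] at h4
  have h5 : ∑ a : ZMod q, ‖χ a‖ ^ 2 * ‖D a‖ ^ 2 ≤ q * t := by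
    rw [← dir_sum ht]
    refine Finset.sum_le_sum fun a _ => ?_
    have h6 : ‖χ a‖ ^ 2 ≤ 1 := pow_le_one₀ (norm_nonneg _) (DirichletCharacter.norm_le_one χ a)
    calc ‖χ a‖ ^ 2 * ‖D a‖ ^ 2 ≤ 1 * ‖D a‖ ^ 2 :=
          mul_le_mul_of_nonneg_right h6 (sq_nonneg _)
      _ = _ := one_mul _
  have h7 : ∑ y : ZMod q, ‖bl χ t y‖ ^ 2 = ∑ a : ZMod q, ‖χ a‖ ^ 2 * ‖D a‖ ^ 2 := by
    apply mul_right_cancel₀ hq.ne'
    rw [h4, mul_comm]
  rw [h7]
  exact h5

/-! ### Reduction of the length -/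

theorem sum_zero (h1 : χ ≠ 1) : ∑ z : ZMod q, χ z = 0 := MulChar.sum_eq_zero_of_ne_one h1

theorem bl_mod (h1 : χ ≠ 1) (t : ℕ) (y : ZMod q) : bl χ t y = bl χ (t % q) y := by
  unfold bl
  have ht : t = t / q * q + t % q := by
    rw [mul_comm]
    exact (Nat.div_add_mod t q).symm
  conv_lhs => rw [ht]
  rw [Finset.sum_range_add, full_mul (fun z => χ z) (y + 1), sum_zero h1, smul_zero, zero_add]
  refine Finset.sum_congr rfl fun i _ => ?_
  rw [Nat.cast_add, Nat.cast_mul, ZMod.natCast_self, mul_zero, zero_add]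

theorem bl_le (h1 : χ ≠ 1) (t : ℕ) (y : ZMod q) : ‖bl χ t y‖ ≤ (min t q : ℕ) := by
  rw [bl_mod h1]
  unfold bl
  refine (norm_sum_le _ _).trans ?_
  calc ∑ h ∈ range (t % q), ‖χ (y + 1 + h)‖ ≤ ∑ _h ∈ range (t % q), (1 : ℝ) :=
        Finset.sum_le_sum fun h _ => DirichletCharacter.norm_le_one χ _
    _ = ((t % q : ℕ) : ℝ) := by rw [Finset.sum_const, card_range, nsmul_eq_mul, mul_one]
    _ ≤ (min t q : ℕ) := by
        have hq : 0 < q := Nat.pos_of_ne_zero (NeZero.ne q)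
        exact_mod_cast le_min (Nat.mod_le _ _) (Nat.mod_lt _ hq).le

theorem Ioc_range {E : Type} [AddCommMonoid E] (F : ℕ → E) (x t : ℕ) :
    ∑ n ∈ Ioc x (x + t), F n = ∑ i ∈ range t, F (x + 1 + i) := by
  have h : Ioc x (x + t) = Ico (x + 1) (x + t + 1) := by
    ext n
    rw [mem_Ioc, mem_Ico]
    omega
  rw [h, Finset.sum_Ico_eq_sum_range]
  congr 2
  omega

end One

open Pool.Agent.N879.QM.One in
theorem t_TRV : S_TRV := by
  intro s q x t h
  have hq : q ≠ 0 := by have := h.1; omega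
  have : NeZero q := ⟨hq⟩
  have hch : Rp s (ch s q) := by
    unfold ch
    rw [dif_pos h]
    exact h.2.choose_spec
  have h1 : ∑ n ∈ Finset.Ioc x (x + t), vl s q n = bl (ch s q) t (x : ZMod q) := by
    rw [Ioc_range]
    unfold bl vl
    refine Finset.sum_congr rfl fun i _ => ?_
    push_cast
    rfl
  rw [h1]
  exact bl_le hch.2.2.1 t _

open Pool.Agent.N879.QM.One in
theorem t_ONE : S_ONE := by
  intro s q M K t h
  have hq : q ≠ 0 := by have := h.1; omega
  have : NeZero q := ⟨hq⟩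
  have hq0 : 0 < q := Nat.pos_of_ne_zero hq
  have hch : Rp s (ch s q) := by
    unfold ch
    rw [dif_pos h]
    exact h.2.choose_spec
  obtain ⟨hp, h2, h1, -⟩ := hch
  have e1 : ∀ x : ℕ, ∑ n ∈ Finset.Ioc x (x + t), vl s q n = bl (ch s q) (t % q) (x : ZMod q) := by
    intro x
    rw [← bl_mod h1, Ioc_range]
    unfold bl vl
    refine Finset.sum_congr rfl fun i _ => ?_
    push_cast
    rfl
  obtain ⟨g, hg⟩ : ∃ g : ZMod q → ℝ, ∀ z, g z = ‖bl (ch s q) (t % q) z‖ ^ 2 := ⟨_, fun _ => rfl⟩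
  have e2 : ∑ x ∈ Finset.Ioc M (M + K), ‖∑ n ∈ Finset.Ioc x (x + t), vl s q n‖ ^ 2 =
      ∑ i ∈ Finset.range K, g (((M + 1 : ℕ) : ZMod q) + (i : ZMod q)) := by
    rw [Ioc_range]
    refine Finset.sum_congr rfl fun i _ => ?_
    rw [hg, e1, Nat.cast_add (M + 1) i]
  have htq : t % q ≤ q := (Nat.mod_lt _ hq0).le
  have htm : t % q ≤ min t q := le_min (Nat.mod_le _ _) htq
  have e3 : ∑ i ∈ Finset.range K, g (((M + 1 : ℕ) : ZMod q) + (i : ZMod q)) ≤
      ((K / q + 1 : ℕ) : ℝ) * ∑ z, g z :=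
    One.sum_le g (fun z => by rw [hg]; exact sq_nonneg _) _ K
  have e4 : ∑ z, g z ≤ q * ((t % q : ℕ) : ℝ) := by
    have h5 := block hp h2 htq
    rwa [Finset.sum_congr rfl fun z _ => (hg z).symm] at h5
  have e5 : ((K / q + 1 : ℕ) : ℝ) * (q * ((t % q : ℕ) : ℝ)) ≤
      ((K : ℝ) + q) * (min t q : ℕ) := by
    have h3 : (K / q + 1) * q ≤ K + q := by
      rw [add_mul, one_mul]
      exact Nat.add_le_add_right (Nat.div_mul_le_self K q) q
    have h4 : (K / q + 1) * q * (t % q) ≤ (K + q) * min t q := Nat.mul_le_mul h3 htm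
    have h5 : (((K / q + 1) * q * (t % q) : ℕ) : ℝ) ≤ (((K + q) * min t q : ℕ) : ℝ) :=
      Nat.cast_le.2 h4
    rw [Nat.cast_mul, Nat.cast_mul, Nat.cast_mul, Nat.cast_add K q, mul_assoc] at h5
    exact h5
  rw [e2]
  exact (e3.trans (mul_le_mul_of_nonneg_left e4 (Nat.cast_nonneg _))).trans e5

end Pool.Agent.N879.QM
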