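import Pool.Agent.N879.QM.Stm
import Pool.Agent.TH928.GS.MV

set_option autoImplicit false

/-!
Project QM: pieces of length at most `A` by the mean value theorem.
-/

namespace Pool.Agent.N879.QM

open Complex Filter Topology MeasureTheory Set
open scoped BigOperators

namespace P2

theorem npt {n : ℕ} (hn : n ≠ 0) (α : ℝ) :
    (n : ℂ) ^ (-(pt α)) = (n : ℂ) ^ (-(1 / 2 : ℂ)) * (n : ℂ) ^ (-(I * (α : ℂ))) := by
  have hn' : (n : ℂ) ≠ 0 := by exact_mod_cast hn
  rw [← cpow_add _ _ hn']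
  congr 1
  unfold pt
  ring

theorem nhalf {n : ℕ} (hn : n ≠ 0) (a : ℂ) :
    ‖a * (n : ℂ) ^ (-(1 / 2 : ℂ))‖ ^ 2 = ‖a‖ ^ 2 / n := by
  have hn' : 0 < n := Nat.pos_of_ne_zero hn
  have hr : (0 : ℝ) < n := by exact_mod_cast hn'
  rw [norm_mul, mul_pow, norm_natCast_cpow_of_pos hn']
  have e : (-(1 / 2 : ℂ)).re = -(1 / 2) := by
    simp
  rw [e, ← Real.rpow_natCast ((n : ℝ) ^ (-(1 / 2) : ℝ)) 2, ← Real.rpow_mul hr.le]
  norm_num
  rw [Real.rpow_neg_one, div_eq_mul_inv]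

theorem cont (X : ℕ) (a : ℕ → ℂ) :
    Continuous fun α : ℝ => ∑ n ∈ Finset.Icc 1 X, a n * (n : ℂ) ^ (-(pt α)) := by
  refine continuous_finsetSum _ fun n hn => ?_
  rw [Finset.mem_Icc] at hn
  have hn0 : (n : ℂ) ≠ 0 := by
    have : n ≠ 0 := by omega
    exact_mod_cast this
  refine continuous_const.mul ?_
  refine Continuous.const_cpow ?_ (Or.inl hn0)
  unfold pt
  fun_prop

/-- the mean value theorem on a symmetric interval -/
theorem MV2 : ∃ C : ℝ, 0 < C ∧ ∀ (A : ℝ) (X : ℕ) (a : ℕ → ℂ), 1 ≤ A → (X : ℝ) ≤ A ^ 2 →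
    ∫ α in (-A)..A, ‖∑ n ∈ Finset.Icc 1 X, a n * (n : ℂ) ^ (-(pt α))‖ ^ 2 ≤
      C * ∑ n ∈ Finset.Icc 1 X, (A + n) / n * ‖a n‖ ^ 2 := by
  obtain ⟨C, hC, h⟩ := Pool.Agent.TH928.GS.t_MV
  refine ⟨2 * C, by positivity, fun A X a hA hX => ?_⟩
  have hA0 : 0 < A := by linarith
  obtain ⟨F, hF⟩ : ∃ F : (ℕ → ℂ) → ℝ → ℝ, F = fun a α =>
      ‖∑ n ∈ Finset.Icc 1 X, a n * (n : ℂ) ^ (-(pt α))‖ ^ 2 := ⟨_, rfl⟩
  have hFc : ∀ a, Continuous (F a) := fun a => by
    rw [hF]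
    exact (cont X a).norm.pow 2
  have hF0 : ∀ a α, 0 ≤ F a α := fun a α => by rw [hF]; positivity
  have hFa : (fun α : ℝ => ‖∑ n ∈ Finset.Icc 1 X, a n * (n : ℂ) ^ (-(pt α))‖ ^ 2) = F a := by
    rw [hF]
  rw [hFa]
  -- the bound on `[0, A]`
  have key : ∀ a : ℕ → ℂ, ∫ α in (0 : ℝ)..A, F a α ≤
      C * ∑ n ∈ Finset.Icc 1 X, (A + n) / n * ‖a n‖ ^ 2 := by
    intro a
    have h1 := h A X (fun n => a n * (n : ℂ) ^ (-(1 / 2 : ℂ))) hA hX
    have e1 : ∀ u : ℝ, ‖∑ n ∈ Finset.Icc 1 X, a n * (n : ℂ) ^ (-(1 / 2 : ℂ)) *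
        (n : ℂ) ^ (-(I * (u : ℂ)))‖ ^ 2 = F a u := by
      intro u
      rw [hF]
      simp only
      congr 2
      refine Finset.sum_congr rfl fun n hn => ?_
      rw [Finset.mem_Icc] at hn
      rw [npt (by omega), mul_assoc]
    simp only [e1] at h1
    have e2 : ∑ n ∈ Finset.Icc 1 X, (A + (n : ℝ)) * ‖a n * (n : ℂ) ^ (-(1 / 2 : ℂ))‖ ^ 2 =
        ∑ n ∈ Finset.Icc 1 X, (A + n) / n * ‖a n‖ ^ 2 := by
      refine Finset.sum_congr rfl fun n hn => ?_
      rw [Finset.mem_Icc] at hn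
      rw [nhalf (by omega)]
      ring
    rw [e2] at h1
    refine le_trans ?_ h1
    refine intervalIntegral.integral_mono_interval le_rfl hA0.le (by linarith)
      (Eventually.of_forall fun α => hF0 a α) ((hFc a).intervalIntegrable _ _)
  have h2 : ∫ α in (-A)..A, F a α = (∫ α in (-A)..(0 : ℝ), F a α) + ∫ α in (0 : ℝ)..A, F a α :=
    (intervalIntegral.integral_add_adjacent_intervals ((hFc a).intervalIntegrable _ _)
      ((hFc a).intervalIntegrable _ _)).symm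
  have h3 : ∫ α in (-A)..(0 : ℝ), F a α = ∫ α in (0 : ℝ)..A, F (fun n => (starRingEnd ℂ) (a n)) α := by
    have h4 := intervalIntegral.integral_comp_neg (a := (0 : ℝ)) (b := A) (F a)
    rw [neg_zero] at h4
    rw [← h4]
    refine intervalIntegral.integral_congr fun α _ => ?_
    rw [hF]
    simp only
    rw [← Complex.norm_conj, map_sum]
    congr 2
    refine Finset.sum_congr rfl fun n hn => ?_
    rw [map_mul]
    congr 1
    have h5 := Complex.cpow_conj (n : ℂ) (-(pt (-α)))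
      (by rw [Complex.natCast_arg]; exact Real.pi_pos.ne)
    rw [Complex.conj_natCast] at h5
    rw [← h5]
    congr 1
    unfold pt
    simp
    exact map_ofNat (starRingEnd ℂ) 2
  rw [h2, h3]
  have h5 := key a
  have h6 := key fun n => (starRingEnd ℂ) (a n)
  simp only [Complex.norm_conj] at h6
  linarith

theorem ioc_eq (K : ℕ) (a : ℕ → ℂ) (α : ℝ) :
    ∑ n ∈ Finset.Ioc K (2 * K), a n * (n : ℂ) ^ (-(pt α)) =
      ∑ n ∈ Finset.Icc 1 (2 * K), (if K < n then a n else 0) * (n : ℂ) ^ (-(pt α)) := by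
  simp only [ite_mul, zero_mul]
  rw [← Finset.sum_filter]
  refine Finset.sum_congr ?_ fun _ _ => rfl
  ext n
  simp only [Finset.mem_Ioc, Finset.mem_filter, Finset.mem_Icc]
  omega

theorem wt {A : ℝ} {K n : ℕ} (hK : 1 ≤ K) (hKA : (K : ℝ) ≤ A) (hn : K < n) :
    (A + n) / n ≤ 2 * A / K := by
  have hK0 : (0 : ℝ) < K := by exact_mod_cast hK
  have hn0 : (K : ℝ) < n := by exact_mod_cast hn
  have hA : 0 < A := by linarith
  rw [div_le_div_iff₀ (by linarith) hK0]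
  nlinarith

end P2

open P2

theorem t_P1 : S_P1 := by
  obtain ⟨C, hC, h⟩ := MV2
  refine ⟨4 * C, by positivity, fun A K a hA hK ha => ⟨?_, ?_⟩⟩
  · rcases Nat.eq_zero_or_pos K with rfl | hK0
    · simp only [mul_zero, Finset.Ioc_self, Finset.sum_empty, norm_zero]
      norm_num
      positivity
    simp only [ioc_eq]
    refine (h A (2 * K) _ (by linarith) ?_).trans ?_
    · push_cast
      nlinarith
    have hKr : (0 : ℝ) < K := by exact_mod_cast hK0
    have h1 : ∑ n ∈ Finset.Icc 1 (2 * K), (A + n) / n * ‖if K < n then a n else 0‖ ^ 2 ≤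
        ∑ n ∈ Finset.Ioc K (2 * K), 2 * A / K := by
      have e : Finset.Ioc K (2 * K) = (Finset.Icc 1 (2 * K)).filter (fun n => K < n) := by
        ext n
        simp only [Finset.mem_Ioc, Finset.mem_filter, Finset.mem_Icc]
        omega
      rw [e, Finset.sum_filter]
      refine Finset.sum_le_sum fun n _ => ?_
      by_cases hn : K < n
      · rw [if_pos hn, if_pos hn]
        have h2 := wt hK0 hK hn
        have h3 : ‖a n‖ ^ 2 ≤ 1 := pow_le_one₀ (norm_nonneg _) (ha n)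
        have h4 : 0 ≤ (A + n) / n := by positivity
        calc (A + n) / n * ‖a n‖ ^ 2 ≤ (A + n) / n * 1 := mul_le_mul_of_nonneg_left h3 h4
          _ ≤ _ := by rw [mul_one]; exact h2
      · rw [if_neg hn, if_neg hn]
        simp
    rw [Finset.sum_const, Nat.card_Ioc, nsmul_eq_mul] at h1
    have e2 : ((2 * K - K : ℕ) : ℝ) * (2 * A / K) = 2 * A := by
      have : 2 * K - K = K := by omega
      rw [this]
      field_simp
    rw [e2] at h1
    calc C * _ ≤ C * (2 * A) := mul_le_mul_of_nonneg_left h1 hC.le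
      _ ≤ 4 * C * A := by nlinarith
  · refine (h A K a (by linarith) (by nlinarith)).trans ?_
    have h1 : ∑ n ∈ Finset.Icc 1 K, (A + n) / n * ‖a n‖ ^ 2 ≤
        ∑ n ∈ Finset.Icc 1 K, (A * (1 / (n : ℝ)) + 1) := by
      refine Finset.sum_le_sum fun n hn => ?_
      rw [Finset.mem_Icc] at hn
      have hn0 : (0 : ℝ) < n := by exact_mod_cast (by omega : 0 < n)
      have h3 : ‖a n‖ ^ 2 ≤ 1 := pow_le_one₀ (norm_nonneg _) (ha n)
      have h4 : 0 ≤ (A + n) / n := by positivity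
      have h5 : (A + n) / n = A * (1 / (n : ℝ)) + 1 := by field_simp
      calc (A + n) / n * ‖a n‖ ^ 2 ≤ (A + n) / n * 1 := mul_le_mul_of_nonneg_left h3 h4
        _ = _ := by rw [mul_one, h5]
    rw [Finset.sum_add_distrib, ← Finset.mul_sum, Finset.sum_const, Nat.card_Icc,
      nsmul_eq_mul, mul_one] at h1
    have h2 : ∑ n ∈ Finset.Icc 1 K, 1 / (n : ℝ) ≤ 1 + Real.log K := by
      have h3 := harmonic_le_one_add_log K
      rw [harmonic_eq_sum_Icc] at h3
      push_cast at h3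
      simpa [one_div] using h3
    have h3 : Real.log K ≤ Real.log A := by
      rcases Nat.eq_zero_or_pos K with rfl | hK0
      · simp only [Nat.cast_zero, Real.log_zero]
        exact Real.log_nonneg (by linarith)
      · exact Real.log_le_log (by exact_mod_cast hK0) hK
    have h4 : 2 / 3 ≤ Real.log A := by
      have h5 : Real.log 2 ≤ Real.log A := Real.log_le_log (by norm_num) hA
      have := Real.log_two_gt_d9
      linarith
    have h6 : A * ∑ n ∈ Finset.Icc 1 K, 1 / (n : ℝ) ≤ A * (1 + Real.log A) :=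
      mul_le_mul_of_nonneg_left (by linarith) (by linarith)
    have h7 : ((K + 1 - 1 : ℕ) : ℝ) ≤ A := by
      rw [Nat.add_sub_cancel]
      exact hK
    have h8 : ∑ n ∈ Finset.Icc 1 K, (A + n) / n * ‖a n‖ ^ 2 ≤ 4 * (A * Real.log A) := by
      refine h1.trans ((add_le_add h6 h7).trans ?_)
      nlinarith
    calc C * _ ≤ C * (4 * (A * Real.log A)) := mul_le_mul_of_nonneg_left h8 hC.le
      _ = _ := by ring

theorem t_P2 (h : S_GK) : S_P2 := by
  obtain ⟨C, hC, hM⟩ := MV2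
  intro ε hε
  obtain ⟨C₁, hC₁, hG⟩ := h ε hε
  refine ⟨4 * 2 ^ ε * C * C₁, by positivity, fun s X A K c hs hX hA hK hKA => ?_⟩
  have hKr : (0 : ℝ) < K := by exact_mod_cast hK
  obtain ⟨a, ha⟩ : ∃ a : ℕ → ℂ, a = fun n => ∑ q ∈ Q s X, c q * vl s q n := ⟨_, rfl⟩
  have e1 : ∀ α : ℝ, ∑ q ∈ Q s X, c q * SK s q K α =
      ∑ n ∈ Finset.Ioc K (2 * K), a n * (n : ℂ) ^ (-(pt α)) := by
    intro α
    unfold SK
    simp only [Finset.mul_sum]
    rw [Finset.sum_comm, ha]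
    refine Finset.sum_congr rfl fun n _ => ?_
    rw [Finset.sum_mul]
    exact Finset.sum_congr rfl fun q _ => by ring
  simp only [e1, ioc_eq]
  refine (hM A (2 * K) _ (by linarith) ?_).trans ?_
  · push_cast
    nlinarith
  have h1 : ∑ n ∈ Finset.Icc 1 (2 * K), (A + n) / n * ‖if K < n then a n else 0‖ ^ 2 ≤
      ∑ n ∈ Finset.Icc 1 (2 * K), 2 * A / K * ‖a n‖ ^ 2 := by
    refine Finset.sum_le_sum fun n _ => ?_
    by_cases hn : K < n
    · rw [if_pos hn]
      exact mul_le_mul_of_nonneg_right (wt hK hKA hn) (by positivity)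
    · rw [if_neg hn, norm_zero]
      have : 0 ≤ 2 * A / K * ‖a n‖ ^ 2 := by positivity
      simpa using this
  rw [← Finset.mul_sum] at h1
  have h2 := hG s X (2 * K) c hs hX (by omega)
  rw [ha] at h1
  have hS : 0 ≤ ∑ q ∈ Q s X, ‖c q‖ ^ 2 := Finset.sum_nonneg fun _ _ => sq_nonneg _
  have hcast : ((2 * K : ℕ) : ℝ) = 2 * K := by push_cast; ring
  rw [hcast] at h2
  have h3 : (X * (2 * K)) ^ ε ≤ 2 ^ ε * (X * A) ^ ε := by
    rw [← Real.mul_rpow (by norm_num) (by positivity)]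
    refine Real.rpow_le_rpow (by positivity) ?_ hε.le
    nlinarith
  have hsK : 0 < √(K : ℝ) := Real.sqrt_pos.2 hKr
  have hsK2 : √(K : ℝ) * √(K : ℝ) = K := Real.mul_self_sqrt hKr.le
  have h4 : √(2 * (K : ℝ)) ≤ 2 * √(K : ℝ) := by
    rw [Real.sqrt_mul (by norm_num)]
    refine mul_le_mul_of_nonneg_right ?_ hsK.le
    rw [Real.sqrt_le_left (by norm_num)]
    norm_num
  have h5 : X * √(2 * (K : ℝ)) + 2 * K ≤ 2 * K * (X / √(K : ℝ) + 1) := by
    have e2 : 2 * K * (X / √(K : ℝ) + 1) = X * (2 * √(K : ℝ)) + 2 * K := by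
      have e3 : (K : ℝ) / √(K : ℝ) = √(K : ℝ) := Real.div_sqrt
      calc 2 * K * (X / √(K : ℝ) + 1) = 2 * X * ((K : ℝ) / √(K : ℝ)) + 2 * K := by ring
        _ = _ := by rw [e3]; ring
    rw [e2]
    have := mul_le_mul_of_nonneg_left h4 (by linarith : 0 ≤ X)
    linarith
  have h6 : C₁ * (X * (2 * K)) ^ ε * (X * √(2 * (K : ℝ)) + 2 * K) * ∑ q ∈ Q s X, ‖c q‖ ^ 2 ≤
      C₁ * (2 ^ ε * (X * A) ^ ε) * (2 * K * (X / √(K : ℝ) + 1)) * ∑ q ∈ Q s X, ‖c q‖ ^ 2 := by
    refine mul_le_mul_of_nonneg_right ?_ hS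
    refine mul_le_mul (mul_le_mul_of_nonneg_left h3 hC₁.le) h5 (by positivity) (by positivity)
  calc C * ∑ n ∈ Finset.Icc 1 (2 * K), (A + n) / n * ‖if K < n then a n else 0‖ ^ 2
      ≤ C * (2 * A / K * (C₁ * (2 ^ ε * (X * A) ^ ε) * (2 * K * (X / √(K : ℝ) + 1)) *
        ∑ q ∈ Q s X, ‖c q‖ ^ 2)) := by
        refine mul_le_mul_of_nonneg_left ?_ hC.le
        rw [ha]
        exact h1.trans (mul_le_mul_of_nonneg_left (h2.trans h6) (by positivity))
    _ = 4 * 2 ^ ε * C * C₁ * (X * A) ^ ε * A * (X / √K + 1) * ∑ q ∈ Q s X, ‖c q‖ ^ 2 := by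
        field_simp
        ring

end Pool.Agent.N879.QM
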