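import Pool.Agent.N879.QM.Fin
import Pool.Agent.N879.QM.Uni
import Pool.Agent.N879.QM.Avg
import Pool.Agent.N879.QM.Diag
import Pool.Agent.N879.QM.Gk
import Pool.Agent.N879.QM.P2
import Pool.Agent.N879.QM.Mvg
import Pool.Agent.N879.QM.Blk
import Pool.Agent.N879.QM.Lsb
import Pool.Agent.N879.QM.One
import Pool.Agent.N879.QM.Big
import Pool.Agent.N879.QM.Afs
import Pool.Agent.N879.QM.Vl
import Pool.Agent.N879.QM.Op
import Pool.Agent.N879.QM.Tel
import Pool.Agent.N879.QM.Eul
import Pool.Agent.N879.QM.Zr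
import Pool.Agent.N879.QM.Fl
import Pool.Agent.N879.QM.Coef
import Pool.Agent.N879.QM.Ns

set_option autoImplicit false

/-! Project QM: all parts together. -/

namespace Pool.Agent.N879.QM

theorem all_main : S_MAIN := by
  have hU := t_UNI
  have hA := t_AVG hU
  have hD := t_DIAG hA
  have hG := t_GK hU
  have hP1 := t_P1
  have hP2 := t_P2 hG
  have hM := t_MVG
  have hB := t_BLK hM
  have hL := t_LSB
  have hT := t_TRV
  have hO := t_ONE
  have hBIG := t_BIG hB hL hT
  have hBIG1 := t_BIG1 hB hO hT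
  have hAF := t_AFS
  have hC := t_CTS
  have hV := t_VL hP1 hBIG1 hAF hC
  have hOP := t_OP hP2 hBIG hAF hC
  have hTE := t_TEL
  have hE := t_EUL
  have hZR := t_ZR t_ZET hE
  have hFL := t_FL
  have hCO := t_COEF hFL
  exact t_MAIN hV hOP hTE hC hD hCO hZR hE t_NS

end Pool.Agent.N879.QM
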