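import Pool.Agent.N879.QM.Stm2
import Pool.Agent.N879.QM.Big

set_option autoImplicit false

/-! QM2/BIGP (helper263): long pieces for small `A`, operator bound and one character. -/

namespace Pool.Agent.N879.QM

open Complex Filter Topology MeasureTheory Set
open scoped BigOperators

namespace Bigpaux

lemma log_sq_le {e X : ℝ} (he : 0 < e) (hX : 1 ≤ X) : Real.log X ^ 2 ≤ 4 / e ^ 2 * X ^ e := by
  have h1 := Real.log_le_rpow_div (x := X) (ε := e / 2) (by linarith) (by linarith)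
  have h2 : 0 ≤ Real.log X := Real.log_nonneg hX
  have h3 := pow_le_pow_left₀ h2 h1 2
  refine h3.trans (le_of_eq ?_)
  have h4 : (X ^ (e / 2)) ^ 2 = X ^ e := by
    rw [← Real.rpow_natCast, ← Real.rpow_mul (by linarith)]
    congr 1
    push_cast
    ring
  rw [div_pow, h4]
  field_simp
  norm_num

end Bigpaux

open BigAux Bigpaux

theorem t_BIGP (h1 : S_BLK) (h2 : S_LSB) (h3 : S_PVI) : S_BIGP := by
  intro e he
  obtain ⟨C1, hC1, h1⟩ := h1
  obtain ⟨C2, hC2, h2⟩ := h2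
  obtain ⟨C3, hC3, h3⟩ := h3
  refine ⟨C1 * (2 * C2 + 2 * C3 * (4 / e ^ 2)), by positivity, fun s X A K c hs hX hA hAK => ?_⟩
  have hApos : 0 < A := by linarith
  have hKpos : (0 : ℝ) < K := by linarith
  have hK1 : 1 ≤ K := by exact_mod_cast hKpos
  obtain ⟨H, hH1, hH2, hH3⟩ := exH A K hA hAK
  have hHpos : (0 : ℝ) < H := by exact_mod_cast hH1
  set S : ℝ := ∑ q ∈ Q s X, ‖c q‖ ^ 2 with hS
  have hS0 : 0 ≤ S := Finset.sum_nonneg fun _ _ => by positivity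
  set a : ℕ → ℂ := fun n => ∑ q ∈ Q s X, c q * vl s q n with ha
  have hblk : ∀ x t : ℕ, ∑ n ∈ Finset.Ioc x (x + t), a n =
      ∑ q ∈ Q s X, c q * ∑ n ∈ Finset.Ioc x (x + t), vl s q n := by
    intro x t
    simp only [ha]
    rw [Finset.sum_comm]
    exact Finset.sum_congr rfl fun q _ => by rw [Finset.mul_sum]
  have hL0 : 0 ≤ Real.log X ^ 2 := sq_nonneg _
  set E : ℝ := C3 * X ^ 2 * Real.log X ^ 2 * S with hEdef
  have hE0 : 0 ≤ E := by positivity
  have hE : ∀ (x t' : ℕ), ‖∑ n ∈ Finset.Ioc x (x + t'), a n‖ ^ 2 ≤ E := by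
    intro x t'
    rw [hblk]
    have e1 : ‖∑ q ∈ Q s X, c q * ∑ n ∈ Finset.Ioc x (x + t'), vl s q n‖ ≤
        ∑ q ∈ Q s X, ‖c q‖ * ‖∑ n ∈ Finset.Ioc x (x + t'), vl s q n‖ := by
      refine (norm_sum_le _ _).trans (le_of_eq ?_)
      exact Finset.sum_congr rfl fun q _ => norm_mul _ _
    have e2 := Finset.sum_mul_sq_le_sq_mul_sq (Q s X) (fun q => ‖c q‖)
      (fun q => ‖∑ n ∈ Finset.Ioc x (x + t'), vl s q n‖)
    have e3 : ∑ q ∈ Q s X, ‖∑ n ∈ Finset.Ioc x (x + t'), vl s q n‖ ^ 2 ≤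
        X * (C3 * X * Real.log X ^ 2) := by
      calc ∑ q ∈ Q s X, ‖∑ n ∈ Finset.Ioc x (x + t'), vl s q n‖ ^ 2
          ≤ ∑ q ∈ Q s X, (C3 * X * Real.log X ^ 2 : ℝ) := by
            refine Finset.sum_le_sum fun q hq => ?_
            obtain ⟨hq1, hq2⟩ := mem_Q hq
            refine (h3 s q x t' hq1).trans ?_
            have hq3 : (2 : ℝ) ≤ q := by exact_mod_cast hq1.1
            have h4 : 0 ≤ Real.log q := Real.log_nonneg (by linarith)
            have h5 : Real.log q ≤ Real.log X := Real.log_le_log (by linarith) hq2.le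
            have h6 : Real.log q ^ 2 ≤ Real.log X ^ 2 := pow_le_pow_left₀ h4 h5 2
            exact mul_le_mul (mul_le_mul_of_nonneg_left hq2.le hC3.le) h6 (sq_nonneg _) (by positivity)
        _ = (Q s X).card * (C3 * X * Real.log X ^ 2) := by rw [Finset.sum_const, nsmul_eq_mul]
        _ ≤ X * (C3 * X * Real.log X ^ 2) := mul_le_mul_of_nonneg_right (card_Q s X hX) (by positivity)
    calc ‖∑ q ∈ Q s X, c q * ∑ n ∈ Finset.Ioc x (x + t'), vl s q n‖ ^ 2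
        ≤ (∑ q ∈ Q s X, ‖c q‖ * ‖∑ n ∈ Finset.Ioc x (x + t'), vl s q n‖) ^ 2 :=
          pow_le_pow_left₀ (norm_nonneg _) e1 2
      _ ≤ S * (X * (C3 * X * Real.log X ^ 2)) := e2.trans (mul_le_mul_of_nonneg_left e3 hS0)
      _ = E := by rw [hEdef]; ring
  set B : ℝ := C2 * ((K + 1 : ℕ) + X ^ 2) * H * S + 2 * (H * E) with hB
  have hmain := h1 a K H A B hA hAK hH1 hH2 hH3 (fun t ht => by
    have g1 := h2 s X c (K - 1) (K + 1) t hs hX (by omega)
    have g2 := blocks a K t hK1 (C2 * ((K + 1 : ℕ) + X ^ 2) * t * S) E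
      hE0 (by
        refine le_trans (le_of_eq ?_) g1
        exact Finset.sum_congr rfl fun x _ => by rw [hblk]) (fun x t' _ => hE x t')
    refine g2.trans ?_
    have ht' : (t : ℝ) ≤ H := by exact_mod_cast ht
    rw [hB]
    gcongr)
  have hSK : ∀ α : ℝ, ∑ q ∈ Q s X, c q * SK s q K α =
      ∑ n ∈ Finset.Ioc K (2 * K), a n * (n : ℂ) ^ (-(pt α)) := by
    intro α
    simp only [ha, SK, Finset.mul_sum, Finset.sum_mul]
    rw [Finset.sum_comm]
    exact Finset.sum_congr rfl fun n _ => Finset.sum_congr rfl fun q _ => by ring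
  simp only [hSK]
  refine hmain.trans ?_
  have k1 : (A / (K * H)) * B =
      A * (C2 * (((K + 1 : ℕ) : ℝ) / K + X ^ 2 / K) + 2 * (C3 * Real.log X ^ 2 * (X ^ 2 / K))) * S := by
    rw [hB, hEdef]
    field_simp
  have k2 : ((K + 1 : ℕ) : ℝ) / K ≤ 2 := by
    rw [div_le_iff₀ hKpos]
    push_cast
    linarith
  have k0 : 0 ≤ X ^ 2 / K := by positivity
  have hXe : 1 ≤ X ^ e := Real.one_le_rpow hX he.le
  have hlog := log_sq_le he hX
  have k6 : C2 * (((K + 1 : ℕ) : ℝ) / K + X ^ 2 / K) ≤ 2 * C2 * X ^ e * (1 + X ^ 2 / K) := by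
    calc C2 * (((K + 1 : ℕ) : ℝ) / K + X ^ 2 / K) ≤ C2 * (2 * (1 + X ^ 2 / K)) :=
          mul_le_mul_of_nonneg_left (by linarith) hC2.le
      _ = (2 * C2 * (1 + X ^ 2 / K)) * 1 := by ring
      _ ≤ (2 * C2 * (1 + X ^ 2 / K)) * X ^ e := mul_le_mul_of_nonneg_left hXe (by positivity)
      _ = _ := by ring
  have k8 : 2 * (C3 * Real.log X ^ 2 * (X ^ 2 / K)) ≤ 2 * C3 * (4 / e ^ 2) * X ^ e * (1 + X ^ 2 / K) := by
    calc 2 * (C3 * Real.log X ^ 2 * (X ^ 2 / K)) = (2 * C3 * Real.log X ^ 2) * (X ^ 2 / K) := by ring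
      _ ≤ (2 * C3 * (4 / e ^ 2 * X ^ e)) * (1 + X ^ 2 / K) := by
          refine mul_le_mul (mul_le_mul_of_nonneg_left hlog (by positivity)) (by linarith) k0 (by positivity)
      _ = _ := by ring
  have k7 : C2 * (((K + 1 : ℕ) : ℝ) / K + X ^ 2 / K) + 2 * (C3 * Real.log X ^ 2 * (X ^ 2 / K)) ≤
      (2 * C2 + 2 * C3 * (4 / e ^ 2)) * X ^ e * (1 + X ^ 2 / K) := by
    linarith
  calc C1 * (A / (K * H)) * B = C1 * ((A / (K * H)) * B) := by ring
    _ = C1 * (A * (C2 * (((K + 1 : ℕ) : ℝ) / K + X ^ 2 / K) +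
          2 * (C3 * Real.log X ^ 2 * (X ^ 2 / K))) * S) := by
        rw [k1]
    _ ≤ C1 * (A * ((2 * C2 + 2 * C3 * (4 / e ^ 2)) * X ^ e * (1 + X ^ 2 / K)) * S) := by gcongr
    _ = C1 * (2 * C2 + 2 * C3 * (4 / e ^ 2)) * X ^ e * A * (1 + X ^ 2 / K) * S := by ring

theorem t_BIG1P (h1 : S_BLK) (h2 : S_ONE) (h3 : S_PVI) : S_BIG1P := by
  obtain ⟨C1, hC1, h1⟩ := h1
  obtain ⟨C3, hC3, h3⟩ := h3
  refine ⟨C1 * (3 + 2 * C3), by positivity, fun s q A K hq hA hAK hqK => ?_⟩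
  have hApos : 0 < A := by linarith
  have hKpos : (0 : ℝ) < K := by linarith
  have hK1 : 1 ≤ K := by exact_mod_cast hKpos
  obtain ⟨H, hH1, hH2, hH3⟩ := exH A K hA hAK
  have hHpos : (0 : ℝ) < H := by exact_mod_cast hH1
  set L : ℝ := Real.log q ^ 2 with hL
  have hL0 : 0 ≤ L := sq_nonneg _
  set E : ℝ := C3 * q * L with hE
  set B : ℝ := (((K + 1 : ℕ) : ℝ) + q) * H + 2 * (H * E) with hB
  have hmain := h1 (vl s q) K H A B hA hAK hH1 hH2 hH3 (fun t ht => by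
    have g1 := h2 s q (K - 1) (K + 1) t hq
    have g3 : ((min t q : ℕ) : ℝ) ≤ t := by exact_mod_cast min_le_left _ _
    have g2 := blocks (vl s q) K t hK1 ((((K + 1 : ℕ) : ℝ) + q) * t) E (by positivity)
      (g1.trans (mul_le_mul_of_nonneg_left g3 (by positivity)))
      (fun x t' _ => h3 s q x t' hq)
    refine g2.trans ?_
    have ht' : (t : ℝ) ≤ H := by exact_mod_cast ht
    rw [hB]
    gcongr)
  unfold SK
  refine hmain.trans ?_
  have k1 : (A / (K * H)) * B = A * (((K + 1 : ℕ) : ℝ) / K + (q : ℝ) / K + 2 * C3 * L * ((q : ℝ) / K)) := by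
    rw [hB, hE]
    field_simp
  have k2 : ((K + 1 : ℕ) : ℝ) / K ≤ 2 := by
    rw [div_le_iff₀ hKpos]
    push_cast
    linarith
  have k3 : (q : ℝ) / K ≤ 1 := by
    rw [div_le_one hKpos]
    exact_mod_cast hqK
  have k5 : (A / (K * H)) * B ≤ (3 + 2 * C3) * A * (1 + L) := by
    rw [k1]
    have e3 := mul_le_mul_of_nonneg_left k3 (by positivity : 0 ≤ 2 * C3 * L)
    have e4 : ((K + 1 : ℕ) : ℝ) / K + (q : ℝ) / K + 2 * C3 * L * ((q : ℝ) / K) ≤ (3 + 2 * C3) * (1 + L) := by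
      nlinarith
    calc A * (((K + 1 : ℕ) : ℝ) / K + (q : ℝ) / K + 2 * C3 * L * ((q : ℝ) / K)) ≤
          A * ((3 + 2 * C3) * (1 + L)) := mul_le_mul_of_nonneg_left e4 hApos.le
      _ = _ := by ring
  calc C1 * (A / (K * H)) * B = C1 * ((A / (K * H)) * B) := by ring
    _ ≤ C1 * ((3 + 2 * C3) * A * (1 + L)) := mul_le_mul_of_nonneg_left k5 hC1.le
    _ = C1 * (3 + 2 * C3) * A * (1 + L) := by ring

end Pool.Agent.N879.QM
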