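import Pool.Agent.N879.QM.Stm2
import Pool.Agent.N879.QM.Gk

/-!
# Project QM2, part HBG (helper434): Heath-Brown's large sieve for general coefficients over the family
-/

set_option autoImplicit false

namespace Pool.Agent.N879.QM

open Complex Filter Topology MeasureTheory Set
open scoped BigOperators
open Pool.Agent.H306R2.RZ (js osf sqf LSB)
open Pool.Agent.H306R2.RG (FD F8 F4 F1 Fam cf)
open Pool.Agent.H423R2.RZL.HBLSn (HBLS)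
open Pool.Agent.H987R2.RGCLS (CLS cf_eq)

noncomputable section

namespace Hbgaux

/-- one class, one pair `(b, r)` -/
theorem fix {M N : ℕ} {B : ℝ} (hB : 0 ≤ B) (h : LSB M N B) (φ : FD) (hη : |φ.η| ≤ 1)
    (D : Finset ℕ) (dd : ℕ → ℕ) (hd : ∀ q ∈ D, dd q ∈ sqf M)
    (hinj : ∀ q ∈ D, ∀ q' ∈ D, dd q = dd q' → q = q') (a : ℕ → ℂ) (v r : ℕ) (hr : Odd r) :
    ∑ q ∈ D, ‖∑ m ∈ osf N, ((cf φ (dd q) (2 ^ v * (m * r ^ 2)) : ℝ) : ℂ) * a m‖ ^ 2 ≤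
      B * ∑ m ∈ osf N, ‖a m‖ ^ 2 := by
  classical
  have h1 := h fun m => a m * (js φ.e m : ℂ)
  have h2 : ∑ m ∈ osf N, ‖a m * (js φ.e m : ℂ)‖ ^ 2 ≤ ∑ m ∈ osf N, ‖a m‖ ^ 2 := by
    refine Finset.sum_le_sum fun m _ => ?_
    rw [norm_mul, mul_pow]
    apply mul_le_of_le_one_right (by positivity)
    rw [Complex.norm_real, Real.norm_eq_abs]
    exact pow_le_one₀ (abs_nonneg _) (gk_js_abs _ _)
  refine le_trans ?_ (h1.trans (mul_le_mul_of_nonneg_left h2 hB))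
  have e : ∑ m ∈ D.image dd, ‖∑ n ∈ osf N, a n * (js φ.e n : ℂ) * (js m n : ℂ)‖ ^ 2 =
      ∑ q ∈ D, ‖∑ n ∈ osf N, a n * (js φ.e n : ℂ) * (js (dd q) n : ℂ)‖ ^ 2 :=
    Finset.sum_image fun q hq q' hq' h => hinj q hq q' hq' h
  have h3 : ∑ q ∈ D, ‖∑ n ∈ osf N, a n * (js φ.e n : ℂ) * (js (dd q) n : ℂ)‖ ^ 2 ≤
      ∑ m ∈ sqf M, ‖∑ n ∈ osf N, a n * (js φ.e n : ℂ) * (js m n : ℂ)‖ ^ 2 := by
    rw [← e]
    apply Finset.sum_le_sum_of_subset_of_nonneg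
    · intro m hm
      obtain ⟨q, hq, rfl⟩ := Finset.mem_image.1 hm
      exact hd q hq
    · intro _ _ _
      positivity
  refine le_trans ?_ h3
  refine Finset.sum_le_sum fun q _ => ?_
  have e2 : ∑ m ∈ osf N, ((cf φ (dd q) (2 ^ v * (m * r ^ 2)) : ℝ) : ℂ) * a m =
      ((φ.η ^ v * (js φ.e r * js (dd q) r) ^ 2 : ℝ) : ℂ) *
        ∑ n ∈ osf N, a n * (js φ.e n : ℂ) * (js (dd q) n : ℂ) := by
    rw [Finset.mul_sum]
    refine Finset.sum_congr rfl fun m hm => ?_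
    unfold osf at hm
    rw [Finset.mem_filter, Finset.mem_Icc] at hm
    obtain ⟨⟨hm1, hm2⟩, hmo, hms⟩ := hm
    have e1 : cf φ (dd q) (2 ^ v * (m * r ^ 2)) =
        φ.η ^ v * ((js φ.e m * js (dd q) m) * (js φ.e r * js (dd q) r) ^ 2) := by
      rw [cf_eq φ _ _ _ (hmo.mul (hr.pow))]
      congr 1
      rw [← gk_js_mul, ← gk_js_mul, ← gk_js_right _ _ _ (by omega) hr.pos.ne']
      rfl
    rw [e1]
    push_cast
    ring
  rw [e2, norm_mul, mul_pow]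
  apply mul_le_of_le_one_left (by positivity)
  rw [Complex.norm_real, Real.norm_eq_abs, abs_mul, abs_pow, abs_pow, abs_mul]
  apply pow_le_one₀ (by positivity)
  apply mul_le_one₀ (pow_le_one₀ (abs_nonneg _) hη) (by positivity)
  exact pow_le_one₀ (by positivity) (mul_le_one₀ (gk_js_abs _ _) (by positivity) (gk_js_abs _ _))

/-- the index set of the decomposition -/
def TT (K : ℕ) : Finset ((_ : ℕ × ℕ) × ℕ) :=
  (GkT K).sigma (fun p => osf (K / (2 ^ p.1 * p.2 ^ 2)))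

/-- the number with a given decomposition -/
def nx (x : (_ : ℕ × ℕ) × ℕ) : ℕ := 2 ^ x.1.1 * (x.2 * x.1.2 ^ 2)

theorem exists_g (K : ℕ) : ∃ g : ℕ → (_ : ℕ × ℕ) × ℕ, ∀ n, 1 ≤ n → n ≤ K →
    g n ∈ TT K ∧ Odd (g n).1.2 ∧ nx (g n) = n := by
  classical
  have h1 : ∀ n : ℕ, ∃ x : (_ : ℕ × ℕ) × ℕ, 1 ≤ n → n ≤ K →
      x ∈ TT K ∧ Odd x.1.2 ∧ nx x = n := by
    intro n
    by_cases hn : 1 ≤ n ∧ n ≤ K
    · obtain ⟨b, r, m, hr, hm, hsq, e⟩ := gk_decomp n hn.1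
      refine ⟨⟨(b, r), m⟩, fun _ _ => ⟨?_, hr, e⟩⟩
      have hr0 : 1 ≤ r := hr.pos
      have hm0 : 1 ≤ m := hm.pos
      have h2 : 2 ^ b * r ^ 2 * m = n := by rw [← e]; ring
      have h3 : 2 ^ b * r ^ 2 ≤ n := by
        rw [← h2]; exact Nat.le_mul_of_pos_right _ hm0
      unfold TT
      rw [Finset.mem_sigma]
      constructor
      · unfold GkT
        rw [Finset.mem_filter, Finset.mem_product, Finset.mem_range, Finset.mem_Icc]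
        have h4 : b < 2 ^ b := Nat.lt_two_pow_self
        have h5 : 2 ^ b ≤ 2 ^ b * r ^ 2 := Nat.le_mul_of_pos_right _ (by positivity)
        have h6 : r ≤ r ^ 2 := by nlinarith
        have h7 : r ^ 2 ≤ 2 ^ b * r ^ 2 := Nat.le_mul_of_pos_left _ (by positivity)
        exact ⟨⟨by simp only; omega, hr0, by simp only; omega⟩, by simp only; omega⟩
      · unfold osf
        rw [Finset.mem_filter, Finset.mem_Icc]
        refine ⟨⟨hm0, ?_⟩, hm, hsq⟩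
        rw [Nat.le_div_iff_mul_le (by positivity)]
        simp only
        calc m * (2 ^ b * r ^ 2) = n := by rw [← h2]; ring
          _ ≤ K := hn.2
    · exact ⟨⟨(0, 0), 0⟩, fun h2 h3 => absurd ⟨h2, h3⟩ hn⟩
  choose g hg using h1
  exact ⟨g, hg⟩

theorem sum_g {K : ℕ} {g : ℕ → (_ : ℕ × ℕ) × ℕ} (hg : ∀ n, 1 ≤ n → n ≤ K →
    g n ∈ TT K ∧ Odd (g n).1.2 ∧ nx (g n) = n) {A : Type} [AddCommMonoid A]
    (Φ : (_ : ℕ × ℕ) × ℕ → A) (hΦ : ∀ x, x ∉ (Finset.Icc 1 K).image g → Φ x = 0) :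
    ∑ n ∈ Finset.Icc 1 K, Φ (g n) = ∑ p ∈ GkT K, ∑ m ∈ osf (K / (2 ^ p.1 * p.2 ^ 2)), Φ ⟨p, m⟩ := by
  classical
  rw [← Finset.sum_sigma (GkT K) (fun p => osf (K / (2 ^ p.1 * p.2 ^ 2))) Φ]
  have e : ∑ x ∈ (Finset.Icc 1 K).image g, Φ x = ∑ n ∈ Finset.Icc 1 K, Φ (g n) := by
    rw [Finset.sum_image]
    intro n hn n' hn' h
    rw [Finset.mem_coe, Finset.mem_Icc] at hn hn'
    obtain ⟨-, -, h4⟩ := hg n hn.1 hn.2
    obtain ⟨-, -, h5⟩ := hg n' hn'.1 hn'.2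
    rw [← h4, ← h5, h]
  rw [← e]
  apply Finset.sum_subset
  · intro x hx
    obtain ⟨n, hn, rfl⟩ := Finset.mem_image.1 hx
    rw [Finset.mem_Icc] at hn
    exact (hg n hn.1 hn.2).1
  · intro x _ hx
    exact hΦ x hx

/-- the sum of the reciprocals -/
theorem sum_inv (δ : ℝ) (hδ : 0 < δ) : ∃ A : ℝ, 0 < A ∧ ∀ K : ℕ, 1 ≤ K →
    ∑ p ∈ GkT K, (1 : ℝ) / p.2 ≤ A * (K : ℝ) ^ δ := by
  obtain ⟨ρ, hρ⟩ : ∃ ρ : ℝ, ρ = (2 : ℝ) ^ (-δ) := ⟨_, rfl⟩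
  have hρ0 : 0 < ρ := by rw [hρ]; positivity
  have hρ1 : ρ < 1 := by
    rw [hρ]
    exact Real.rpow_lt_one_of_one_lt_of_neg (by norm_num) (by linarith)
  have hsum : Summable fun n : ℕ => 1 / (n : ℝ) ^ (1 + 2 * δ) :=
    Real.summable_one_div_nat_rpow.mpr (by linarith)
  obtain ⟨A2, hA2⟩ : ∃ A2 : ℝ, A2 = ∑' n : ℕ, 1 / (n : ℝ) ^ (1 + 2 * δ) := ⟨_, rfl⟩
  have hA20 : 0 ≤ A2 := by rw [hA2]; exact tsum_nonneg fun _ => by positivity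
  have h1ρ : 0 < (1 - ρ)⁻¹ := inv_pos.mpr (by linarith)
  refine ⟨(1 - ρ)⁻¹ * (A2 + 1), by positivity, fun K hK => ?_⟩
  have hK' : (0 : ℝ) < K := by exact_mod_cast hK
  have h1 : ∀ p ∈ GkT K, (1 : ℝ) / p.2 ≤ (K : ℝ) ^ δ * (ρ ^ p.1 * (1 / (p.2 : ℝ) ^ (1 + 2 * δ))) := by
    intro p hp
    unfold GkT at hp
    rw [Finset.mem_filter, Finset.mem_product, Finset.mem_range, Finset.mem_Icc] at hp
    obtain ⟨⟨h2, h3, h4⟩, h5⟩ := hp
    have hr : (0 : ℝ) < p.2 := by exact_mod_cast h3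
    have h6 : (2 : ℝ) ^ p.1 * (p.2 : ℝ) ^ 2 ≤ K := by exact_mod_cast h5
    have h7 : ((2 : ℝ) ^ p.1 * (p.2 : ℝ) ^ 2) ^ δ ≤ (K : ℝ) ^ δ :=
      Real.rpow_le_rpow (by positivity) h6 hδ.le
    have h8 : ((2 : ℝ) ^ p.1 * (p.2 : ℝ) ^ 2) ^ δ * (ρ ^ p.1 * (1 / (p.2 : ℝ) ^ (1 + 2 * δ))) =
        1 / (p.2 : ℝ) := by
      rw [Real.mul_rpow (by positivity) (by positivity), hρ]
      have e1 : ((2 : ℝ) ^ p.1) ^ δ * ((2 : ℝ) ^ (-δ)) ^ p.1 = 1 := by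
        rw [← Real.rpow_natCast (2 : ℝ) p.1, ← Real.rpow_mul (by norm_num),
          ← Real.rpow_natCast ((2 : ℝ) ^ (-δ)) p.1, ← Real.rpow_mul (by norm_num),
          ← Real.rpow_add (by norm_num)]
        ring_nf
        simp
      have e2 : ((p.2 : ℝ) ^ 2) ^ δ = (p.2 : ℝ) ^ (2 * δ) := by
        rw [← Real.rpow_natCast (p.2 : ℝ) 2, ← Real.rpow_mul hr.le]
        norm_num
      have e3 : (p.2 : ℝ) ^ (1 + 2 * δ) = p.2 * (p.2 : ℝ) ^ (2 * δ) := by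
        rw [Real.rpow_add hr, Real.rpow_one]
      have h9 : 0 < (p.2 : ℝ) ^ (2 * δ) := Real.rpow_pos_of_pos hr _
      calc ((2 : ℝ) ^ p.1) ^ δ * ((p.2 : ℝ) ^ 2) ^ δ *
            (((2 : ℝ) ^ (-δ)) ^ p.1 * (1 / (p.2 : ℝ) ^ (1 + 2 * δ)))
          = (((2 : ℝ) ^ p.1) ^ δ * ((2 : ℝ) ^ (-δ)) ^ p.1) *
            (((p.2 : ℝ) ^ 2) ^ δ * (1 / (p.2 : ℝ) ^ (1 + 2 * δ))) := by ring
        _ = 1 / (p.2 : ℝ) := by
          rw [e1, e2, e3]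
          field_simp
    rw [← h8]
    exact mul_le_mul_of_nonneg_right h7 (by positivity)
  refine (Finset.sum_le_sum h1).trans ?_
  rw [← Finset.mul_sum, mul_comm]
  refine mul_le_mul_of_nonneg_right ?_ (by positivity)
  have h2 : ∑ p ∈ GkT K, ρ ^ p.1 * (1 / (p.2 : ℝ) ^ (1 + 2 * δ)) ≤
      ∑ p ∈ Finset.range (K + 1) ×ˢ Finset.Icc 1 K, ρ ^ p.1 * (1 / (p.2 : ℝ) ^ (1 + 2 * δ)) := by
    apply Finset.sum_le_sum_of_subset_of_nonneg (Finset.filter_subset _ _)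
    intro _ _ _
    positivity
  have h3 : ∑ p ∈ Finset.range (K + 1) ×ˢ Finset.Icc 1 K,
      ρ ^ p.1 * (1 / (p.2 : ℝ) ^ (1 + 2 * δ)) =
      (∑ b ∈ Finset.range (K + 1), ρ ^ b) * ∑ r ∈ Finset.Icc 1 K, 1 / (r : ℝ) ^ (1 + 2 * δ) := by
    rw [Finset.sum_mul_sum, Finset.sum_product]
  have h4 : ∑ b ∈ Finset.range (K + 1), ρ ^ b ≤ (1 - ρ)⁻¹ :=
    sum_le_hasSum (Finset.range (K + 1)) (fun i _ => by positivity)
      (hasSum_geometric_of_lt_one hρ0.le hρ1)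
  have h5 : ∑ r ∈ Finset.Icc 1 K, 1 / (r : ℝ) ^ (1 + 2 * δ) ≤ A2 + 1 := by
    rw [hA2]
    have := hsum.sum_le_tsum (Finset.Icc 1 K) (fun i _ => by positivity)
    linarith
  rw [h3] at h2
  exact h2.trans (mul_le_mul h4 h5 (Finset.sum_nonneg fun _ _ => by positivity) h1ρ.le)

theorem cauchy (K : ℕ) (z : ℕ × ℕ → ℂ) :
    ‖∑ p ∈ GkT K, z p‖ ^ 2 ≤ (∑ p ∈ GkT K, (1 : ℝ) / p.2) * ∑ p ∈ GkT K, (p.2 : ℝ) * ‖z p‖ ^ 2 := by
  have h1 : ‖∑ p ∈ GkT K, z p‖ ^ 2 ≤ (∑ p ∈ GkT K, ‖z p‖) ^ 2 :=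
    pow_le_pow_left₀ (norm_nonneg _) (norm_sum_le _ _) 2
  refine h1.trans (Finset.sum_sq_le_sum_mul_sum_of_sq_le_mul _ (fun _ _ => by positivity)
    (fun _ _ => by positivity) fun p hp => ?_)
  unfold GkT at hp
  rw [Finset.mem_filter, Finset.mem_product, Finset.mem_range, Finset.mem_Icc] at hp
  have hr : (0 : ℝ) < p.2 := by exact_mod_cast hp.1.2.1
  refine le_of_eq ?_
  field_simp

theorem wq_ge (n r : ℕ) (hn : 1 ≤ n) (hr : 1 ≤ r) (h : r ^ 2 ∣ n) : (r : ℝ) ≤ wq n := by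
  unfold wq
  have h1 : r ∈ (Finset.Icc 1 n).filter (fun m => m ^ 2 ∣ n) := by
    rw [Finset.mem_filter, Finset.mem_Icc]
    have h2 := Nat.le_of_dvd hn h
    exact ⟨⟨hr, by nlinarith⟩, h⟩
  exact Finset.single_le_sum (f := fun m : ℕ => (m : ℝ)) (fun _ _ => Nat.cast_nonneg _) h1

end Hbgaux

open Hbgaux in
theorem t_HBG : S_HBG := by
  classical
  intro ε hε
  obtain ⟨C1, hC1, H⟩ := HBLS (ε / 2) (by positivity)
  obtain ⟨A0, hA0, hA⟩ := sum_inv (ε / 2) (by positivity)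
  refine ⟨16 * A0 * C1 * 2 ^ (ε / 2), by positivity, fun s X K y hs hX hK => ?_⟩
  -- the classification
  have hcl : ∀ q : ℕ, ∃ (i : Fin 8) (d : ℕ), Is s q → Squarefree d ∧ q = (gkFam i).r * d ∧
      ∀ n : ℕ, n ≠ 0 → vl s q n = ((cf (gkFam i) d n : ℝ) : ℂ) := by
    intro q
    by_cases hq : Is s q
    · have h1 : Rp s (ch s q) := by
        unfold ch
        rw [dif_pos hq]
        exact hq.2.choose_spec
      obtain ⟨φ, d, h2, -, h3, h4, h5⟩ := CLS q (by have := hq.1; omega) (ch s q) h1.1 h1.2.1 h1.2.2.1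
      obtain ⟨i, rfl⟩ := gkFam_of h2
      exact ⟨i, d, fun _ => ⟨h3, h4, h5⟩⟩
    · exact ⟨0, 0, fun h => absurd h hq⟩
  choose ii dd hdd using hcl
  obtain ⟨M, hM⟩ : ∃ M : ℕ, M = ⌈X⌉₊ := ⟨_, rfl⟩
  have hMX : X ≤ M := by rw [hM]; exact Nat.le_ceil X
  have hM2 : (M : ℝ) ≤ 2 * X := by
    have := Nat.ceil_lt_add_one (a := X) (by linarith)
    rw [hM]
    linarith
  have hM1 : 1 ≤ M := by
    have : (1 : ℝ) ≤ M := hX.trans hMX
    exact_mod_cast this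
  have hQ : ∀ q ∈ Q s X, Is s q ∧ q < M := by
    intro q hq
    unfold Q at hq
    rw [Finset.mem_filter, Finset.mem_Ico] at hq
    exact ⟨hq.2, by rw [hM]; exact hq.1.2⟩
  have hK1 : (1 : ℝ) ≤ K := by exact_mod_cast hK
  obtain ⟨g, hg⟩ := exists_g K
  obtain ⟨a, ha⟩ : ∃ a : (_ : ℕ × ℕ) × ℕ → ℂ, a = fun x =>
      if x ∈ (Finset.Icc 1 K).image g then y (nx x) else 0 := ⟨_, rfl⟩
  have ha0 : ∀ x, x ∉ (Finset.Icc 1 K).image g → a x = 0 := by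
    intro x hx
    rw [ha]
    exact if_neg hx
  have hag : ∀ n ∈ Finset.Icc 1 K, a (g n) = y n := by
    intro n hn
    rw [ha]
    simp only
    rw [if_pos (Finset.mem_image_of_mem g hn)]
    rw [Finset.mem_Icc] at hn
    rw [(hg n hn.1 hn.2).2.2]
  have hodd : ∀ (p : ℕ × ℕ) (m : ℕ), ¬ Odd p.2 → a ⟨p, m⟩ = 0 := by
    intro p m hp
    apply ha0
    intro hx
    obtain ⟨n, hn, e⟩ := Finset.mem_image.1 hx
    rw [Finset.mem_Icc] at hn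
    have := (hg n hn.1 hn.2).2.1
    rw [e] at this
    exact hp this
  obtain ⟨Bm, hBm⟩ : ∃ Bm : ℝ, Bm = 16 * C1 * (2 ^ (ε / 2) * (X * K) ^ (ε / 2)) * (X + K) := ⟨_, rfl⟩
  have hBm0 : 0 ≤ Bm := by rw [hBm]; positivity
  -- one pair
  have hone : ∀ p ∈ GkT K, ∑ q ∈ Q s X, ‖∑ m ∈ osf (K / (2 ^ p.1 * p.2 ^ 2)),
      vl s q (nx ⟨p, m⟩) * a ⟨p, m⟩‖ ^ 2 ≤
      Bm * ∑ m ∈ osf (K / (2 ^ p.1 * p.2 ^ 2)), ‖a ⟨p, m⟩‖ ^ 2 := by
    intro p hp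
    by_cases ho : Odd p.2
    · unfold GkT at hp
      rw [Finset.mem_filter, Finset.mem_product, Finset.mem_range, Finset.mem_Icc] at hp
      obtain ⟨⟨h1, h2, h3⟩, h4⟩ := hp
      obtain ⟨N, hN⟩ : ∃ N : ℕ, N = K / (2 ^ p.1 * p.2 ^ 2) := ⟨_, rfl⟩
      have hpos : 0 < 2 ^ p.1 * p.2 ^ 2 := by positivity
      have hN1 : 1 ≤ N := by
        rw [hN, Nat.one_le_div_iff hpos]
        exact h4
      have hNK' : (N : ℝ) ≤ K := by
        rw [hN]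
        exact_mod_cast Nat.div_le_self _ _
      rw [← hN]
      obtain ⟨B, hB⟩ : ∃ B : ℝ, B = C1 * ((M : ℝ) * N) ^ (ε / 2) * (M + N) := ⟨_, rfl⟩
      have hB0 : 0 ≤ B := by rw [hB]; positivity
      have hL : LSB M N B := by rw [hB]; exact H M N hM1 hN1
      have hBle : 8 * B ≤ Bm := by
        rw [hB, hBm]
        have h5 : ((M : ℝ) * N) ^ (ε / 2) ≤ 2 ^ (ε / 2) * (X * K) ^ (ε / 2) := by
          rw [← Real.mul_rpow (by norm_num) (by positivity)]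
          apply Real.rpow_le_rpow (by positivity) _ (by positivity)
          calc (M : ℝ) * N ≤ (2 * X) * K := mul_le_mul hM2 hNK' (by positivity) (by positivity)
            _ = 2 * (X * K) := by ring
        have h6 : (M : ℝ) + N ≤ 2 * (X + K) := by linarith
        calc 8 * (C1 * ((M : ℝ) * N) ^ (ε / 2) * (M + N)) ≤
            8 * (C1 * (2 ^ (ε / 2) * (X * K) ^ (ε / 2)) * (2 * (X + K))) := by gcongr
          _ = _ := by ring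
      have e : ∑ q ∈ Q s X, ‖∑ m ∈ osf N, vl s q (nx ⟨p, m⟩) * a ⟨p, m⟩‖ ^ 2 =
          ∑ i : Fin 8, ∑ q ∈ (Q s X).filter (fun q => ii q = i), ‖∑ m ∈ osf N,
            ((cf (gkFam i) (dd q) (2 ^ p.1 * (m * p.2 ^ 2)) : ℝ) : ℂ) * a ⟨p, m⟩‖ ^ 2 := by
        rw [← Finset.sum_fiberwise (Q s X) ii]
        refine Finset.sum_congr rfl fun i _ => Finset.sum_congr rfl fun q hq => ?_
        rw [Finset.mem_filter] at hq
        congr 2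
        refine Finset.sum_congr rfl fun m hm => ?_
        have hn0 : nx ⟨p, m⟩ ≠ 0 := by
          unfold osf at hm
          rw [Finset.mem_filter, Finset.mem_Icc] at hm
          have : 0 < m := hm.1.1
          unfold nx
          positivity
        rw [(hdd q (hQ q hq.1).1).2.2 _ hn0, hq.2]
        rfl
      rw [e]
      have h6 : ∀ i : Fin 8, ∑ q ∈ (Q s X).filter (fun q => ii q = i), ‖∑ m ∈ osf N,
            ((cf (gkFam i) (dd q) (2 ^ p.1 * (m * p.2 ^ 2)) : ℝ) : ℂ) * a ⟨p, m⟩‖ ^ 2 ≤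
          B * ∑ m ∈ osf N, ‖a ⟨p, m⟩‖ ^ 2 := by
        intro i
        apply fix hB0 hL (gkFam i) (gkFam_eta i) _ dd _ _ (fun m => a ⟨p, m⟩) p.1 p.2 ho
        · intro q hq
          rw [Finset.mem_filter] at hq
          obtain ⟨g1, g2⟩ := hQ q hq.1
          obtain ⟨g3, g4, -⟩ := hdd q g1
          unfold sqf
          rw [Finset.mem_filter, Finset.mem_Icc]
          have g5 : dd q ≠ 0 := g3.ne_zero
          have g6 : dd q ≤ (gkFam (ii q)).r * dd q := Nat.le_mul_of_pos_left _ (gkFam_r _)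
          exact ⟨⟨by omega, by omega⟩, g3⟩
        · intro q hq q' hq' h
          rw [Finset.mem_filter] at hq hq'
          rw [(hdd q (hQ q hq.1).1).2.1, (hdd q' (hQ q' hq'.1).1).2.1, hq.2, hq'.2, h]
      refine (Finset.sum_le_sum fun i _ => h6 i).trans ?_
      rw [Finset.sum_const, Finset.card_univ, Fintype.card_fin, nsmul_eq_mul, ← mul_assoc]
      refine mul_le_mul_of_nonneg_right ?_ (Finset.sum_nonneg fun _ _ => by positivity)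
      exact_mod_cast hBle
    · have h1 : ∀ m, a ⟨p, m⟩ = 0 := fun m => hodd p m ho
      simp [h1]
  -- the decomposition
  have hdec : ∀ q, ∑ n ∈ Finset.Icc 1 K, vl s q n * y n =
      ∑ p ∈ GkT K, ∑ m ∈ osf (K / (2 ^ p.1 * p.2 ^ 2)), vl s q (nx ⟨p, m⟩) * a ⟨p, m⟩ := by
    intro q
    rw [← sum_g hg (fun x => vl s q (nx x) * a x) (fun x hx => by rw [ha0 x hx, mul_zero])]
    refine Finset.sum_congr rfl fun n hn => ?_
    rw [hag n hn]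
    rw [Finset.mem_Icc] at hn
    rw [(hg n hn.1 hn.2).2.2]
  have hdec2 : ∑ p ∈ GkT K, (p.2 : ℝ) * ∑ m ∈ osf (K / (2 ^ p.1 * p.2 ^ 2)), ‖a ⟨p, m⟩‖ ^ 2 ≤
      ∑ n ∈ Finset.Icc 1 K, wq n * ‖y n‖ ^ 2 := by
    simp only [Finset.mul_sum]
    rw [← sum_g hg (fun x => (x.1.2 : ℝ) * ‖a x‖ ^ 2) (fun x hx => by rw [ha0 x hx]; simp)]
    refine Finset.sum_le_sum fun n hn => ?_
    rw [hag n hn]
    rw [Finset.mem_Icc] at hn
    obtain ⟨-, h2, h3⟩ := hg n hn.1 hn.2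
    refine mul_le_mul_of_nonneg_right (wq_ge n _ hn.1 h2.pos ?_) (by positivity)
    refine ⟨2 ^ (g n).1.1 * (g n).2, ?_⟩
    conv_lhs => rw [← h3]
    unfold nx
    ring
  have hstep : ∀ q ∈ Q s X, ‖∑ n ∈ Finset.Icc 1 K, vl s q n * y n‖ ^ 2 ≤
      (A0 * (K : ℝ) ^ (ε / 2)) * ∑ p ∈ GkT K, (p.2 : ℝ) *
        ‖∑ m ∈ osf (K / (2 ^ p.1 * p.2 ^ 2)), vl s q (nx ⟨p, m⟩) * a ⟨p, m⟩‖ ^ 2 := by
    intro q _
    rw [hdec q]
    refine (cauchy K _).trans (mul_le_mul_of_nonneg_right (hA K hK) ?_)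
    exact Finset.sum_nonneg fun _ _ => by positivity
  refine (Finset.sum_le_sum hstep).trans ?_
  rw [← Finset.mul_sum, Finset.sum_comm]
  have h7 : ∑ p ∈ GkT K, ∑ q ∈ Q s X, (p.2 : ℝ) *
        ‖∑ m ∈ osf (K / (2 ^ p.1 * p.2 ^ 2)), vl s q (nx ⟨p, m⟩) * a ⟨p, m⟩‖ ^ 2 ≤
      Bm * ∑ n ∈ Finset.Icc 1 K, wq n * ‖y n‖ ^ 2 := by
    refine le_trans ?_ (mul_le_mul_of_nonneg_left hdec2 hBm0)
    rw [Finset.mul_sum]
    refine Finset.sum_le_sum fun p hp => ?_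
    rw [← Finset.mul_sum]
    calc (p.2 : ℝ) * ∑ q ∈ Q s X, ‖∑ m ∈ osf (K / (2 ^ p.1 * p.2 ^ 2)),
          vl s q (nx ⟨p, m⟩) * a ⟨p, m⟩‖ ^ 2 ≤
          (p.2 : ℝ) * (Bm * ∑ m ∈ osf (K / (2 ^ p.1 * p.2 ^ 2)), ‖a ⟨p, m⟩‖ ^ 2) :=
          mul_le_mul_of_nonneg_left (hone p hp) (Nat.cast_nonneg _)
      _ = _ := by ring
  have hKX : (K : ℝ) ^ (ε / 2) ≤ (X * K) ^ (ε / 2) :=
    Real.rpow_le_rpow (by positivity) (by nlinarith) (by positivity)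
  have hS0 : 0 ≤ ∑ n ∈ Finset.Icc 1 K, wq n * ‖y n‖ ^ 2 := by
    refine Finset.sum_nonneg fun n _ => mul_nonneg ?_ (by positivity)
    exact Finset.sum_nonneg fun _ _ => Nat.cast_nonneg _
  have hsplit : (X * K : ℝ) ^ ε = (X * K) ^ (ε / 2) * (X * K) ^ (ε / 2) := by
    rw [← Real.rpow_add (by positivity)]
    congr 1
    ring
  calc (A0 * (K : ℝ) ^ (ε / 2)) * _ ≤ (A0 * (X * K : ℝ) ^ (ε / 2)) *
        (Bm * ∑ n ∈ Finset.Icc 1 K, wq n * ‖y n‖ ^ 2) := by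
        refine mul_le_mul (mul_le_mul_of_nonneg_left hKX hA0.le) h7 ?_ (by positivity)
        exact Finset.sum_nonneg fun _ _ => Finset.sum_nonneg fun _ _ => by positivity
    _ = _ := by
        rw [hsplit, hBm]
        ring

end

end Pool.Agent.N879.QM
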