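import Pool.Agent.N879.QM.Stm

set_option autoImplicit false

/-! Project QM: assembly, first part (measurability, mean squares). -/

namespace Pool.Agent.N879.QM

open Complex Filter Topology MeasureTheory Set

noncomputable section

/-- Chebyshev -/
lemma cheb {Ω : Type*} [MeasurableSpace Ω] {μ : Measure Ω} {g : Ω → ℝ} (hg : AEMeasurable g μ)
    {B lam : ℝ} (hl : 0 < lam)
    (h : ∫⁻ x, ENNReal.ofReal (g x ^ 2) ∂μ ≤ ENNReal.ofReal B) :
    μ {x | lam < g x} ≤ ENNReal.ofReal (B / lam ^ 2) := by
  have h1 : AEMeasurable (fun x => ENNReal.ofReal (g x ^ 2)) μ := (hg.pow_const 2).ennreal_ofReal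
  have h2 := meas_ge_le_lintegral_div h1 (ε := ENNReal.ofReal (lam ^ 2))
    (by rw [Ne, ENNReal.ofReal_eq_zero, not_le]; positivity) ENNReal.ofReal_ne_top
  refine (measure_mono ?_).trans (h2.trans ?_)
  · intro x hx
    simp only [mem_ofPred_eq] at hx ⊢
    exact ENNReal.ofReal_le_ofReal (pow_le_pow_left₀ hl.le hx.le 2)
  · rw [ENNReal.ofReal_div_of_pos (by positivity)]
    exact ENNReal.div_le_div_right h _

lemma meas_zeta : Measurable riemannZeta := by
  refine measurable_of_continuousOn_compl_singleton 1 ?_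
  intro z hz
  exact (differentiableAt_riemannZeta (by simpa using hz)).continuousAt.continuousWithinAt

variable {k : ℕ}

lemma pt_cont : Continuous pt := by
  unfold pt
  fun_prop

lemma meas_cx (n : Fin k → ℕ) : Measurable fun β : Fin k → ℝ => cx n β := by
  unfold cx
  refine Finset.measurable_prod _ fun j _ => ?_
  refine Measurable.pow measurable_const ?_
  exact ((pt_cont.measurable.comp (measurable_pi_apply j)).neg)

lemma meas_gA (m : ℕ) : Measurable fun β : Fin k → ℝ => gA β m := by
  have e : (fun β : Fin k → ℝ => gA β m) = fun β =>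
      if m = 0 then 0 else (af m : ℂ) * ∑ n ∈ Nat.finMulAntidiag k (m ^ 2), cx n β := by
    funext β
    rfl
  rw [e]
  by_cases h : m = 0
  · simp only [h, if_true]
    exact measurable_const
  · simp only [h, if_false]
    exact measurable_const.mul (Finset.measurable_sum _ fun n _ => meas_cx n)

lemma meas_muA (r : Pr k) (m : ℕ) : Measurable fun β : Fin k → ℝ => muA (pp β r) m := by
  have e : (fun β : Fin k → ℝ => muA (pp β r) m) = fun β =>
      ((ArithmeticFunction.moebius m : ℤ) : ℂ) * (m : ℂ) ^ (-(pp β r)) := by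
    funext β
    rfl
  rw [e]
  refine measurable_const.mul (Measurable.pow measurable_const ?_)
  have : Continuous fun β : Fin k → ℝ => pp β r := by
    unfold pp
    fun_prop
  exact this.measurable.neg

lemma meas_mul {f g : (Fin k → ℝ) → ArithmeticFunction ℂ} (hf : ∀ m, Measurable fun β => f β m)
    (hg : ∀ m, Measurable fun β => g β m) (m : ℕ) : Measurable fun β => (f β * g β) m := by
  simp only [ArithmeticFunction.mul_apply]
  exact Finset.measurable_sum _ fun x _ => (hf _).mul (hg _)

open Classical in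
lemma meas_prod (t : Finset (Pr k)) : ∀ m : ℕ, Measurable fun β : Fin k → ℝ => (∏ r ∈ t, muA (pp β r)) m := by
  induction t using Finset.induction_on with
  | empty =>
    intro m
    simp only [Finset.prod_empty]
    exact measurable_const
  | insert a t ha ih =>
    intro m
    simp only [Finset.prod_insert ha]
    exact meas_mul (meas_muA a) ih m

lemma meas_al (m : ℕ) : Measurable fun β : Fin k → ℝ => al β m := by
  classical
  unfold al
  exact meas_mul meas_gA (meas_prod Finset.univ) m

lemma meas_Ak (hE : S_EUL) : Measurable fun β : Fin k → ℝ => Ak (im β) := by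
  obtain ⟨C, hC, h⟩ := hE k
  refine measurable_of_tendsto_metrizable (f := fun (M : ℕ) (β : Fin k → ℝ) =>
    ∑ m ∈ Finset.Icc 1 M, al β m) (fun M => Finset.measurable_sum _ fun m _ => meas_al m) ?_
  rw [tendsto_pi_nhds]
  intro β
  rw [tendsto_iff_norm_sub_tendsto_zero]
  have h1 : Tendsto (fun M : ℕ => C * (M : ℝ) ^ (-(1 / 4) : ℝ)) atTop (𝓝 0) := by
    have := (tendsto_rpow_neg_atTop (y := (1 / 4 : ℝ)) (by norm_num)).comp tendsto_natCast_atTop_atTop
    simpa using this.const_mul C
  refine squeeze_zero' (Eventually.of_forall fun M => norm_nonneg _) ?_ h1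
  filter_upwards [eventually_ge_atTop 1] with M hM
  rw [norm_sub_rev]
  exact (h β).2 M hM

lemma meas_MT (hE : S_EUL) : Measurable fun β : Fin k → ℝ => MT (im β) := by
  unfold MT
  refine (meas_Ak hE).mul (Finset.measurable_prod _ fun r _ => meas_zeta.comp ?_)
  have : Continuous fun β : Fin k → ℝ => (1 + im β r.1.1 + im β r.1.2 : ℂ) := by
    unfold im
    fun_prop
  exact this.measurable

lemma meas_SN (N : ℕ) : Measurable fun β : Fin k → ℝ => SN k N β := by
  classical
  unfold SN
  refine Finset.measurable_sum _ fun n _ => ?_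
  split_ifs
  · exact measurable_const.mul (meas_cx n)
  · exact measurable_const

lemma meas_zN (Y : ℕ) (r : Pr k) : Measurable fun β : Fin k → ℝ => zN Y (pp β r) := by
  unfold zN
  refine Finset.measurable_sum _ fun n _ => Measurable.pow measurable_const ?_
  have : Continuous fun β : Fin k → ℝ => pp β r := by
    unfold pp
    fun_prop
  exact this.measurable.neg

lemma Gd_meas (k : ℕ) (A : ℝ) : MeasurableSet (Gd k A) := by
  have e : Gd k A = (⋂ j : Fin k, {β : Fin k → ℝ | |β j| ≤ A}) ∩
      ⋂ r : Pr k, {β : Fin k → ℝ | 2 * A ^ (1 / 2 : ℝ) ≤ |β r.1.1 + β r.1.2|} := by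
    ext β
    simp [Gd]
  rw [e]
  refine IsClosed.measurableSet (IsClosed.inter (isClosed_iInter fun j => ?_) (isClosed_iInter fun r => ?_))
  · exact isClosed_le (by fun_prop) continuous_const
  · exact isClosed_le continuous_const (by fun_prop)

lemma PN_cont (s : ℤ) (q N : ℕ) : Continuous (PN s q N) := by
  unfold PN
  refine continuous_finset_sum _ fun n hn => continuous_const.mul ?_
  have hn1 : 1 ≤ n := (Finset.mem_Icc.1 hn).1
  have hn0 : (n : ℂ) ≠ 0 := by exact_mod_cast (by omega : n ≠ 0)
  have : Continuous fun α : ℝ => -(pt α) := pt_cont.neg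
  exact Continuous.const_cpow this (Or.inl hn0)

lemma Q_is {s : ℤ} {X : ℝ} {q : ℕ} (h : q ∈ Q s X) : Is s q ∧ (q : ℝ) < X := by
  classical
  unfold Q at h
  rw [Finset.mem_filter, Finset.mem_Ico] at h
  exact ⟨h.2, Nat.lt_ceil.1 h.1.2⟩

lemma Q_card {s : ℤ} {X : ℝ} (hX : 1 ≤ X) : ((Q s X).card : ℝ) ≤ X := by
  classical
  have h1 : (Q s X).card ≤ ⌈X⌉₊ - 2 := by
    unfold Q
    refine (Finset.card_filter_le _ _).trans ?_
    rw [Nat.card_Ico]
  have h2 : (⌈X⌉₊ : ℝ) < X + 1 := Nat.ceil_lt_add_one (by linarith)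
  have h3 : ((⌈X⌉₊ - 2 : ℕ) : ℝ) ≤ X := by
    rcases Nat.lt_or_ge ⌈X⌉₊ 2 with h | h
    · rw [Nat.sub_eq_zero_of_le h.le]; push_cast; linarith
    · rw [Nat.cast_sub h]; push_cast; linarith
  exact le_trans (by exact_mod_cast h1) h3

lemma D1_cont (hc : S_CTS) (s : ℤ) (X : ℝ) (N : ℕ) : Continuous fun β : Fin k → ℝ =>
    ∑ q ∈ Q s X, (∏ j, LL s q (pt (β j)) - ∏ j, PN s q N (β j)) := by
  refine continuous_finset_sum _ fun q hq => Continuous.sub ?_ ?_
  · exact continuous_finset_prod _ fun j _ => (hc s q (Q_is hq).1).comp (continuous_apply j)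
  · exact continuous_finset_prod _ fun j _ => (PN_cont s q N).comp (continuous_apply j)

end

end Pool.Agent.N879.QM
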