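import Pool.Agent.N879.QM.Stm2
import Pool.Agent.N879.QM.Tel
import Pool.Agent.N879.QM.Asm1

set_option autoImplicit false

/-!
Project QM: mean square of the removed part (helper624).
-/

namespace Pool.Agent.N879.QM

open Complex Filter Topology MeasureTheory Set
open scoped BigOperators ENNReal

noncomputable section

namespace Rmvaux

lemma vl_le (s : ℤ) (q n : ℕ) : ‖vl s q n‖ ≤ 1 := DirichletCharacter.norm_le_one _ _

lemma cauchy (E : Finset ℕ) (x : ℕ → ℂ) :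
    ‖∑ q ∈ E, x q‖ ^ 2 ≤ (E.card : ℝ) * ∑ q ∈ E, 1 * ‖x q‖ ^ 2 := by
  calc ‖∑ q ∈ E, x q‖ ^ 2 ≤ (∑ q ∈ E, ‖x q‖) ^ 2 :=
        pow_le_pow_left₀ (norm_nonneg _) (norm_sum_le _ _) 2
    _ ≤ (E.card : ℝ) * ∑ q ∈ E, ‖x q‖ ^ 2 := sq_sum_le_card_mul_sum_sq
    _ = _ := by simp only [one_mul]

end Rmvaux

open Rmvaux

/-- RMV -/
theorem t_RMV (h : S_P1) : S_RMV := by
  obtain ⟨C, hC, hP⟩ := h
  intro k
  refine ⟨C ^ k, by positivity, fun s A N E hA hN hNA => ?_⟩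
  have hlog : 0 ≤ Real.log A := Real.log_nonneg (by linarith)
  obtain ⟨V, hV⟩ : ∃ V, V = C * A * Real.log A := ⟨_, rfl⟩
  have hV0 : 0 ≤ V := by rw [hV]; positivity
  have h1 : ∀ q, ∫⁻ y, ENNReal.ofReal (‖PN s q N y‖ ^ 2) ∂(volume.restrict (Icc (-A) A)) ≤
      ENNReal.ofReal V := by
    intro q
    have hc0 := PN_cont s q N
    have hc1 : Continuous fun y => ‖PN s q N y‖ ^ 2 := by fun_prop
    rw [Tel.lint1 (h := fun y => ‖PN s q N y‖ ^ 2) (by linarith) hc1 (fun y => sq_nonneg _)]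
    refine ENNReal.ofReal_le_ofReal ?_
    rw [hV]
    exact (hP A N (fun n => vl s q n) hA hNA (fun n => vl_le s q n)).2
  have h2 : ∀ q, ∫⁻ γ, ENNReal.ofReal (‖∏ i, PN s q N (γ i)‖ ^ 2) ∂(mS k A) ≤
      ENNReal.ofReal (V ^ k) := fun q => Tel.pmom hV0 (PN_cont s q N) (h1 q) k
  have hm : ∀ q, Measurable fun β : Fin k → ℝ => ‖∏ j, PN s q N (β j)‖ ^ 2 := by
    intro q
    have hc0 := PN_cont s q N
    have hc1 : Continuous fun β : Fin k → ℝ => ‖∏ j, PN s q N (β j)‖ ^ 2 := by fun_prop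
    exact hc1.measurable
  have h3 := Tel.wsum (mS k A) E (fun _ => 1) (fun q β => ‖∏ j, PN s q N (β j)‖ ^ 2)
    (B := (E.card : ℝ)) (C := V ^ k) (Nat.cast_nonneg _) (fun _ _ => zero_le_one)
    (fun _ _ _ => sq_nonneg _) hm (by positivity) (fun q _ => h2 q)
  have h4 : ∫⁻ β, ENNReal.ofReal (‖∑ q ∈ E, ∏ j, PN s q N (β j)‖ ^ 2) ∂(mS k A) ≤
      ∫⁻ β, ENNReal.ofReal ((E.card : ℝ) * ∑ q ∈ E, 1 * ‖∏ j, PN s q N (β j)‖ ^ 2) ∂(mS k A) :=
    lintegral_mono fun β => ENNReal.ofReal_le_ofReal (cauchy E fun q => ∏ j, PN s q N (β j))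
  have h5 : (E.card : ℝ) * V ^ k * ∑ q ∈ E, (1 : ℝ) =
      C ^ k * A ^ k * Real.log A ^ k * (E.card : ℝ) ^ 2 := by
    rw [hV, Finset.sum_const, nsmul_eq_mul, mul_one, mul_pow, mul_pow]
    ring
  rw [← h5]
  exact h4.trans h3

end

end Pool.Agent.N879.QM
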