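import Pool.Agent.N879.QM.All
import Pool.Agent.N879.QM.AsmB
import Pool.Agent.N879.QM.Pvi
import Pool.Agent.N879.QM.Hbg
import Pool.Agent.N879.QM.Wq
import Pool.Agent.N879.QM.Mid
import Pool.Agent.N879.QM.Bigp
import Pool.Agent.N879.QM.Mb
import Pool.Agent.N879.QM.Opb
import Pool.Agent.N879.QM.Rmv

set_option autoImplicit false

/-! Project QM, second theorem: all parts together. -/

namespace Pool.Agent.N879.QM

theorem all_mainB : S_MAINB := by
  have hU := t_UNI
  have hA := t_AVG hU
  have hD := t_DIAG hA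
  have hG := t_GK hU
  have hP1 := t_P1
  have hP2 := t_P2 hG
  have hM := t_MVG
  have hB := t_BLK hM
  have hL := t_LSB
  have hO := t_ONE
  have hPV := t_PVI
  have hHB := t_HBG
  have hWQ := t_WQ
  have hMID := t_MID hB hHB hWQ
  have hBP := t_BIGP hB hL hPV
  have hB1 := t_BIG1P hB hO hPV
  have hAF := t_AFS
  have hC := t_CTS
  have hMB := t_MB hHB hB1 hAF hC
  have hOP := t_OPB hP2 hMID hBP hAF hC
  have hR := t_RMV hP1
  have hTE := t_TEL
  have hE := t_EUL
  have hZR := t_ZR t_ZET hE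
  have hFL := t_FL
  have hCO := t_COEF hFL
  exact t_MAINB hMB hR hP1 hOP hTE hC hD hCO hZR hE t_NS

end Pool.Agent.N879.QM
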